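import Pool.Agent.Lib.MP_d266db_co.Spec

/-!
# MP_d266db_co: arc-connectivity (`S_Arc`)
-/

set_option autoImplicit false

namespace Pool.Agent.MPd266db

open Finset

/-- **Arc.** -/
theorem tArc (hSmall : S_Small) : S_Arc := by
  intro η hη
  obtain ⟨N₀, hN₀⟩ := exists_nat_ge (8 / η)
  refine ⟨max 16 N₀, ?_⟩
  intro n r R hn hOri hReg hr hcut
  have hn16 : 16 ≤ n := (le_max_left _ _).trans hn
  have hnN : N₀ ≤ n := (le_max_right _ _).trans hn
  have hnη : 8 ≤ η * n := by
    have h1 : 8 / η ≤ n := hN₀.trans (by exact_mod_cast hnN)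
    rw [div_le_iff₀ hη] at h1
    linarith
  -- the smaller side
  have key : ∀ W : Finset (Fin n), W.Nonempty → W.card ≤ Wᶜ.card → r ≤ eb R W Wᶜ := by
    intro W hW hle
    have hw1 : 1 ≤ W.card := hW.card_pos
    have hcc : W.card + Wᶜ.card = n := by
      rw [card_add_card_compl, Fintype.card_fin]
    rcases Nat.lt_or_ge (2 * r) W.card with hlt | hge
    · -- a large set
      have h1 := hcut W
      have c1 : (n : ℝ) / 4 ≤ W.card := by
        have : n ≤ 4 * W.card := by omega
        have : (n : ℝ) ≤ 4 * W.card := by exact_mod_cast this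
        linarith
      have c2 : (n : ℝ) / 2 ≤ Wᶜ.card := by
        have : n ≤ 2 * Wᶜ.card := by omega
        have : (n : ℝ) ≤ 2 * Wᶜ.card := by exact_mod_cast this
        linarith
      have hn0 : (0 : ℝ) ≤ n := Nat.cast_nonneg _
      have c3 : (n : ℝ) ≤ eb R W Wᶜ := by
        calc (n : ℝ) = 8 * n / 8 := by ring
          _ ≤ (η * n) * n / 8 := by gcongr
          _ = η * (n / 4) * (n / 2) := by ring
          _ ≤ η * W.card * Wᶜ.card := by gcongr
          _ ≤ eb R W Wᶜ := h1
      have c4 : n ≤ eb R W Wᶜ := by exact_mod_cast c3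
      omega
    · have h1 := hSmall n r R hOri hReg W
      obtain ⟨a, ha⟩ : ∃ a, W.card = a + 1 := ⟨W.card - 1, by omega⟩
      obtain ⟨b, hb⟩ : ∃ b, 2 * r = W.card + b := ⟨2 * r - W.card, by omega⟩
      rw [hb, ha] at h1
      have h2 : 2 * r = a + 1 + b := by rw [hb, ha]
      nlinarith [Nat.zero_le (a * b)]
  intro W hW hWc
  rcases Nat.le_total W.card Wᶜ.card with h | h
  · exact key W hW h
  · have h1 := key Wᶜ hWc (by rwa [compl_compl])
    rw [compl_compl] at h1
    rw [Reg.bal hReg W]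
    exact h1

end Pool.Agent.MPd266db
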