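import Pool.Agent.Lib.MP_d266db_co.Spec

/-!
# MP_d266db_co: a regular subdigraph with many crossing arcs
-/

set_option autoImplicit false

namespace Pool.Agent.MPd266db

open Finset

theorem aug_key (hCloE : S_CloE) (hCap : S_Cap) (hInqB : S_InqB) (n r : ℕ)
    (E R : Finset (Fin n × Fin n)) (U O I : Finset (Fin n)) (hn : 100000 ≤ n) (hOri : Ori E)
    (hSemi : Semi E) (hRE : R ⊆ E) (hReg : Reg R r) (hr : 3 * n < 16 * (r + 1))
    (hU1 : 1000 * (2 * r) ≤ 1000 * U.card + n) (hU2 : 1000 * (2 * r) ≤ 1000 * Uᶜ.card + n)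
    (hClo : Clo E R U O I) (hbig : 2 * n < 1000 * (O.card + I.card))
    (hsm : 1000 * ((O \ U).card + (I \ U).card) < n) (ht : 40000 * eb R U Uᶜ < n ^ 2) : False := by
  have h1 := hCloE n r E R U O I hRE hReg hSemi hClo
  have h2 := hCap n E hOri O I
  have hUc : U.card + Uᶜ.card = n := by
    rw [Finset.card_add_card_compl, Fintype.card_fin]
  -- lower bound for the intersection
  have hz : O.card + I.card ≤ (O ∩ I).card + (O \ U).card + (I \ U).card + U.card := by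
    have a1 : (O \ U).card + (O ∩ U).card = O.card := Finset.card_sdiff_add_card_inter O U
    have a2 : (I \ U).card + (I ∩ U).card = I.card := Finset.card_sdiff_add_card_inter I U
    have a3 : (O ∩ U ∪ I ∩ U).card + (O ∩ U ∩ (I ∩ U)).card = (O ∩ U).card + (I ∩ U).card :=
      Finset.card_union_add_card_inter _ _
    have a4 : (O ∩ U ∪ I ∩ U).card ≤ U.card := Finset.card_le_card (by
      intro x hx
      simp only [mem_union, mem_inter] at hx
      tauto)
    have a5 : (O ∩ U ∩ (I ∩ U)).card ≤ (O ∩ I).card := Finset.card_le_card (by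
      intro x hx
      simp only [mem_inter] at hx ⊢
      tauto)
    omega
  -- real versions
  have hN : (0 : ℝ) < n := by
    have : 0 < n := by omega
    exact_mod_cast this
  have hNn : (n : ℝ) ≠ 0 := hN.ne'
  have hn' : (100000 : ℝ) ≤ n := by exact_mod_cast hn
  have r1 : (3 : ℝ) * n * O.card + 8 * r * I.card ≤ 8 * (eb E O I : ℝ) + 8 * r * O.card +
      16 * (eb R U Uᶜ : ℝ) := by exact_mod_cast h1
  have r2 : 2 * (eb E O I : ℝ) + ((O ∩ I).card : ℝ) ^ 2 ≤ 2 * O.card * I.card := by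
    exact_mod_cast h2
  have r3 : (O.card : ℝ) + I.card ≤ (O ∩ I).card + (O \ U).card + (I \ U).card + U.card := by
    exact_mod_cast hz
  have r4 : (1000 : ℝ) * (((O \ U).card : ℝ) + (I \ U).card) < n := by exact_mod_cast hsm
  have r5 : (40000 : ℝ) * (eb R U Uᶜ : ℝ) < (n : ℝ) ^ 2 := by exact_mod_cast ht
  have r6 : (2 : ℝ) * n < 1000 * ((O.card : ℝ) + I.card) := by exact_mod_cast hbig
  have r7 : (3 : ℝ) * n < 16 * ((r : ℝ) + 1) := by exact_mod_cast hr
  have r8 : (1000 : ℝ) * (2 * r) ≤ 1000 * U.card + n := by exact_mod_cast hU1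
  have r9 : (1000 : ℝ) * (2 * r) ≤ 1000 * (Uᶜ.card : ℝ) + n := by exact_mod_cast hU2
  have r10 : (U.card : ℝ) + (Uᶜ.card : ℝ) = n := by exact_mod_cast hUc
  obtain ⟨ρ, hρ⟩ : ∃ ρ : ℝ, (r : ℝ) = ρ * n := ⟨(r : ℝ) / n, by field_simp⟩
  obtain ⟨u, hu⟩ : ∃ u : ℝ, (U.card : ℝ) = u * n := ⟨(U.card : ℝ) / n, by field_simp⟩
  obtain ⟨x, hx⟩ : ∃ x : ℝ, (O.card : ℝ) = x * n := ⟨(O.card : ℝ) / n, by field_simp⟩
  obtain ⟨y, hy⟩ : ∃ y : ℝ, (I.card : ℝ) = y * n := ⟨(I.card : ℝ) / n, by field_simp⟩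
  obtain ⟨z, hzz⟩ : ∃ z : ℝ, ((O ∩ I).card : ℝ) = z * n := ⟨((O ∩ I).card : ℝ) / n, by field_simp⟩
  have hUc' : (Uᶜ.card : ℝ) = n - u * n := by linarith
  have p1 : 0 ≤ x * n := by rw [← hx]; positivity
  have p2 : 0 ≤ y * n := by rw [← hy]; positivity
  have p3 : 0 ≤ z * n := by rw [← hzz]; positivity
  rw [hx, hy, hρ] at r1
  rw [hx, hy, hzz] at r2
  rw [hx, hy, hzz, hu] at r3
  rw [hx, hy] at r6
  rw [hρ] at r7
  rw [hρ, hu] at r8
  rw [hρ, hUc'] at r9
  refine hInqB ρ u x y z ?_ ?_ ?_ ?_ ?_ ?_ ?_ ?_ ?_ ?_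
  · refine le_of_mul_le_mul_right ?_ hN
    nlinarith
  · refine le_of_mul_le_mul_right ?_ hN
    nlinarith
  · refine le_of_mul_le_mul_right ?_ hN
    nlinarith
  · refine le_of_mul_le_mul_right ?_ hN
    nlinarith
  · exact nonneg_of_mul_nonneg_left p1 hN
  · exact nonneg_of_mul_nonneg_left p2 hN
  · refine le_of_mul_le_mul_right ?_ hN
    nlinarith
  · exact nonneg_of_mul_nonneg_left p3 hN
  · refine le_of_mul_le_mul_right ?_ hN
    nlinarith
  · have hN2 : (0 : ℝ) < (n : ℝ) ^ 2 := by positivity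
    refine le_of_mul_le_mul_right ?_ hN2
    have e1 : ((3 / 8 - ρ) * x + ρ * y) * (n : ℝ) ^ 2 =
        (3 * n * (x * n) + 8 * (ρ * n) * (y * n) - 8 * (ρ * n) * (x * n)) / 8 := by ring
    have e2 : (x * y - z ^ 2 / 2 + 1 / 20000) * (n : ℝ) ^ 2 =
        (2 * (x * n) * (y * n) - (z * n) ^ 2) / 2 + (n : ℝ) ^ 2 / 20000 := by ring
    rw [e1, e2]
    linarith

theorem tAug (hSep : S_Sep) (hCloE : S_CloE) (hCap : S_Cap) (hGap : S_Gap) (hMin : S_Min)
    (hInqB : S_InqB) : S_Aug := by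
  intro n r E U hn hOri hSemi hr hex hU1 hU2
  classical
  have hne : (E.powerset.filter (fun R => Reg R r)).Nonempty := by
    obtain ⟨R, hR, hR'⟩ := hex
    exact ⟨R, by rw [mem_filter, mem_powerset]; exact ⟨hR, hR'⟩⟩
  obtain ⟨R, hR, hmax⟩ := Finset.exists_max_image _ (fun R => eb R U Uᶜ) hne
  rw [mem_filter, mem_powerset] at hR
  obtain ⟨hRE, hReg⟩ := hR
  have hmax' : ∀ R' ⊆ E, Reg R' r → eb R' U Uᶜ ≤ eb R U Uᶜ := by
    intro R' h1 h2
    exact hmax R' (by rw [mem_filter, mem_powerset]; exact ⟨h1, h2⟩)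
  refine ⟨R, hRE, hReg, ?_⟩
  by_contra hlt
  rw [not_le] at hlt
  have hUc : U.card + Uᶜ.card = n := by
    rw [Finset.card_add_card_compl, Fintype.card_fin]
  have h4r : 1000 * (4 * r) ≤ 1002 * n := by omega
  obtain ⟨O, I, hClo, hbig, hor⟩ := hMin n E R U (by omega)
    (hSep n r E R U hRE hReg hmax')
    (fun O I hClo hle => hGap n r E R U O I hn hRE hReg hOri hSemi hr h4r hlt hClo hle)
  rcases hor with hor | hor
  · exact aug_key hCloE hCap hInqB n r E R U O I hn hOri hSemi hRE hReg hr hU1 hU2 hClo hbig hor hlt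
  · have hClo' : Clo E R Uᶜ O I := by
      refine ⟨hClo.1, ?_⟩
      intro u v h1 h2 h3
      refine hClo.2 u v h1 ?_ h3
      rw [mem_compl, mem_compl] at h2
      exact not_iff_not.mp h2
    have e1 : O \ Uᶜ = O ∩ U := by
      ext w
      simp only [mem_sdiff, mem_compl, mem_inter, not_not]
    have e2 : I \ Uᶜ = I ∩ U := by
      ext w
      simp only [mem_sdiff, mem_compl, mem_inter, not_not]
    refine aug_key hCloE hCap hInqB n r E R Uᶜ O I hn hOri hSemi hRE hReg hr hU2 ?_ hClo' hbig ?_ ?_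
    · rw [compl_compl]; exact hU1
    · rw [e1, e2]; exact hor
    · rw [compl_compl, ← Reg.bal hReg U]; exact hlt

end Pool.Agent.MPd266db
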