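import Pool.Agent.Lib.MP_d266db_co.Spec

/-!
# MP_d266db_co, Avg: the average of two regular digraphs
-/

set_option autoImplicit false

namespace Pool.Agent.MPd266db

open Finset

private theorem avg_card {n : ℕ} (p : Fin n × Fin n → Prop) [DecidablePred p]
    {A B : Finset (Fin n × Fin n)} (h : Disjoint A B) :
    ((A ∪ B).filter p).card = (A.filter p).card + (B.filter p).card := by
  rw [Finset.filter_union, Finset.card_union_of_disjoint]
  exact Finset.disjoint_filter_filter h

private theorem avg_od {n : ℕ} {A B : Finset (Fin n × Fin n)} (h : Disjoint A B) (v : Fin n) :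
    od (A ∪ B) v = od A v + od B v := avg_card _ h

private theorem avg_idg {n : ℕ} {A B : Finset (Fin n × Fin n)} (h : Disjoint A B) (v : Fin n) :
    idg (A ∪ B) v = idg A v + idg B v := avg_card _ h

private theorem avg_eb {n : ℕ} {A B : Finset (Fin n × Fin n)} (h : Disjoint A B)
    (X Y : Finset (Fin n)) : eb (A ∪ B) X Y = eb A X Y + eb B X Y := avg_card _ h

theorem tAvg (hHalf : S_Half) : S_Avg := by
  intro n r R R' hR hR'
  have d1 : Disjoint (R ∩ R') (R \ R') := by
    rw [Finset.disjoint_left]
    intro e he he'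
    exact (Finset.mem_sdiff.mp he').2 (Finset.mem_inter.mp he).2
  have d2 : Disjoint (R ∩ R') (R' \ R) := by
    rw [Finset.disjoint_left]
    intro e he he'
    exact (Finset.mem_sdiff.mp he').2 (Finset.mem_inter.mp he).1
  have d3 : Disjoint (R \ R') (R' \ R) := by
    rw [Finset.disjoint_left]
    intro e he he'
    exact (Finset.mem_sdiff.mp he').2 (Finset.mem_sdiff.mp he).1
  have u1 : R ∩ R' ∪ R \ R' = R := by
    ext e
    simp only [mem_union, mem_inter, mem_sdiff]
    tauto
  have u2 : R ∩ R' ∪ R' \ R = R' := by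
    ext e
    simp only [mem_union, mem_inter, mem_sdiff]
    tauto
  have o1 : ∀ v, od (R ∩ R') v + od (R \ R') v = r := fun v => by
    rw [← avg_od d1, u1]
    exact (hR v).1
  have o2 : ∀ v, od (R ∩ R') v + od (R' \ R) v = r := fun v => by
    rw [← avg_od d2, u2]
    exact (hR' v).1
  have i1 : ∀ v, idg (R ∩ R') v + idg (R \ R') v = r := fun v => by
    rw [← avg_idg d1, u1]
    exact (hR v).2
  have i2 : ∀ v, idg (R ∩ R') v + idg (R' \ R) v = r := fun v => by
    rw [← avg_idg d2, u2]
    exact (hR' v).2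
  obtain ⟨H₁, hH₁, hdeg, hcut⟩ := hHalf n (R \ R' ∪ R' \ R) (by
    intro v
    rw [avg_od d3, avg_idg d3]
    have a1 := o1 v
    have a2 := o2 v
    have a3 := i1 v
    have a4 := i2 v
    constructor
    · rw [show od (R' \ R) v = od (R \ R') v by omega]
      exact ⟨_, rfl⟩
    · rw [show idg (R' \ R) v = idg (R \ R') v by omega]
      exact ⟨_, rfl⟩)
  have d4 : Disjoint (R ∩ R') H₁ := by
    rw [Finset.disjoint_left]
    intro e he he'
    rcases Finset.mem_union.mp (hH₁ he') with h | h
    · exact (Finset.disjoint_left.mp d1) he h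
    · exact (Finset.disjoint_left.mp d2) he h
  refine ⟨R ∩ R' ∪ H₁, ?_, fun v => ?_, fun W => ?_⟩
  · intro e he
    rcases Finset.mem_union.mp he with h | h
    · exact Finset.mem_union_left _ (Finset.mem_inter.mp h).1
    · rcases Finset.mem_union.mp (hH₁ h) with h | h
      · exact Finset.mem_union_left _ (Finset.mem_sdiff.mp h).1
      · exact Finset.mem_union_right _ (Finset.mem_sdiff.mp h).1
  · rw [avg_od d4, avg_idg d4]
    obtain ⟨g1, g2⟩ := hdeg v
    rw [avg_od d3] at g1
    rw [avg_idg d3] at g2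
    have a1 := o1 v
    have a2 := o2 v
    have a3 := i1 v
    have a4 := i2 v
    constructor <;> omega
  · have c := hcut W
    rw [avg_eb d3] at c
    have c1 : eb (R ∩ R') W Wᶜ + eb (R \ R') W Wᶜ = eb R W Wᶜ := by
      rw [← avg_eb d1, u1]
    have c2 : eb (R ∩ R') W Wᶜ + eb (R' \ R) W Wᶜ = eb R' W Wᶜ := by
      rw [← avg_eb d2, u2]
    rw [avg_eb d4, ← c1, ← c2]
    push_cast at c ⊢
    linarith

end Pool.Agent.MPd266db
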