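import Pool.Agent.Lib.MP_d266db_co.Spec

/-!
# MP_d266db_co: capacity of a pair (`S_Cap`)
-/

set_option autoImplicit false

namespace Pool.Agent.MPd266db

open Finset

/-- arcs and reversed arcs inside a set -/
theorem cap_inner {n : ℕ} (E : Finset (Fin n × Fin n)) (hE : Ori E) (Z : Finset (Fin n)) :
    2 * eb E Z Z + Z.card ≤ Z.card ^ 2 := by
  classical
  have h1 : eb (rev E) Z Z = eb E Z Z := eb_rev E Z Z
  have hd : Disjoint (E.filter (fun e => e.1 ∈ Z ∧ e.2 ∈ Z))
      ((rev E).filter (fun e => e.1 ∈ Z ∧ e.2 ∈ Z)) := by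
    rw [disjoint_left]
    rintro ⟨a, b⟩ h h'
    have h2 := (mem_filter.mp h).1
    have h3 := (mem_filter.mp h').1
    rw [mem_rev] at h3
    exact hE a b h2 h3
  have hdd : Disjoint ((E.filter (fun e => e.1 ∈ Z ∧ e.2 ∈ Z)) ∪
      ((rev E).filter (fun e => e.1 ∈ Z ∧ e.2 ∈ Z))) Z.diag := by
    rw [disjoint_left]
    rintro ⟨a, b⟩ h h'
    rw [mem_diag] at h'
    obtain ⟨_, h3⟩ := h'
    simp only at h3
    subst h3
    rcases mem_union.mp h with h | h
    · have h2 := (mem_filter.mp h).1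
      exact hE _ _ h2 h2
    · have h2 := (mem_filter.mp h).1
      rw [mem_rev] at h2
      exact hE _ _ h2 h2
  have hsub : (E.filter (fun e => e.1 ∈ Z ∧ e.2 ∈ Z)) ∪
      ((rev E).filter (fun e => e.1 ∈ Z ∧ e.2 ∈ Z)) ∪ Z.diag ⊆ Z ×ˢ Z := by
    intro e he
    rw [mem_product]
    rcases mem_union.mp he with he | he
    · rcases mem_union.mp he with he | he
      · exact (mem_filter.mp he).2
      · exact (mem_filter.mp he).2
    · rw [mem_diag] at he
      exact ⟨he.1, he.2 ▸ he.1⟩
  have h3 := card_le_card hsub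
  rw [card_union_of_disjoint hdd, card_union_of_disjoint hd, card_product, diag_card] at h3
  unfold eb at h1 ⊢
  rw [h1] at h3
  rw [pow_two]
  omega

/-- **Cap.** -/
theorem tCap : S_Cap := by
  classical
  intro n E hE O I
  have h1 := cap_inner E hE (O ∩ I)
  -- split off the block `(O ∩ I) × (O ∩ I)`
  have hO : O = (O ∩ I) ∪ (O \ I) := by
    ext v
    simp only [mem_union, mem_inter, mem_sdiff]
    tauto
  have hI : I = (O ∩ I) ∪ (I \ O) := by
    ext v
    simp only [mem_union, mem_inter, mem_sdiff]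
    tauto
  have dO : Disjoint (O ∩ I) (O \ I) := by
    rw [disjoint_left]
    intro v hv hv'
    exact (mem_sdiff.mp hv').2 (mem_inter.mp hv).2
  have dI : Disjoint (O ∩ I) (I \ O) := by
    rw [disjoint_left]
    intro v hv hv'
    exact (mem_sdiff.mp hv').2 (mem_inter.mp hv).1
  have cO : O.card = (O ∩ I).card + (O \ I).card := by
    conv_lhs => rw [hO]
    exact card_union_of_disjoint dO
  have cI : I.card = (O ∩ I).card + (I \ O).card := by
    conv_lhs => rw [hI]
    exact card_union_of_disjoint dI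
  have e1 : eb E O I = eb E (O ∩ I) I + eb E (O \ I) I := by
    rw [← eb_union_left E I dO, ← hO]
  have e2 : eb E (O ∩ I) I = eb E (O ∩ I) (O ∩ I) + eb E (O ∩ I) (I \ O) := by
    rw [← eb_union_right E _ dI, ← hI]
  have e3 := eb_le_card_mul E (O \ I) I
  have e4 := eb_le_card_mul E (O ∩ I) (I \ O)
  rw [e1, e2, cO]
  rw [cI] at e3 ⊢
  nlinarith

end Pool.Agent.MPd266db
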