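import Pool.Agent.Lib.MP_d266db_co.Spec

/-!
# MP_d266db_co: closed pairs have many arcs
-/

namespace Pool.Agent.MPd266db

open Finset

theorem tCloE : S_CloE := by
  intro n r E R U O I hRE hreg hS hclo
  obtain ⟨c1, c2⟩ := hclo
  -- (1) `8 e_E(O, V) ≥ 3 n |O|`
  have h1 : 3 * n * O.card ≤ 8 * (eb E O I + eb E O Iᶜ) := by
    rw [eb_compl_right, Finset.mul_sum, mul_comm, ← smul_eq_mul, ← Finset.sum_const]
    exact Finset.sum_le_sum fun v _ => (hS v).1
  have h2 : eb E O Iᶜ ≤ eb R O Iᶜ := by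
    unfold eb
    apply Finset.card_le_card
    intro e he
    obtain ⟨hE, h3, h4⟩ := mem_filter.1 he
    refine mem_filter.2 ⟨?_, h3, h4⟩
    by_contra hR
    exact (mem_compl.1 h4) (c1 e.1 e.2 hE hR h3)
  have h3 := Reg.out (H := R) O I hreg
  have h4 := Reg.in (H := R) O I hreg
  have h5 : eb R Oᶜ I ≤ eb R U Uᶜ + eb R Uᶜ U := by
    unfold eb
    refine le_trans (Finset.card_le_card ?_) (Finset.card_union_le _ _)
    intro e he
    obtain ⟨hE, h3, h4⟩ := mem_filter.1 he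
    rw [mem_union, mem_filter, mem_filter, mem_compl, mem_compl]
    by_cases hu : e.1 ∈ U
    · refine Or.inl ⟨hE, hu, fun hv => (mem_compl.1 h3) (c2 e.1 e.2 hE ?_ h4)⟩
      exact ⟨fun _ => hv, fun _ => hu⟩
    · refine Or.inr ⟨hE, hu, ?_⟩
      by_contra hv
      refine (mem_compl.1 h3) (c2 e.1 e.2 hE ?_ h4)
      exact ⟨fun h => absurd h hu, fun h => absurd h hv⟩
  have h6 := Reg.bal hreg U
  have e1 : 8 * r * I.card = 8 * (r * I.card) := by ring
  have e2 : 8 * r * O.card = 8 * (r * O.card) := by ring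
  rw [e1, e2]
  omega

end Pool.Agent.MPd266db
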