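import Pool.Agent.Lib.MP_d266db_co.Spec

/-!
# MP_d266db_co, module CntP: arcs inside `P`
-/

set_option autoImplicit false

namespace Pool.Agent.MPd266db

open Finset

/-- between two disjoint sets there is at most one arc for each pair -/
theorem cntP_cross {n : ℕ} {E : Finset (Fin n × Fin n)} (h : Ori E) {P Q : Finset (Fin n)}
    (_hd : Disjoint P Q) : eb E P Q + eb E Q P ≤ P.card * Q.card := by
  classical
  unfold eb
  set S1 := E.filter (fun e => e.1 ∈ P ∧ e.2 ∈ Q) with hS1
  set S2 := E.filter (fun e => e.1 ∈ Q ∧ e.2 ∈ P) with hS2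
  have h2 : S2.card = (S2.map (Equiv.prodComm _ _).toEmbedding).card := (card_map _).symm
  rw [h2, ← card_product, ← card_union_of_disjoint]
  · apply card_le_card
    intro e he
    rw [mem_union] at he
    rcases he with he | he
    · rw [hS1, mem_filter] at he
      exact mem_product.2 he.2
    · rw [mem_map] at he
      obtain ⟨f, hf, rfl⟩ := he
      rw [hS2, mem_filter] at hf
      exact mem_product.2 ⟨hf.2.2, hf.2.1⟩
  · rw [disjoint_left]
    intro e he he'
    rw [hS1, mem_filter] at he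
    rw [mem_map] at he'
    obtain ⟨f, hf, hfe⟩ := he'
    rw [hS2, mem_filter] at hf
    have h3 : e = (f.2, f.1) := hfe.symm
    have h4 : (f.1, f.2) ∈ E := hf.1
    have h5 : (f.2, f.1) ∈ E := by rw [← h3]; exact he.1
    exact h _ _ h4 h5

theorem tCntP : S_CntP := by
  intro n E hO hS P
  have h1 := eb_compl_right E P P
  have h2 := eb_compl_left E P P
  have h3 := cntP_cross hO (disjoint_compl_right : Disjoint P Pᶜ)
  have h4 : 3 * n * P.card ≤ 8 * ∑ v ∈ P, od E v := by
    rw [mul_sum, mul_comm (3 * n), ← smul_eq_mul, ← sum_const]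
    exact sum_le_sum fun v _ => (hS v).1
  have h5 : 3 * n * P.card ≤ 8 * ∑ v ∈ P, idg E v := by
    rw [mul_sum, mul_comm (3 * n), ← smul_eq_mul, ← sum_const]
    exact sum_le_sum fun v _ => (hS v).2
  have h6 : P.card + Pᶜ.card = n := by
    rw [card_add_card_compl]
    simp
  have e1 : (eb E P P : ℝ) + eb E P Pᶜ = ((∑ v ∈ P, od E v : ℕ) : ℝ) := by exact_mod_cast h1
  have e2 : (eb E P P : ℝ) + eb E Pᶜ P = ((∑ v ∈ P, idg E v : ℕ) : ℝ) := by exact_mod_cast h2
  have e3 : (eb E P Pᶜ : ℝ) + eb E Pᶜ P ≤ P.card * Pᶜ.card := by exact_mod_cast h3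
  have e4 : 3 * (n : ℝ) * P.card ≤ 8 * ((∑ v ∈ P, od E v : ℕ) : ℝ) := by exact_mod_cast h4
  have e5 : 3 * (n : ℝ) * P.card ≤ 8 * ((∑ v ∈ P, idg E v : ℕ) : ℝ) := by exact_mod_cast h5
  have e6 : (P.card : ℝ) + Pᶜ.card = n := by exact_mod_cast h6
  have e7 : (Pᶜ.card : ℝ) = n - P.card := by linarith
  rw [e7] at e3
  nlinarith

end Pool.Agent.MPd266db
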