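import Pool.Agent.Lib.MP_d266db_co.Spec

/-!
# MP_d266db_co, module CntR: arcs from `X` to `R`
-/

set_option autoImplicit false

namespace Pool.Agent.MPd266db

open Finset

/-- the arcs inside a set of an oriented graph -/
theorem cntR_self {n : ℕ} {E : Finset (Fin n × Fin n)} (h : Ori E) (R : Finset (Fin n)) :
    2 * eb E R R + R.card ≤ R.card * R.card := by
  classical
  unfold eb
  set S1 := E.filter (fun e => e.1 ∈ R ∧ e.2 ∈ R) with hS1
  have h2 : S1.card = (S1.map (Equiv.prodComm _ _).toEmbedding).card := (card_map _).symm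
  have h3 : (S1 ∪ S1.map (Equiv.prodComm _ _).toEmbedding).card =
      S1.card + (S1.map (Equiv.prodComm _ _).toEmbedding).card := by
    apply card_union_of_disjoint
    rw [disjoint_left]
    intro e he he'
    rw [hS1, mem_filter] at he
    rw [mem_map] at he'
    obtain ⟨f, hf, hfe⟩ := he'
    rw [hS1, mem_filter] at hf
    have h3 : e = (f.2, f.1) := hfe.symm
    have h4 : (f.1, f.2) ∈ E := hf.1
    have h5 : (f.2, f.1) ∈ E := by rw [← h3]; exact he.1
    exact h _ _ h4 h5
  have h4 : (S1 ∪ S1.map (Equiv.prodComm _ _).toEmbedding) ⊆ R.offDiag := by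
    intro e he
    rw [mem_union] at he
    rw [mem_offDiag]
    rcases he with he | he
    · rw [hS1, mem_filter] at he
      refine ⟨he.2.1, he.2.2, ?_⟩
      intro heq
      have h5 : (e.1, e.2) ∈ E := he.1
      rw [heq] at h5
      exact h _ _ h5 h5
    · rw [mem_map] at he
      obtain ⟨f, hf, rfl⟩ := he
      rw [hS1, mem_filter] at hf
      refine ⟨hf.2.2, hf.2.1, ?_⟩
      intro heq
      have h5 : (f.1, f.2) ∈ E := hf.1
      have h6 : f.2 = f.1 := heq
      rw [h6] at h5
      exact h _ _ h5 h5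
  have h5 := card_le_card h4
  rw [h3, ← h2, offDiag_card] at h5
  have h6 : R.card ≤ R.card * R.card := by
    rcases Nat.eq_zero_or_pos R.card with h0 | h0
    · rw [h0]
    · exact Nat.le_mul_of_pos_left _ h0
  omega

theorem tCntR : S_CntR := by
  classical
  intro n E hO hS R X hd
  set S := (X ∪ R)ᶜ with hSdef
  have hdRS : Disjoint R S := by
    rw [hSdef]
    rw [disjoint_left]
    intro a ha ha'
    rw [mem_compl, mem_union] at ha'
    exact ha' (Or.inr ha)
  have hXc : Xᶜ = R ∪ S := by
    ext a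
    rw [hSdef, mem_union, mem_compl, mem_compl, mem_union]
    have h0 : a ∈ R → a ∉ X := fun ha => disjoint_left.1 hd ha
    tauto
  have h1 := eb_compl_left E X R
  rw [hXc, eb_union_left E R hdRS] at h1
  have h2 := cntR_self hO R
  have h3 := eb_le_card_mul E S R
  have h4 : 3 * n * R.card ≤ 8 * ∑ v ∈ R, idg E v := by
    rw [mul_sum, mul_comm (3 * n), ← smul_eq_mul, ← sum_const]
    exact sum_le_sum fun v _ => (hS v).2
  have h5 : S.card + (X.card + R.card) = n := by
    have h6 : (X ∪ R).card = X.card + R.card := card_union_of_disjoint hd.symm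
    rw [← h6, hSdef, add_comm, card_add_card_compl]
    simp
  have e1 : (eb E X R : ℝ) + (eb E R R + eb E S R) = ((∑ v ∈ R, idg E v : ℕ) : ℝ) := by exact_mod_cast h1
  have e2 : 2 * (eb E R R : ℝ) + R.card ≤ R.card * R.card := by exact_mod_cast h2
  have e3 : (eb E S R : ℝ) ≤ S.card * R.card := by exact_mod_cast h3
  have e4 : 3 * (n : ℝ) * R.card ≤ 8 * ((∑ v ∈ R, idg E v : ℕ) : ℝ) := by exact_mod_cast h4
  have e5 : (S.card : ℝ) + (X.card + R.card) = n := by exact_mod_cast h5
  have e6 : (n : ℝ) - X.card - R.card = S.card := by linarith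
  have e7 : (0 : ℝ) ≤ R.card := Nat.cast_nonneg _
  rw [e6]
  nlinarith

end Pool.Agent.MPd266db
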