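import Pool.Agent.Lib.MP_d266db_co.Spec

/-!
# MP_d266db_co, module CntY: arcs from `X` to `Y`
-/

set_option autoImplicit false

namespace Pool.Agent.MPd266db

open Finset

private theorem cntY_self {n : ℕ} {E : Finset (Fin n × Fin n)} (h : Ori E) (R : Finset (Fin n)) :
    2 * eb E R R ≤ R.card * R.card := by
  classical
  unfold eb
  set S1 := E.filter (fun e => e.1 ∈ R ∧ e.2 ∈ R) with hS1
  have h2 : S1.card = (S1.map (Equiv.prodComm _ _).toEmbedding).card := (card_map _).symm
  have h3 : (S1 ∪ S1.map (Equiv.prodComm _ _).toEmbedding).card =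
      S1.card + (S1.map (Equiv.prodComm _ _).toEmbedding).card := by
    apply card_union_of_disjoint
    rw [disjoint_left]
    intro e he he'
    rw [hS1, mem_filter] at he
    rw [mem_map] at he'
    obtain ⟨f, hf, hfe⟩ := he'
    rw [hS1, mem_filter] at hf
    have h3 : e = (f.2, f.1) := hfe.symm
    have h4 : (f.1, f.2) ∈ E := hf.1
    have h5 : (f.2, f.1) ∈ E := by rw [← h3]; exact he.1
    exact h _ _ h4 h5
  have h4 : (S1 ∪ S1.map (Equiv.prodComm _ _).toEmbedding) ⊆ R ×ˢ R := by
    intro e he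
    rw [mem_union] at he
    rw [mem_product]
    rcases he with he | he
    · rw [hS1, mem_filter] at he
      exact he.2
    · rw [mem_map] at he
      obtain ⟨f, hf, rfl⟩ := he
      rw [hS1, mem_filter] at hf
      exact ⟨hf.2.2, hf.2.1⟩
  have h5 := card_le_card h4
  rw [h3, ← h2, card_product] at h5
  omega

theorem tCntY : S_CntY := by
  classical
  intro n E hO hS X Y
  set P := X ∩ Y with hP
  set R := Y \ X with hR
  set S := (X ∪ Y)ᶜ with hSdef
  have hdRS : Disjoint R S := by
    rw [disjoint_left]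
    intro a ha ha'
    rw [hR, mem_sdiff] at ha
    rw [hSdef, mem_compl, mem_union] at ha'
    exact ha' (Or.inr ha.1)
  have hdPR : Disjoint P R := by
    rw [disjoint_left]
    intro a ha ha'
    rw [hR, mem_sdiff] at ha'
    rw [hP, mem_inter] at ha
    exact ha'.2 ha.1
  have hXc : Xᶜ = R ∪ S := by
    ext a
    rw [hSdef, hR, mem_union, mem_compl, mem_compl, mem_union, mem_sdiff]
    tauto
  have hY : Y = P ∪ R := by
    ext a
    rw [hP, hR, mem_union, mem_inter, mem_sdiff]
    tauto
  have h1 := eb_compl_left E X Y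
  have hYc : Y.card = P.card + R.card := by
    conv_lhs => rw [hY]
    exact card_union_of_disjoint hdPR
  have h2 : eb E Xᶜ Y = eb E R P + eb E R R + (eb E S P + eb E S R) := by
    rw [hXc, eb_union_left E Y hdRS]
    conv_lhs => rw [hY]
    rw [eb_union_right E R hdPR, eb_union_right E S hdPR]
  have h3 := cntY_self hO R
  have h4 := eb_le_card_mul E R P
  have h5 := eb_le_card_mul E S P
  have h6 := eb_le_card_mul E S R
  have h7 : 3 * n * Y.card ≤ 8 * ∑ v ∈ Y, idg E v := by
    rw [mul_sum, mul_comm (3 * n), ← smul_eq_mul, ← sum_const]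
    exact sum_le_sum fun v _ => (hS v).2
  have e1 : (eb E X Y : ℝ) + (eb E R P + eb E R R + (eb E S P + eb E S R)) =
      ((∑ v ∈ Y, idg E v : ℕ) : ℝ) := by
    rw [h2] at h1
    exact_mod_cast h1
  have e3 : 2 * (eb E R R : ℝ) ≤ R.card * R.card := by exact_mod_cast h3
  have e4 : (eb E R P : ℝ) ≤ R.card * P.card := by exact_mod_cast h4
  have e5 : (eb E S P : ℝ) ≤ S.card * P.card := by exact_mod_cast h5
  have e6 : (eb E S R : ℝ) ≤ S.card * R.card := by exact_mod_cast h6
  have e7 : 3 * (n : ℝ) * (P.card + R.card) ≤ 8 * ((∑ v ∈ Y, idg E v : ℕ) : ℝ) := by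
    rw [hYc] at h7
    exact_mod_cast h7
  nlinarith

end Pool.Agent.MPd266db
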