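import Pool.Agent.Lib.MP_d266db_co.Spec

/-!
# MP_d266db_co, module Cut: every cut has many arcs
-/

set_option autoImplicit false

namespace Pool.Agent.MPd266db

open Finset

private theorem cut_aux (hInqA : S_InqA) (hCntP : S_CntP) (hCntR : S_CntR) (hCntY : S_CntY)
    (n : ℕ) (E : Finset (Fin n × Fin n)) (hO : Ori E) (hS : Semi E) (X Y : Finset (Fin n))
    (hle : (Y \ X).card ≤ (X \ Y).card) (hn : n < X.card + Y.card) :
    3 * n * (X.card + Y.card) ≤ 16 * eb E X Y + 3 * n * n := by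
  classical
  have c1 : (X ∩ Y).card + (X \ Y).card = X.card := card_inter_add_card_sdiff X Y
  have c2 : (X ∩ Y).card + (Y \ X).card = Y.card := by
    rw [inter_comm]
    exact card_inter_add_card_sdiff Y X
  have c3 : (X ∪ Y).card + (X ∪ Y)ᶜ.card = n := by
    rw [card_add_card_compl]
    simp
  have c4 : (X ∪ Y).card + (X ∩ Y).card = X.card + Y.card := card_union_add_card_inter X Y
  have hsp : (X ∪ Y)ᶜ.card ≤ (X ∩ Y).card := by omega
  have hdR : Disjoint (Y \ X) X := sdiff_disjoint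
  have b1 := hCntP n E hO hS (X ∩ Y)
  have b2 := hCntR n E hO hS (Y \ X) X hdR
  have b3 := hCntY n E hO hS X Y
  have m1 : eb E (X ∩ Y) (X ∩ Y) + eb E X (Y \ X) ≤ eb E X Y := by
    have hd : Disjoint (X ∩ Y) (Y \ X) := by
      rw [disjoint_left]
      intro a ha ha'
      rw [mem_sdiff] at ha'
      rw [mem_inter] at ha
      exact ha'.2 ha.1
    have hY : Y = (X ∩ Y) ∪ (Y \ X) := by
      ext a
      rw [mem_union, mem_inter, mem_sdiff]
      tauto
    have h1 : eb E X Y = eb E X (X ∩ Y) + eb E X (Y \ X) := by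
      conv_lhs => rw [hY]
      exact eb_union_right E X hd
    have h2 : eb E (X ∩ Y) (X ∩ Y) ≤ eb E X (X ∩ Y) :=
      eb_mono (Subset.refl _) inter_subset_left (Subset.refl _)
    omega
  have m1' : (eb E (X ∩ Y) (X ∩ Y) : ℝ) + eb E X (Y \ X) ≤ eb E X Y := by exact_mod_cast m1
  have r1 : ((X ∩ Y).card : ℝ) + (X \ Y).card = X.card := by exact_mod_cast c1
  have r2 : ((X ∩ Y).card : ℝ) + (Y \ X).card = Y.card := by exact_mod_cast c2
  have r3 : ((X ∪ Y).card : ℝ) + (X ∪ Y)ᶜ.card = n := by exact_mod_cast c3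
  have r4 : ((X ∪ Y).card : ℝ) + (X ∩ Y).card = X.card + Y.card := by exact_mod_cast c4
  have r5 : ((X ∪ Y)ᶜ.card : ℝ) ≤ (X ∩ Y).card := by exact_mod_cast hsp
  have r6 : ((Y \ X).card : ℝ) ≤ (X \ Y).card := by exact_mod_cast hle
  have z1 : (0 : ℝ) ≤ eb E X (Y \ X) := Nat.cast_nonneg _
  have e0 : (n : ℝ) - X.card - (Y \ X).card = (X ∪ Y)ᶜ.card := by linarith
  rw [e0] at b2
  have key := hInqA n ((X ∩ Y).card) ((X \ Y).card) ((Y \ X).card) ((X ∪ Y)ᶜ.card) (eb E X Y)
    (Nat.cast_nonneg _) (Nat.cast_nonneg _) (Nat.cast_nonneg _) (Nat.cast_nonneg _)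
    (by linarith) r5 r6 (by linarith) (by linarith) (by linarith)
  have e1 : 3 * (n : ℝ) * (X.card + Y.card) ≤ 16 * eb E X Y + 3 * n * n := by
    have e2 : ((X ∩ Y).card : ℝ) - (X ∪ Y)ᶜ.card = X.card + Y.card - n := by linarith
    rw [e2] at key
    nlinarith
  exact_mod_cast e1

theorem tCut (hInqA : S_InqA) (hCntP : S_CntP) (hCntR : S_CntR) (hCntY : S_CntY) : S_Cut := by
  intro n E hO hS X Y
  rcases Nat.lt_or_ge n (X.card + Y.card) with hn | hn
  · rcases le_total (Y \ X).card (X \ Y).card with h | h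
    · exact cut_aux hInqA hCntP hCntR hCntY n E hO hS X Y h hn
    · have h1 := cut_aux hInqA hCntP hCntR hCntY n (rev E) hO.rev hS.rev Y X h (by omega)
      rw [eb_rev, add_comm Y.card] at h1
      exact h1
  · have h1 : 3 * n * (X.card + Y.card) ≤ 3 * n * n := Nat.mul_le_mul_left _ hn
    omega

end Pool.Agent.MPd266db
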