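import Pool.Agent.Lib.MP_d266db_co.Spec

/-!
# MP_d266db_co: cut-dense regular subdigraphs
-/

set_option autoImplicit false

namespace Pool.Agent.MPd266db

open Finset

theorem cutd_prod {n : ℕ} (W : Finset (Fin n)) : (W.card : ℝ) * Wᶜ.card ≤ (n : ℝ) ^ 2 / 4 := by
  have c : W.card + Wᶜ.card = n := by rw [card_add_card_compl, Fintype.card_fin]
  have c' : (W.card : ℝ) + Wᶜ.card = n := by exact_mod_cast c
  rw [← c']
  nlinarith [sq_nonneg ((W.card : ℝ) - Wᶜ.card)]

theorem cutd_small (hSmall : S_Small) {n r : ℕ} {R : Finset (Fin n × Fin n)} (hn : 100000 ≤ n)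
    (hO : Ori R) (hR : Reg R r) (hr : 3 * n < 16 * (r + 1)) (W : Finset (Fin n))
    (hW : 100 * W.card < 36 * n) :
    1 / 345600000 * (W.card : ℝ) * Wᶜ.card ≤ eb R W Wᶜ := by
  have h3 := hSmall n r R hO hR W
  have c : W.card + Wᶜ.card = n := by rw [card_add_card_compl, Fintype.card_fin]
  have hn' : (100000 : ℝ) ≤ n := by exact_mod_cast hn
  have hr' : (3 : ℝ) * n < 16 * (r + 1) := by exact_mod_cast hr
  have hW' : (100 : ℝ) * W.card < 36 * n := by exact_mod_cast hW
  have c' : (W.card : ℝ) + Wᶜ.card = n := by exact_mod_cast c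
  have h3' : (2 : ℝ) * r * W.card + W.card ≤ 2 * eb R W Wᶜ + (W.card : ℝ) ^ 2 := by exact_mod_cast h3
  have hw0 : (0 : ℝ) ≤ W.card := Nat.cast_nonneg _
  have hv0 : (0 : ℝ) ≤ Wᶜ.card := Nat.cast_nonneg _
  generalize (n : ℝ) = N at *
  generalize (W.card : ℝ) = w at *
  generalize (Wᶜ.card : ℝ) = v at *
  generalize (r : ℝ) = q at *
  generalize (eb R W Wᶜ : ℝ) = e at *
  have h4 : 14 / 1000 * v ≤ 2 * q + 1 - w := by linarith
  have h5 : w * (14 / 1000 * v) ≤ w * (2 * q + 1 - w) := mul_le_mul_of_nonneg_left h4 hw0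
  have h6 : 0 ≤ w * v := mul_nonneg hw0 hv0
  nlinarith

theorem cutd_small' (hSmall : S_Small) {n r : ℕ} {R : Finset (Fin n × Fin n)} (hn : 100000 ≤ n)
    (hO : Ori R) (hR : Reg R r) (hr : 3 * n < 16 * (r + 1)) (W : Finset (Fin n))
    (hW : 100 * Wᶜ.card < 36 * n) :
    1 / 345600000 * (W.card : ℝ) * Wᶜ.card ≤ eb R W Wᶜ := by
  have h := cutd_small hSmall hn hO hR hr Wᶜ hW
  rw [compl_compl, ← hR.bal W] at h
  linarith

theorem cutd_size (hSmall : S_Small) {n r : ℕ} {R : Finset (Fin n × Fin n)} (hn : 100000 ≤ n)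
    (hO : Ori R) (hR : Reg R r) (U : Finset (Fin n))
    (hU : 43200000 * eb R U Uᶜ ≤ n ^ 2) (hU1 : 36 * n ≤ 100 * U.card) :
    1000 * (2 * r) ≤ 1000 * U.card + n := by
  have h3 := hSmall n r R hO hR U
  by_contra hcon
  rw [not_le] at hcon
  have hn' : (100000 : ℝ) ≤ n := by exact_mod_cast hn
  have hU' : (43200000 : ℝ) * eb R U Uᶜ ≤ (n : ℝ) ^ 2 := by exact_mod_cast hU
  have hU1' : (36 : ℝ) * n ≤ 100 * U.card := by exact_mod_cast hU1
  have h3' : (2 : ℝ) * r * U.card + U.card ≤ 2 * eb R U Uᶜ + (U.card : ℝ) ^ 2 := by exact_mod_cast h3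
  have hcon' : (1000 : ℝ) * U.card + n < 1000 * (2 * r) := by exact_mod_cast hcon
  generalize (n : ℝ) = N at *
  generalize (U.card : ℝ) = u at *
  generalize (r : ℝ) = q at *
  generalize (eb R U Uᶜ : ℝ) = e at *
  have hu0 : 0 < u := by linarith
  have h4 : N / 1000 ≤ 2 * q + 1 - u := by linarith
  have h5 : u * (N / 1000) ≤ u * (2 * q + 1 - u) := mul_le_mul_of_nonneg_left h4 hu0.le
  have h6 : 36 / 100 * N * (N / 1000) ≤ u * (N / 1000) :=
    mul_le_mul_of_nonneg_right (by linarith) (by linarith)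
  nlinarith

theorem cutd_two (hSmall : S_Small) {n r : ℕ} {R : Finset (Fin n × Fin n)} (hn : 1 ≤ n)
    (hO : Ori R) (hR : Reg R r) : 2 * r ≤ n := by
  have h := hSmall n r R hO hR univ
  have e : eb R univ univᶜ = 0 := by
    unfold eb
    rw [card_eq_zero, filter_eq_empty_iff]
    intro x _
    simp
  rw [e, card_univ, Fintype.card_fin] at h
  have h1 : n * (2 * r + 1) ≤ n * n := by nlinarith
  have h2 := Nat.le_of_mul_le_mul_left h1 (by omega)
  omega

theorem tCutD (hSmall : S_Small) (hAug : S_Aug) (hAvg : S_Avg) (hNear : S_Near) (hLip : S_Lip) :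
    S_CutD := by
  classical
  refine ⟨1 / 345600000, by norm_num, 432000000 ^ 2, ?_⟩
  intro n hN E hE hSemi r hr hex
  have hn : 100000 ≤ n := le_trans (by norm_num) hN
  obtain ⟨R, hRE, hR⟩ := hex
  have hOsub : ∀ R : Finset (Fin n × Fin n), R ⊆ E → Ori R := fun R h u v huv hvu =>
    hE u v (h huv) (h hvu)
  have hn' : (100000 : ℝ) ≤ n := by exact_mod_cast hn
  by_cases hmid : ∀ W : Finset (Fin n), 36 * n ≤ 100 * W.card → 36 * n ≤ 100 * Wᶜ.card →
      n ^ 2 < 43200000 * eb R W Wᶜ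
  · refine ⟨R, hRE, hR, fun W => ?_⟩
    by_cases h1 : 36 * n ≤ 100 * W.card
    · by_cases h2 : 36 * n ≤ 100 * Wᶜ.card
      · have h3 := hmid W h1 h2
        have h3' : (n : ℝ) ^ 2 < 43200000 * eb R W Wᶜ := by exact_mod_cast h3
        have h4 := cutd_prod W
        nlinarith [sq_nonneg (n : ℝ)]
      · exact cutd_small' hSmall hn (hOsub R hRE) hR hr W (not_le.mp h2)
    · exact cutd_small hSmall hn (hOsub R hRE) hR hr W (not_le.mp h1)
  · push Not at hmid
    obtain ⟨U, hU1, hU2, hU⟩ := hmid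
    have hs1 := cutd_size hSmall hn (hOsub R hRE) hR U hU hU1
    have hs2 := cutd_size hSmall hn (hOsub R hRE) hR Uᶜ (by
      rw [compl_compl, ← hR.bal U]; exact hU) hU2
    obtain ⟨R', hR'E, hR', hR'U⟩ := hAug n r E U hn hE hSemi hr ⟨R, hRE, hR⟩ hs1 hs2
    obtain ⟨R'', hR''s, hR'', havg⟩ := hAvg n r R R' hR hR'
    have hR''E : R'' ⊆ E := hR''s.trans (union_subset hRE hR'E)
    refine ⟨R'', hR''E, hR'', fun W => ?_⟩
    by_cases h1 : 36 * n ≤ 100 * W.card
    swap
    · exact cutd_small hSmall hn (hOsub R'' hR''E) hR'' hr W (not_le.mp h1)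
    by_cases h2 : 36 * n ≤ 100 * Wᶜ.card
    swap
    · exact cutd_small' hSmall hn (hOsub R'' hR''E) hR'' hr W (not_le.mp h2)
    -- `5 n √n ≤ κ n² / 2`
    have hsq : (432000000 : ℝ) ≤ Real.sqrt n := by
      apply Real.le_sqrt_of_sq_le
      exact_mod_cast hN
    have hsq2 : Real.sqrt n * Real.sqrt n = n := Real.mul_self_sqrt (by linarith)
    have hsmall : 5 * ((n : ℝ) * Real.sqrt n) ≤ (n : ℝ) ^ 2 / 86400000 := by
      have h3 : 432000000 * Real.sqrt n ≤ Real.sqrt n * Real.sqrt n :=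
        mul_le_mul_of_nonneg_right hsq (Real.sqrt_nonneg _)
      rw [hsq2] at h3
      have h4 : (n : ℝ) * (432000000 * Real.sqrt n) ≤ n * n :=
        mul_le_mul_of_nonneg_left h3 (by linarith)
      nlinarith
    have hav := havg W
    have hprod := cutd_prod W
    have hRW0 : (0 : ℝ) ≤ eb R W Wᶜ := Nat.cast_nonneg _
    have hR'W0 : (0 : ℝ) ≤ eb R' W Wᶜ := Nat.cast_nonneg _
    have hmain : (n : ℝ) ^ 2 / 43200000 ≤ (eb R W Wᶜ : ℝ) + eb R' W Wᶜ := by
      by_cases h3 : n ^ 2 ≤ 43200000 * eb R W Wᶜ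
      · have h3' : (n : ℝ) ^ 2 ≤ 43200000 * eb R W Wᶜ := by exact_mod_cast h3
        linarith
      · have h4 := hNear n r R U W hn (hOsub R hRE) hR hr hU (not_le.mp h3).le hU1 hU2 h1 h2
        have h2r := cutd_two hSmall (by omega) (hOsub R hRE) hR
        have h2r' : (2 : ℝ) * r ≤ n := by exact_mod_cast h2r
        have hR'U' : (n : ℝ) ^ 2 ≤ 40000 * eb R' U Uᶜ := by exact_mod_cast hR'U
        have key : ∀ m : ℕ, 72000 * m ≤ n → eb R' U Uᶜ ≤ eb R' W Wᶜ + r * m →
            (n : ℝ) ^ 2 / 43200000 ≤ eb R' W Wᶜ := by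
          intro m hm1 hm2
          have hm1' : (72000 : ℝ) * m ≤ n := by exact_mod_cast hm1
          have hm2' : (eb R' U Uᶜ : ℝ) ≤ eb R' W Wᶜ + r * m := by exact_mod_cast hm2
          have hr0 : (0 : ℝ) ≤ r := Nat.cast_nonneg _
          have h5 : (r : ℝ) * m ≤ (n / 2) * (n / 72000) :=
            mul_le_mul (by linarith) (by linarith) (Nat.cast_nonneg _) (by linarith)
          nlinarith
        rcases h4 with h4 | h4
        · have h5 := key _ h4 (hLip n r R' U W hR')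
          linarith
        · have h6 := hLip n r R' U Wᶜ hR'
          rw [compl_compl, ← hR'.bal W] at h6
          have e1 : U \ Wᶜ = U ∩ W := by
            ext x; simp only [mem_compl, mem_inter, mem_sdiff, not_not]
          have e2 : Wᶜ \ U = (U ∪ W)ᶜ := by
            ext x; simp only [mem_compl, mem_union, mem_sdiff]; tauto
          rw [e1, e2] at h6
          have h5 := key _ h4 h6
          linarith
    nlinarith [sq_nonneg (n : ℝ)]

end Pool.Agent.MPd266db
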