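import Pool.Agent.Lib.MP_d266db_co.Spec

/-!
# MP_d266db_co: greedy packing of four-cycles (`S_Cyc`)
-/

set_option autoImplicit false

namespace Pool.Agent.MPd266db

open Finset

/-- **Cyc.** -/
theorem tCyc : S_Cyc := by
  classical
  intro n H
  induction H using Finset.strongInduction with
  | H H ih =>
    by_cases hNo : NoC4 H
    · refine ⟨0, Fin.elim0, H, fun i => i.elim0, fun i => i.elim0, fun i => i.elim0,
        fun i => i.elim0, ?_, hNo⟩
      simp
    · unfold NoC4 at hNo
      push Not at hNo
      obtain ⟨a, a', b, b', ha, hb, h1, h2, h3, h4⟩ := hNo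
      set p : Fin n × Fin n × Fin n × Fin n := (a, a', b, b') with hp
      have hPH : qa p ∪ qb p ⊆ H := by
        intro e he
        simp only [qa, qb, hp, mem_union, mem_insert, mem_singleton] at he
        rcases he with (rfl | rfl) | (rfl | rfl)
        · exact h1
        · exact h4
        · exact h2
        · exact h3
      have hPne : (qa p ∪ qb p).Nonempty := by
        refine ⟨(a, b), mem_union_left _ ?_⟩
        simp [qa, hp]
      have hlt : H \ (qa p ∪ qb p) ⊂ H := sdiff_ssubset hPH hPne
      obtain ⟨k, q, H₀, g1, g2, g3, g4, g5, g6⟩ := ih _ hlt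
      have hd : ∀ i, Disjoint (qa p ∪ qb p) (qa (q i) ∪ qb (q i)) := fun i =>
        disjoint_of_subset_right (g2 i) disjoint_sdiff
      have hH₀ : H₀ ⊆ H \ (qa p ∪ qb p) := by
        rw [g5]
        exact subset_union_left
      refine ⟨k + 1, Fin.cons p q, H₀, ?_, ?_, ?_, ?_, ?_, g6⟩
      · intro i
        refine Fin.cases ?_ (fun i => ?_) i
        · rw [Fin.cons_zero]
          exact ⟨ha, hb⟩
        · rw [Fin.cons_succ]
          exact g1 i
      · intro i
        refine Fin.cases ?_ (fun i => ?_) i
        · rw [Fin.cons_zero]
          exact hPH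
        · rw [Fin.cons_succ]
          exact (g2 i).trans sdiff_subset
      · intro i j
        refine Fin.cases ?_ (fun i => ?_) i
        · refine Fin.cases ?_ (fun j => ?_) j
          · intro h
            exact absurd rfl h
          · intro _
            rw [Fin.cons_zero, Fin.cons_succ]
            exact hd j
        · refine Fin.cases ?_ (fun j => ?_) j
          · intro _
            rw [Fin.cons_zero, Fin.cons_succ]
            exact (hd i).symm
          · intro h
            rw [Fin.cons_succ, Fin.cons_succ]
            exact g3 i j (fun h' => h (by rw [h']))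
      · intro i
        refine Fin.cases ?_ (fun i => ?_) i
        · rw [Fin.cons_zero]
          exact disjoint_of_subset_left hH₀ sdiff_disjoint
        · rw [Fin.cons_succ]
          exact g4 i
      · ext e
        have h5 : e ∈ H \ (qa p ∪ qb p) ↔
            e ∈ H₀ ∪ univ.biUnion (fun i => qa (q i) ∪ qb (q i)) := by rw [← g5]
        rw [mem_sdiff, mem_union (s := H₀), mem_biUnion] at h5
        rw [mem_union (s := H₀), mem_biUnion]
        have h6 : (∃ i ∈ (univ : Finset (Fin (k + 1))),
            e ∈ qa ((Fin.cons p q : Fin (k + 1) → Fin n × Fin n × Fin n × Fin n) i) ∪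
              qb ((Fin.cons p q : Fin (k + 1) → Fin n × Fin n × Fin n × Fin n) i)) ↔
            e ∈ qa p ∪ qb p ∨ ∃ i ∈ (univ : Finset (Fin k)), e ∈ qa (q i) ∪ qb (q i) := by
          constructor
          · rintro ⟨i, _, hi⟩
            revert hi
            refine Fin.cases ?_ (fun i => ?_) i
            · intro hi
              rw [Fin.cons_zero] at hi
              exact Or.inl hi
            · intro hi
              rw [Fin.cons_succ] at hi
              exact Or.inr ⟨i, mem_univ _, hi⟩
          · rintro (hi | ⟨i, _, hi⟩)
            · exact ⟨0, mem_univ _, by rw [Fin.cons_zero]; exact hi⟩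
            · exact ⟨i.succ, mem_univ _, by rw [Fin.cons_succ]; exact hi⟩
        rw [h6]
        constructor
        · intro he
          by_cases heP : e ∈ qa p ∪ qb p
          · exact Or.inr (Or.inl heP)
          · rcases h5.mp ⟨he, heP⟩ with h | h
            · exact Or.inl h
            · exact Or.inr (Or.inr h)
        · rintro (h | h | h)
          · exact (h5.mpr (Or.inl h)).1
          · exact hPH h
          · exact (h5.mpr (Or.inr h)).1

end Pool.Agent.MPd266db
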