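import Mathlib

/-!
# MP_d266db_co: regular spanning subdigraphs of oriented graphs of semidegree `3n/8`, definitions

A digraph on `Fin n` is a finite set `E` of ordered pairs; `(u, v) ∈ E` is an arc from `u` to `v`.
-/

set_option autoImplicit false

namespace Pool.Agent.MPd266db

open Finset

/-- the number of arcs of `E` from `X` to `Y` -/
def eb {n : ℕ} (E : Finset (Fin n × Fin n)) (X Y : Finset (Fin n)) : ℕ :=
  (E.filter (fun e => e.1 ∈ X ∧ e.2 ∈ Y)).card

/-- out-degree -/
def od {n : ℕ} (E : Finset (Fin n × Fin n)) (v : Fin n) : ℕ := (E.filter (fun e => e.1 = v)).card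

/-- in-degree -/
def idg {n : ℕ} (E : Finset (Fin n × Fin n)) (v : Fin n) : ℕ := (E.filter (fun e => e.2 = v)).card

/-- `E` is an oriented graph (no loops, no opposite arcs) -/
def Ori {n : ℕ} (E : Finset (Fin n × Fin n)) : Prop := ∀ u v : Fin n, (u, v) ∈ E → (v, u) ∉ E

/-- all in-degrees and out-degrees are at least `3n/8` -/
def Semi {n : ℕ} (E : Finset (Fin n × Fin n)) : Prop :=
  ∀ v : Fin n, 3 * n ≤ 8 * od E v ∧ 3 * n ≤ 8 * idg E v

/-- all in-degrees and out-degrees are equal to `r` -/
def Reg {n : ℕ} (H : Finset (Fin n × Fin n)) (r : ℕ) : Prop :=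
  ∀ v : Fin n, od H v = r ∧ idg H v = r

variable {n : ℕ} (E : Finset (Fin n × Fin n)) (X Y X' Y' : Finset (Fin n))

theorem eb_univ_right : eb E X univ = ∑ v ∈ X, od E v := by
  classical
  unfold eb od
  rw [← Finset.card_biUnion]
  · congr 1
    ext e
    simp only [mem_filter, mem_univ, and_true, mem_biUnion]
    constructor
    · rintro ⟨h1, h2⟩; exact ⟨e.1, h2, h1, rfl⟩
    · rintro ⟨a, ha, h1, h2⟩; exact ⟨h1, h2 ▸ ha⟩
  · intro a _ b _ hab
    rw [Function.onFun, Finset.disjoint_left]
    intro e he he'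
    simp only [mem_filter] at he he'
    exact hab (he.2.symm.trans he'.2)

theorem eb_univ_left : eb E univ Y = ∑ v ∈ Y, idg E v := by
  classical
  unfold eb idg
  rw [← Finset.card_biUnion]
  · congr 1
    ext e
    simp only [mem_filter, mem_univ, true_and, mem_biUnion]
    constructor
    · rintro ⟨h1, h2⟩; exact ⟨e.2, h2, h1, rfl⟩
    · rintro ⟨a, ha, h1, h2⟩; exact ⟨h1, h2 ▸ ha⟩
  · intro a _ b _ hab
    rw [Function.onFun, Finset.disjoint_left]
    intro e he he'
    simp only [mem_filter] at he he'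
    exact hab (he.2.symm.trans he'.2)

theorem eb_mono {E E' : Finset (Fin n × Fin n)} {X Y X' Y' : Finset (Fin n)} (hE : E ⊆ E')
    (hX : X ⊆ X') (hY : Y ⊆ Y') : eb E X Y ≤ eb E' X' Y' := by
  apply Finset.card_le_card
  intro e he
  simp only [mem_filter] at he ⊢
  exact ⟨hE he.1, hX he.2.1, hY he.2.2⟩

theorem eb_union_right {Y Y' : Finset (Fin n)} (h : Disjoint Y Y') :
    eb E X (Y ∪ Y') = eb E X Y + eb E X Y' := by
  classical
  unfold eb
  rw [← Finset.card_union_of_disjoint]
  · congr 1
    ext e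
    simp only [mem_filter, mem_union]
    tauto
  · rw [Finset.disjoint_left]
    intro e he he'
    simp only [mem_filter] at he he'
    exact (Finset.disjoint_left.mp h) he.2.2 he'.2.2

theorem eb_union_left {X X' : Finset (Fin n)} (h : Disjoint X X') :
    eb E (X ∪ X') Y = eb E X Y + eb E X' Y := by
  classical
  unfold eb
  rw [← Finset.card_union_of_disjoint]
  · congr 1
    ext e
    simp only [mem_filter, mem_union]
    tauto
  · rw [Finset.disjoint_left]
    intro e he he'
    simp only [mem_filter] at he he'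
    exact (Finset.disjoint_left.mp h) he.2.1 he'.2.1

theorem eb_compl_right : eb E X Y + eb E X Yᶜ = ∑ v ∈ X, od E v := by
  rw [← eb_univ_right, ← eb_union_right E X (disjoint_compl_right), union_compl]

theorem eb_compl_left : eb E X Y + eb E Xᶜ Y = ∑ v ∈ Y, idg E v := by
  rw [← eb_univ_left, ← eb_union_left E Y (disjoint_compl_right), union_compl]

/-- in a regular digraph `r |X|` arcs leave `X` -/
theorem Reg.out {H : Finset (Fin n × Fin n)} {r : ℕ} (h : Reg H r) :
    eb H X Y + eb H X Yᶜ = r * X.card := by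
  rw [eb_compl_right, Finset.sum_congr rfl (fun v _ => (h v).1), sum_const, smul_eq_mul, mul_comm]

theorem Reg.in {H : Finset (Fin n × Fin n)} {r : ℕ} (h : Reg H r) :
    eb H X Y + eb H Xᶜ Y = r * Y.card := by
  rw [eb_compl_left, Finset.sum_congr rfl (fun v _ => (h v).2), sum_const, smul_eq_mul, mul_comm]

/-- as many arcs leave `W` as enter it -/
theorem Reg.bal {H : Finset (Fin n × Fin n)} {r : ℕ} (h : Reg H r) (W : Finset (Fin n)) :
    eb H W Wᶜ = eb H Wᶜ W := by
  have h1 := Reg.out W W h
  have h2 := Reg.in W W h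
  omega

theorem eb_le_card_mul : eb E X Y ≤ X.card * Y.card := by
  rw [← Finset.card_product]
  apply Finset.card_le_card
  intro e he
  simp only [mem_filter] at he
  exact Finset.mem_product.mpr ⟨he.2.1, he.2.2⟩

/-- the reversed digraph -/
def rev {n : ℕ} (E : Finset (Fin n × Fin n)) : Finset (Fin n × Fin n) := E.map (Equiv.prodComm _ _).toEmbedding

theorem mem_rev {E : Finset (Fin n × Fin n)} {u v : Fin n} : (u, v) ∈ rev E ↔ (v, u) ∈ E := by
  simp [rev]

theorem eb_rev : eb (rev E) X Y = eb E Y X := by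
  unfold eb rev
  rw [Finset.filter_map, Finset.card_map]
  congr 1
  ext e
  simp only [mem_filter, Function.comp, Equiv.coe_toEmbedding, Equiv.prodComm_apply, Prod.fst_swap,
    Prod.snd_swap]
  tauto

theorem od_rev (v : Fin n) : od (rev E) v = idg E v := by
  unfold od idg rev
  rw [Finset.filter_map, Finset.card_map]
  congr 1

theorem idg_rev (v : Fin n) : idg (rev E) v = od E v := by
  unfold od idg rev
  rw [Finset.filter_map, Finset.card_map]
  congr 1

theorem Ori.rev {E : Finset (Fin n × Fin n)} (h : Ori E) : Ori (rev E) := by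
  intro u v huv
  rw [mem_rev] at huv ⊢
  exact h v u huv

theorem Semi.rev {E : Finset (Fin n × Fin n)} (h : Semi E) : Semi (rev E) := by
  intro v
  rw [od_rev, idg_rev]
  exact ⟨(h v).2, (h v).1⟩

end Pool.Agent.MPd266db
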