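import Pool.Agent.Lib.MP_d266db_co.Defs

/-!
# MP_d266db_co, Spec: regular spanning subdigraphs at semidegree `3n/8`

Every `S_...` is a statement to be proved in its own file `Pool/Agent/Lib/MP_d266db_co/....lean`; the
docstring contains the complete proof.

Part A: every oriented graph on `n` vertices with semidegree at least `3n/8` has an `r`-regular
spanning subdigraph for all `r ≤ 3n/16`, and the constant `3/16` is best possible.

Part B: if such a graph (large `n`) has an `r`-regular spanning subdigraph, `16 (r + 1) > 3n`, then it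
has one with `e(W, V - W) ≥ η |W| |V - W|` for all `W`; it is `r`-arc-connected.

Notation in the docstrings: `V` is the vertex set, `W^c` the complement of `W`, `e_E(X, Y)` is
`eb E X Y`, `|X|` the cardinality.
-/

set_option autoImplicit false

namespace Pool.Agent.MPd266db

open Finset

/-! ## Part A -/

/-- (about 120 lines) **Degree constrained subgraphs (Ore, Ryser).**

Proof with Hall's theorem.  For `X = {a}`, `Y = univ` the hypothesis gives `f a ≤ od H a`.  Let the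
index set be the arcs of `H` (subtype `{e // e ∈ H}`) and for an arc `e = (a, b)` let `t e` be the
finite set of the elements `Sum.inl (a, i)`, `i < od H a - f a`, and `Sum.inr (b, j)`, `j < g b`, of
`(Fin n × ℕ) ⊕ (Fin n × ℕ)`.  Hall's condition (`Finset.all_card_le_biUnion_card_iff_exists_injective`):
let `A` be a set of arcs, `X` the set of its tails, `Z` the set of its heads.  Then
`|A| ≤ e_H(X, Z) = ∑_{a ∈ X} od H a - e_H(X, Z^c) ≤ ∑_{a ∈ X} (od H a - f a) + ∑_{b ∈ Z} g b`, by the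
hypothesis for `X` and `Y = Z^c`, and the last number is the cardinality of `⋃_{e ∈ A} t e` (the sets
`{(a, i) : i < od H a - f a}`, `a ∈ X`, and `{(b, j) : j < g b}`, `b ∈ Z`, are pairwise disjoint).  So
there is an injective `c` with `c e ∈ t e`.  The union of all `t e` is contained in the set `T` of all
`inl (a, i)`, `i < od H a - f a`, and `inr (b, j)`, `j < g b`, which has
`∑ od H a - ∑ f a + ∑ g b = |H|` elements; so `c` is a bijection from the arcs onto `T`.  Let `H₁` be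
the set of the arcs `e` with `c e` of the form `inr`.  For `b` the arcs of `H₁` with head `b` are
exactly the preimages of the `g b` elements `inr (b, j)`, so `idg H₁ b = g b`; the arcs of
`H - H₁` with tail `a` are exactly the preimages of the `od H a - f a` elements `inl (a, i)`, so
`od H₁ a = f a`. -/
def S_Fac : Prop :=
  ∀ (n : ℕ) (H : Finset (Fin n × Fin n)) (f g : Fin n → ℕ), ∑ v, f v = ∑ v, g v →
    (∀ X Y : Finset (Fin n), ∑ v ∈ X, f v ≤ eb H X Y + ∑ v ∈ Yᶜ, g v) →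
    ∃ H₁ ⊆ H, ∀ v, od H₁ v = f v ∧ idg H₁ v = g v

/-- (about 80 lines, pure inequality) **The quadratic inequality of part A.**

Proof.  Put `t = (q - r)/2 ≥ 0`, `m = q + r`, `k = p - s ≥ 0`, `σ = p + s`, so `r = m/2 - t`,
`m = N - σ`, `t ≤ m/2`.  Let `B1`, `B2`, `B3` be the three lower bounds for `e` minus
`3N/16 (p - s)`; we show that one of them is nonnegative.  Identities (check with `ring`):
`16 B1 = (N - 2σ)² + 2k² + 2Nt - 8kt - 8t²`, `B2 = B1 + p (t - s/2)`, `16 B3 = 8p² - 5pN + 3sN`.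
Let `V` be the value of `16 B1` for `t = s/2`:
`V = N² - 7sN - 4kN + 14s² + 12sk + 6k² = 6 (k + s - N/3)² + 8 (s - 3N/16)² + (5/96) N² ≥ 0`.

Case 1, `t ≤ s/2`.  If `s = 0` then `t = 0` and `16 B1 = (N-2σ)² + 2k² ≥ 0`.  If `s > 0` then
`s · 16 B1 = (s - 2t) ((N - 2σ)² + 2k²) + 2t V + 8 s t (s/2 - t) ≥ 0` (identity: `16 B1` as a function
of `t` is the chord between `t = 0` and `t = s/2` plus `8 t (s/2 - t)`).

Case 2, `t > s/2` and `p s ≤ 3N/16 (p + s)`.  As `t ≤ m/2` we have `m > s`.  Let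
`C = 16 (3N/16 (p + s) - p s) ≥ 0` (the value of `16 B2` for `t = m/2`); then
`(m/2 - s/2) · 16 B2 = (m/2 - t) V + (t - s/2) C + 8 (t - s/2) (m/2 - t) (m/2 - s/2) ≥ 0`.

Case 3, `p s > 3N/16 (p + s)`.  Then `s > 0` and `16 p > 3N` (as `p + s ≥ s`), and
`s (16 p - 3N) > 3Np`.  So
`(16p - 3N) · 16 B3 = (8p² - 5pN) (16p - 3N) + 3N s (16p - 3N) ≥ (8p² - 5pN)(16p - 3N) + 9N²p
 = 8p (16p² - 13pN + 3N²) ≥ 0`, because `16p² - 13pN + 3N² = 16 (p - 13N/32)² + (23/64) N²`. -/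
def S_InqA : Prop :=
  ∀ N p q r s e : ℝ, 0 ≤ p → 0 ≤ q → 0 ≤ r → 0 ≤ s → p + q + r + s = N → s ≤ p → r ≤ q →
    r * (3 * N / 8 - s - r / 2) + p * (p - N / 4) / 2 ≤ e →
    r * (3 * N / 8 - s - r / 2) + p * (3 * N / 8 - r - s) ≤ e →
    p * (p - N / 4) / 2 ≤ e →
    3 * N / 16 * (p - s) ≤ e

/-- (about 60 lines) Proof.  For `v ∈ P` the out-neighbours and the in-neighbours of `v` are disjoint
sets without `v`, at least `3n/4` vertices together, at most `n - |P|` of them outside `P`; so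
`v` has at least `|P| - n/4` neighbours (in or out) in `P`.  The sum of these numbers over `v ∈ P` is
`2 e(P, P)` (`e(P, P)` arcs counted at the tail and at the head).  With sums: `∑_{v ∈ P} (od + idg)
= 2 e(P,P) + e(P, P^c) + e(P^c, P)`, and `e(P, P^c) + e(P^c, P) ≤ |P| (n - |P|)` as `E` is oriented
(at most one arc for each pair in `P × P^c`). -/
def S_CntP : Prop :=
  ∀ (n : ℕ) (E : Finset (Fin n × Fin n)), Ori E → Semi E → ∀ P : Finset (Fin n),
    (P.card : ℝ) * (P.card - n / 4) / 2 ≤ eb E P P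

/-- (about 60 lines) Proof.  `e(X, R) = ∑_{v ∈ R} idg v - e(X^c, R) ≥ 3n/8 |R| - e(X^c, R)`; as `R` and
`X` are disjoint `X^c` is the disjoint union of `R` and a set `S` with `s = n - |X| - |R|` elements,
`e(S, R) ≤ s |R|` and `e(R, R) ≤ |R| (|R| - 1)/2 ≤ |R|²/2` (oriented graph). -/
def S_CntR : Prop :=
  ∀ (n : ℕ) (E : Finset (Fin n × Fin n)), Ori E → Semi E → ∀ R X : Finset (Fin n), Disjoint R X →
    (R.card : ℝ) * (3 * n / 8 - (n - X.card - R.card) - R.card / 2) ≤ eb E X R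

/-- (about 80 lines) Proof.  Put `P = X ∩ Y`, `R = Y - X`, `S = (X ∪ Y)^c` (cardinalities `p`, `r`,
`s`).  `e(X, Y) = ∑_{v ∈ Y} idg v - e(X^c, Y) ≥ 3n/8 (p + r) - e(X^c, Y)`, and `X^c = R ∪ S`,
`Y = P ∪ R` (disjoint unions) give `e(X^c, Y) ≤ rp + r²/2 + sp + sr` (the four blocks; `e(R, R) ≤ r²/2`
because `E` is oriented).  The right hand side of the claim is `3n/8 (p + r) - rp - r²/2 - sp - sr`. -/
def S_CntY : Prop :=
  ∀ (n : ℕ) (E : Finset (Fin n × Fin n)), Ori E → Semi E → ∀ X Y : Finset (Fin n),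
    ((Y \ X).card : ℝ) * (3 * n / 8 - (X ∪ Y)ᶜ.card - (Y \ X).card / 2) +
      (X ∩ Y).card * (3 * n / 8 - (Y \ X).card - (X ∪ Y)ᶜ.card) ≤ eb E X Y

/-- (about 80 lines) **Every cut has many arcs:** `16 e(X, Y) ≥ 3n (|X| + |Y| - n)`.

Proof (uses `S_InqA`, `S_CntP`, `S_CntR`, `S_CntY`).  If `|X| + |Y| ≤ n` there is nothing to prove.
Otherwise put `P = X ∩ Y`, `Q = X - Y`, `R = Y - X`, `S = (X ∪ Y)^c` with cardinalities `p, q, r, s`;
`p + q + r + s = n`, `|X| + |Y| - n = p - s ≥ 0`.  We may assume `r ≤ q`: otherwise replace `E` by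
`rev E` and exchange `X` and `Y` (`eb_rev`, `Ori.rev`, `Semi.rev`).  Apply `S_InqA` with `N = n`,
`e = e(X, Y)`.  First bound: `e(X, Y) ≥ e(P, P) + e(X, R)` (`R` and `P` are disjoint subsets of `Y`,
`P ⊆ X`), `S_CntP` for `P`, and `S_CntR` for `R` and `X` (`n - |X| - |R| = s`).  Second bound:
`S_CntY`.  Third bound: `e(X, Y) ≥ e(P, P)` and `S_CntP`. -/
def S_Cut : Prop :=
  ∀ (n : ℕ) (E : Finset (Fin n × Fin n)), Ori E → Semi E → ∀ X Y : Finset (Fin n),
    3 * n * (X.card + Y.card) ≤ 16 * eb E X Y + 3 * n * n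

/-- (about 40 lines) **Existence.**  Proof (uses `S_Fac`, `S_Cut`): apply `S_Fac` with `f = g = r`.
For `X`, `Y`: `r |X| ≤ e(X, Y) + r (n - |Y|)` is clear if `|X| + |Y| ≤ n`; otherwise
`16 r (|X| + |Y| - n) ≤ 3n (|X| + |Y| - n) ≤ 16 e(X, Y)`. -/
def S_RegA : Prop :=
  ∀ (n : ℕ) (E : Finset (Fin n × Fin n)), Ori E → Semi E → ∀ r : ℕ, 16 * r ≤ 3 * n →
    ∃ H ⊆ E, Reg H r

/-- (about 30 lines) **The trivial upper bound.**  Proof: `r |X| = e_H(X, Y) + e_H(X, Y^c)` and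
`e_H(X, Y^c) ≤ e_H(V, Y^c) = r (n - |Y|)`; `e_H(X, Y) ≤ e_E(X, Y)`. -/
def S_Ups : Prop :=
  ∀ (n : ℕ) (E H : Finset (Fin n × Fin n)) (r : ℕ), H ⊆ E → Reg H r → ∀ X Y : Finset (Fin n),
    r * (X.card + Y.card) ≤ eb E X Y + r * n

/-- (about 60 lines) **Transport.**  A relation on a finite type with `n` elements gives a digraph on
`Fin n` with the same degrees and the same cuts.

Proof: take `e : T ≃ Fin n` (`Fintype.equivFinOfCardEq`) and
`E = univ.filter (fun p => A (e.symm p.1) (e.symm p.2))`; `X' = X.map e`.  All cardinalities are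
transported by `e`. -/
def S_Trn : Prop :=
  ∀ (T : Type) [Fintype T] [DecidableEq T] (A : T → T → Prop) [DecidableRel A] (n : ℕ),
    Fintype.card T = n → (∀ x y, A x y → ¬ A y x) →
    (∀ x, 3 * n ≤ 8 * (univ.filter (fun y => A x y)).card ∧
      3 * n ≤ 8 * (univ.filter (fun y => A y x)).card) →
    ∀ (X Y : Finset T) (b : ℕ),
      (univ.filter (fun p : T × T => p.1 ∈ X ∧ p.2 ∈ Y ∧ A p.1 p.2)).card ≤ b →
      ∃ E : Finset (Fin n × Fin n), Ori E ∧ Semi E ∧ ∃ X' Y' : Finset (Fin n),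
        X'.card = X.card ∧ Y'.card = Y.card ∧ eb E X' Y' ≤ b

/-- the vertices of the extremal example: classes `A`, `B`, `C`, `D` (in this order) with `m = 2l`,
`m - j`, `m`, `m + j` elements, `j = 2i` -/
abbrev ExT (l i : ℕ) : Type := (ZMod (2 * l) ⊕ Fin (2 * l - 2 * i)) ⊕ (ZMod (2 * l) ⊕ ZMod (2 * l + 2 * i))

/-- the arcs of the extremal example: in `A` and in `C` the circulant digraph with steps
`1, ..., l - 1`; `A → B → C → D → A` complete; `A → C` with steps `0, ..., 2i`; `B - D` by parity;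
in `D` the circulant digraph with steps `1, ..., i` -/
def ExA (l i : ℕ) : ExT l i → ExT l i → Prop
  | .inl (.inl a), .inl (.inl a') => 1 ≤ (a' - a).val ∧ (a' - a).val ≤ l - 1
  | .inl (.inl _), .inl (.inr _) => True
  | .inl (.inl a), .inr (.inl c) => (c - a).val ≤ 2 * i
  | .inl (.inr _), .inr (.inl _) => True
  | .inl (.inr b), .inr (.inr d) => (b.val + d.val) % 2 = 0
  | .inr (.inl c), .inr (.inl c') => 1 ≤ (c' - c).val ∧ (c' - c).val ≤ l - 1
  | .inr (.inl _), .inr (.inr _) => True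
  | .inr (.inr _), .inl (.inl _) => True
  | .inr (.inr d), .inl (.inr b) => (b.val + d.val) % 2 = 1
  | .inr (.inr d), .inr (.inr d') => 1 ≤ (d' - d).val ∧ (d' - d).val ≤ i
  | _, _ => False

/-- (about 80 lines) Proof: check the pairs of classes.  In a circulant digraph on `ZMod M` with steps
`1, ..., s`, `2 s < M`, there are no opposite arcs: `(a' - a).val` and `(a - a').val` are both at least
`1` and their sum is `M` (here `s = l - 1`, `M = 2l`, and `s = i`, `M = 2l + 2i`).  Between different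
classes arcs go in one direction only, except between `B` and `D`, where the parity decides. -/
def S_ExOri : Prop :=
  ∀ l i : ℕ, 1 ≤ i → i < l → ∀ x y : ExT l i, ExA l i x y → ¬ ExA l i y x

/-- (about 250 lines) **Degrees of the example:** all degrees are at least `3l` (`= 3n/8`, `n = 8l`).

Proof.  Count the out-neighbours and the in-neighbours in each class (`m = 2l`, `j = 2i`).
`A`: out: `l - 1` in `A`, `2l - 2i` in `B`, `2i + 1` in `C`, total `3l`; in: `l - 1` in `A`, `2l + 2i` in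
`D`, total `≥ 3l`.  `B`: out: `2l` in `C` and half of the `2l + 2i` elements of `D`, total `3l + i`;
in: `2l` in `A` and `l + i` in `D`.  `C`: out: `l - 1` in `C` and `2l + 2i` in `D`; in: `l - 1` in `C`,
`2l - 2i` in `B`, `2i + 1` in `A`, total `3l`.  `D`: out: `2l` in `A`, half of the `2l - 2i` elements of
`B`, i.e. `l - i`, and `i` in `D`, total `3l`; in: `2l` in `C`, `l - i` in `B`, `i` in `D`.
Tools: for `s < M` the number of `y : ZMod M` with `1 ≤ (y - x).val ≤ s` is `s`, the number of `y` with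
`(y - x).val ≤ s` is `s + 1`, the same for `(x - y).val` (bijection `y ↦ y - x`, resp. `x - y`, and
`ZMod.val` is a bijection onto `{0, ..., M-1}`); the number of `d < 2N` with `d + b` even is `N`.
It is enough to give lower bounds. -/
def S_ExDeg : Prop :=
  ∀ l i : ℕ, 1 ≤ i → i < l → ∀ (_ : Fintype (ExT l i)) (_ : DecidableRel (ExA l i)) (x : ExT l i),
    3 * l ≤ (univ.filter (fun y => ExA l i x y)).card ∧
      3 * l ≤ (univ.filter (fun y => ExA l i y x)).card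

/-- (about 120 lines) **The small cut of the example**: `X = A ∪ D`, `Y = C ∪ D`.

Proof.  `|X| = |Y| = 2l + (2l + 2i)`.  Arcs from `X` to `Y`: `A → C`: `2l (2i + 1)`; `A → D`, `D → C`:
none; `D → D`: `(2l + 2i) i`.  (Same tools as in `S_ExDeg`.)  Also `|T| = 8l`. -/
def S_ExCut : Prop :=
  ∀ l i : ℕ, 1 ≤ i → i < l → ∀ (_ : Fintype (ExT l i)) (_ : DecidableEq (ExT l i))
    (_ : DecidableRel (ExA l i)), Fintype.card (ExT l i) = 8 * l ∧
    ∃ X Y : Finset (ExT l i), X.card = 4 * l + 2 * i ∧ Y.card = 4 * l + 2 * i ∧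
      (univ.filter (fun p : ExT l i × ExT l i => p.1 ∈ X ∧ p.2 ∈ Y ∧ ExA l i p.1 p.2)).card ≤
        2 * l * (2 * i + 1) + (2 * l + 2 * i) * i

/-- (about 80 lines) **The constant `3/16` is best possible.**

Proof (uses `S_Ups`, `S_Trn`, `S_ExOri`, `S_ExDeg`, `S_ExCut`).  Take `i ≥ 1` with `1/(16 i) ≤ ε/2`
(e.g. `i = ⌈1/ε⌉₊ + 1`) and `l > i` with `8l ≥ N` and `i/l ≤ ε` (e.g. `l = N + i * i + ...`).  The
example has `n = 8l` vertices, and every `r`-regular spanning subdigraph satisfies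
`r · 4i = r (|X| + |Y| - n) ≤ 2l (2i + 1) + (2l + 2i) i = 6li + 2l + 2i²`, so
`r ≤ 3l/2 + l/(2i) + i/2 = n (3/16 + 1/(16 i) + i/(16 l))`. -/
def S_Sharp : Prop :=
  ∀ ε : ℝ, 0 < ε → ∀ N : ℕ, ∃ n : ℕ, N ≤ n ∧ ∃ E : Finset (Fin n × Fin n), Ori E ∧ Semi E ∧
    ∀ (r : ℕ) (H : Finset (Fin n × Fin n)), H ⊆ E → Reg H r → (r : ℝ) ≤ (3 / 16 + ε) * n

/-- (about 40 lines) **Hamilton cycles give regular subdigraphs.**  Proof:
`H` = the set of all `(v, σ i v)`.  For a fixed `v` the heads `σ i v` are distinct for distinct `i`, so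
the out-degree is `t`; for a fixed `w` the tails `(σ i)⁻¹ w` are distinct for distinct `i` (if
`(σ i)⁻¹ w = (σ j)⁻¹ w = v` then `σ i v = σ j v`), so the in-degree is `t`. -/
def S_Ham : Prop :=
  ∀ (n t : ℕ) (E : Finset (Fin n × Fin n)) (σ : Fin t → Equiv.Perm (Fin n)),
    (∀ i v, (v, σ i v) ∈ E) → (∀ i j, i ≠ j → ∀ v, σ i v ≠ σ j v) → ∃ H ⊆ E, Reg H t

/-! ## Part B -/

/-- (about 40 lines) **Small sets have large boundary.**  Proof: `r |W| = e(W, W) + e(W, W^c)`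
(`Reg.out`) and `2 e(W, W) ≤ |W| (|W| - 1)`, as `R` is oriented. -/
def S_Small : Prop :=
  ∀ (n r : ℕ) (R : Finset (Fin n × Fin n)), Ori R → Reg R r → ∀ W : Finset (Fin n),
    2 * r * W.card + W.card ≤ 2 * eb R W Wᶜ + W.card ^ 2

/-- `(O, I)` (a set `O` of tails and a set `I` of heads) is closed: arcs of `E - R` with tail in `O` have
their head in `I`, and arcs of `R` with head in `I` which do not cross between `U` and its complement
have their tail in `O` -/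
def Clo {n : ℕ} (E R : Finset (Fin n × Fin n)) (U O I : Finset (Fin n)) : Prop :=
  (∀ u v, (u, v) ∈ E → (u, v) ∉ R → u ∈ O → v ∈ I) ∧
    ∀ u v, (u, v) ∈ R → (u ∈ U ↔ v ∈ U) → v ∈ I → u ∈ O

/-- (about 200 lines) **A maximiser of the crossing number separates.**

Proof (uses `S_Fac`).  Let `F` be the set of the arcs of `R` which cross between `U` and `U^c` (in either
direction); `|F| = e_R(U, U^c) + e_R(U^c, U) = 2 e_R(U, U^c)` by `Reg.bal`.  If all `R`-arcs with tail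
`u` cross, take `O = {u}^c`, `I = univ`.  If all `R`-arcs with head `v` cross, take `O = ∅`, `I = {v}`.
Otherwise put `F₀ = insert (u, v) F` (`(u,v) ∉ R`), `H = E - F₀`, `f a = r - od F₀ a`,
`g b = r - idg F₀ b`; these are true differences: `od F₀ a ≤ r` for all `a` (for `a ≠ u` because
`F ⊆ R`; for `a = u` because `od F u < r`), likewise `idg F₀ b ≤ r`.  `∑ f = rn - |F₀| = ∑ g`.
(i) If the condition of `S_Fac` holds we get `H₁ ⊆ H` with these degrees, and `R' = H₁ ∪ F₀` is an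
`r`-regular subdigraph of `E` which contains `|F| + 1` crossing arcs, so
`2 e_{R'}(U, U^c) ≥ 2 e_R(U, U^c) + 1`, contradiction to the maximality.
(ii) So there are `X`, `Y` with `∑_X f > e_H(X, Y) + ∑_{I} g`, `I = Y^c`.  Now `∑_X f = r|X| - e_{F₀}(X, V)`,
`∑_I g = r|I| - e_{F₀}(V, I)`, `e_H(X, Y) = e_E(X, Y) - e_{F₀}(X, Y)`.  Hence (in `ℤ`)
`r(|X| - |I|) + e_{F₀}(X^c, I) - e_E(X, Y) > 0`.  By `Reg.out` and `Reg.in`,
`r(|X| - |I|) = e_R(X, Y) - e_R(X^c, I)`.  So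
`[e_E(X, Y) - e_R(X, Y)] + [e_R(X^c, I) - e_{F₀}(X^c, I)] < 0`.  The first bracket is `≥ 0`, the second
is at least `- 1`, and `= e_R(X^c, I) - e_F(X^c, I) - 1` only if `u ∉ X`, `v ∈ I` (otherwise it is
`≥ 0`).  So `u ∉ X`, `v ∈ I`, `e_E(X, Y) = e_R(X, Y)` and `e_R(X^c, I) = e_F(X^c, I)`: all arcs of `E` from
`X` to `Y` are in `R` and all arcs of `R` from `X^c` to `I` cross.  This says that `(X, I)` is closed;
take `O = X`. -/
def S_Sep : Prop :=
  ∀ (n r : ℕ) (E R : Finset (Fin n × Fin n)) (U : Finset (Fin n)), R ⊆ E → Reg R r →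
    (∀ R' ⊆ E, Reg R' r → eb R' U Uᶜ ≤ eb R U Uᶜ) →
    ∀ u v, (u, v) ∈ E → (u, v) ∉ R → ¬ (u ∈ U ↔ v ∈ U) →
      ∃ O I : Finset (Fin n), Clo E R U O I ∧ v ∈ I ∧ u ∉ O

/-- (about 50 lines) **Closed pairs have many arcs.**

Proof.  `8 e_E(O, V) ≥ 3n |O|`.  The arcs of `E` from `O` to `I^c` are all in `R`, so
`e_E(O, I^c) = e_R(O, I^c) = r|O| - e_R(O, I)`.  The arcs of `R` from `O^c` to `I` cross between `U` and
`U^c`, so there are at most `e_R(U, U^c) + e_R(U^c, U) = 2 e_R(U, U^c)` of them and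
`e_R(O, I) ≥ r|I| - 2 e_R(U, U^c)`.  So `3n|O| ≤ 8 e_E(O, I) + 8 (r|O| - r|I| + 2 e_R(U, U^c))`. -/
def S_CloE : Prop :=
  ∀ (n r : ℕ) (E R : Finset (Fin n × Fin n)) (U O I : Finset (Fin n)), R ⊆ E → Reg R r → Semi E →
    Clo E R U O I →
    3 * n * O.card + 8 * r * I.card ≤ 8 * eb E O I + 8 * r * O.card + 16 * eb R U Uᶜ

/-- (about 40 lines) Proof.  For `a, b ∈ O ∩ I` at most one of `(a, b)`, `(b, a)` is an arc and `(a, a)` is
no arc, so with `z = |O ∩ I|` at most `|O||I| - z(z + 1)/2` pairs of `O × I` are arcs. -/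
def S_Cap : Prop :=
  ∀ (n : ℕ) (E : Finset (Fin n × Fin n)), Ori E → ∀ O I : Finset (Fin n),
    2 * eb E O I + (O ∩ I).card ^ 2 ≤ 2 * O.card * I.card

/-- (about 60 lines) **There is no closed pair of size between `n/1000` and `2n/1000`.**

Proof (uses `S_CloE`, `S_Cap`).  Put `a = |O| + |I|`, `α = a/n`, `t = e_R(U, U^c) < n²/40000`.  By
`S_CloE` and `e_E(O, I) ≤ |O||I| ≤ a²/4`: `(3n/8 - r)|O| + r|I| ≤ a²/4 + 2t`.  The hypotheses give
`r ≥ n/9` and `3n/8 - r ≥ n/9`, so `(n/9) a ≤ a²/4 + n²/20000`, i.e. `α/9 ≤ α²/4 + 1/20000`.  For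
`1/1000 ≤ α ≤ 2/1000` the left hand side is at least `1/9000` and the right hand side is at most
`1/1000000 + 1/20000 < 1/9000`, contradiction. -/
def S_Gap : Prop :=
  ∀ (n r : ℕ) (E R : Finset (Fin n × Fin n)) (U O I : Finset (Fin n)), 100000 ≤ n → R ⊆ E →
    Reg R r → Ori E → Semi E → 3 * n < 16 * (r + 1) → 1000 * (4 * r) ≤ 1002 * n →
    40000 * eb R U Uᶜ < n ^ 2 → Clo E R U O I →
    n ≤ 1000 * (O.card + I.card) → 2 * n < 1000 * (O.card + I.card)

/-- (about 200 lines) **A closed pair which is large and almost contained in one side.**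

Proof.  This is a purely combinatorial consequence of the two hypotheses (separation of the crossing
arcs of `E - R`; no closed pair of size in `[n/1000, 2n/1000]`).  The size of a pair is `|O| + |I|`.
Closed pairs are closed under componentwise union and intersection; `(univ, univ)` is closed (size `2n`)
and `(∅, ∅)` is closed.  Call a pair small if its size is `< n/1000`.
(1) Let `T = (T₁, T₂)` be a small closed pair of maximal size.  If `S` is a small closed pair then `T ∪ S` is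
closed of size `< 2n/1000`, hence small by the gap hypothesis, hence of the same size as `T`, i.e.
`S ⊆ T` componentwise.
(2) Let `(O, I)` be a closed pair of minimal size among the closed pairs which are not small.  Let
`(u, v) ∈ E - R` cross, `u ∈ O`, `v ∈ I`.  By the separation there is a closed `S` with `v ∈ S₂`,
`u ∉ S₁`; `S ∩ (O, I)` is closed and smaller than `(O, I)`, so it is small and contained in `T`; thus
`v ∈ T₂`.
(3) Put `T' = T ∩ (O, I)` and let `Z` be `U` or `U^c`.  The pair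
`P_Z = ((O ∩ Z) ∪ T'₁, (I ∩ Z) ∪ T'₂)` is closed: let `(u, v) ∈ E - R` with `u` in the first component;
then `v ∈ I`.  If `u ∈ T'₁` then `v ∈ T₂ ∩ I`.  If `u ∈ O ∩ Z` then `v ∈ Z` or the arc crosses and
`v ∈ T₂` by (2).  Let `(u, v) ∈ R` not cross with `v` in the second component; then `u ∈ O`.  If
`v ∈ T'₂` then `u ∈ T₁ ∩ O`, if `v ∈ I ∩ Z` then `u ∈ Z`.
(4) `P_U ∪ P_{U^c} = (O, I)`.  If both are small then `(O, I)` has size `< 2n/1000`, contradiction to the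
gap hypothesis.  So one of them is not small and by minimality equal to `(O, I)`; if
`P_U = (O, I)` then `O - U ⊆ T'₁` and `I - U ⊆ T'₂`, so `|O - U| + |I - U| < n/1000`; if
`P_{U^c} = (O, I)` then `|O ∩ U| + |I ∩ U| < n/1000`. -/
def S_Min : Prop :=
  ∀ (n : ℕ) (E R : Finset (Fin n × Fin n)) (U : Finset (Fin n)), 1 ≤ n →
    (∀ u v, (u, v) ∈ E → (u, v) ∉ R → ¬ (u ∈ U ↔ v ∈ U) →
      ∃ O I : Finset (Fin n), Clo E R U O I ∧ v ∈ I ∧ u ∉ O) →
    (∀ O I : Finset (Fin n), Clo E R U O I → n ≤ 1000 * (O.card + I.card) →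
      2 * n < 1000 * (O.card + I.card)) →
    ∃ O I : Finset (Fin n), Clo E R U O I ∧ 2 * n < 1000 * (O.card + I.card) ∧
      (1000 * ((O \ U).card + (I \ U).card) < n ∨ 1000 * ((O ∩ U).card + (I ∩ U).card) < n)

/-- (about 120 lines, pure inequality) **The numerical contradiction.**

Proof.  Put `d = ρ - 3/16 ∈ [-1/10000, 1/16 + 1/1000]`, `u' = u + 1/1000`,
`e₀ = 1/20000`.  So `u' ≤ 5/8 - 2d + 3/1000` and `u' - 3/8 ≥ 2d - 1/1000 ≥ - 12/10000`.

Case 1: `x + y ≤ u'`.  The last hypothesis gives `F := xy - (3/8 - ρ) x - ρ y ≥ - e₀`.  With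
`a = x + y ≥ 1/1000` and `D = (x - y)/2`, `|D| ≤ a/2`: `F = a²/4 - 3a/16 - D² + 2dD`.
(1a) `a ≥ 2d`: `F ≤ a²/4 - 3a/16 + d² =: h(a)` (because `-D² + 2dD ≤ d²`); `h` is convex in `a` and
`max(2d, 1/1000) ≤ a ≤ a₁ := 5/8 - 2d + 3/1000`, so `h(a)` is at most the maximum of the values at the
end points: `h(a₁) ≤ -19/1000`; for `2d ≥ 1/1000`, `h(2d) = d (2d - 3/8) ≤ - 12/100000`; for
`2d ≤ 1/1000`, `h(1/1000) ≤ - 18/100000`.  All are `< - e₀`.
(1b) `a < 2d`: `-D² + 2dD` is increasing for `D ≤ a/2 < d`, so it is `≤ -a²/4 + da` and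
`F ≤ - a (3/16 - d) ≤ - (1/1000)(12/100) < - e₀`.

Case 2: `x + y > u'`.  Then `z ≥ x + y - u' > 0` and `xy - z²/2 - (3/8 - ρ) x - ρ y ≤
xy - (x + y - u')²/2 - (3/8 - ρ) x - ρ y = - (x - (u' - 3/8 + ρ))²/2 - (y - (u' - ρ))²/2 + K/2`,
`K = (u' - 3/8)² - 2ρ (3/8 - ρ) = (u' - 3/8)² - 9/128 + 2d²`.  As
`- 12/10000 ≤ u' - 3/8 ≤ 1/4 - 2d + 3/1000` we get
`(u' - 3/8)² ≤ max(2·10⁻⁶, (253/1000 - 2d)²)` and `K ≤ - 6/1000`: for the second term
`(253/1000 - 2d)² - 9/128 + 2d² = - 0.0063... - 1.012 d + 6 d²`, convex in `d`, at most `- 0.006` at both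
ends of `[-1/10000, 1/16 + 1/1000]`.  So the expression is `≤ - 3/1000 < - e₀`, contradiction to the
last hypothesis. -/
def S_InqB : Prop :=
  ∀ ρ u x y z : ℝ, 3 / 16 - 1 / 10000 ≤ ρ → ρ ≤ 1 / 4 + 1 / 1000 → 2 * ρ ≤ u + 1 / 1000 →
    u ≤ 1 - 2 * ρ + 1 / 1000 → 0 ≤ x → 0 ≤ y → 1 / 1000 ≤ x + y → 0 ≤ z →
    x + y - u - 1 / 1000 ≤ z →
    (3 / 8 - ρ) * x + ρ * y ≤ x * y - z ^ 2 / 2 + 1 / 20000 → False

/-- (about 120 lines) **A regular subdigraph with many crossing arcs.**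

Proof (uses `S_Sep`, `S_CloE`, `S_Cap`, `S_Gap`, `S_Min`, `S_InqB`).  Let `R` be an `r`-regular
subdigraph of `E` with `t = e_R(U, U^c)` maximal (finitely many).  Suppose `40000 t < n²`.  The
hypotheses on `U` give `1000 · 4r ≤ 1000 n + 2n`.  `S_Min` applies by `S_Sep` and `S_Gap` and gives a
closed pair `(O, I)`.  `Clo E R U O I ↔ Clo E R U^c O I` and `e_R(U, U^c) = e_R(U^c, U)`, so
we may assume `1000 (|O - U| + |I - U|) < n` (exchange `U` and `U^c`).  Put `ρ = r/n`, `u = |U|/n`,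
`x = |O|/n`, `y = |I|/n`, `z = |O ∩ I|/n` and apply `S_InqB`: `ρ ≥ 3/16 - 1/n ≥ 3/16 - 1/10000`;
`2ρ ≤ u + 1/1000` and `u ≤ 1 - 2ρ + 1/1000` are the hypotheses on `U`; `4ρ ≤ 1 + 2/1000`;
`|O ∩ I| ≥ |O ∩ I ∩ U| ≥ |O ∩ U| + |I ∩ U| - |U| ≥ |O| + |I| - n/1000 - |U|`; and by `S_CloE` and `S_Cap`
`(3n/8 - r)|O| + r|I| ≤ e_E(O, I) + 2t ≤ |O||I| - |O ∩ I|²/2 + n²/20000`. -/
def S_Aug : Prop :=
  ∀ (n r : ℕ) (E : Finset (Fin n × Fin n)) (U : Finset (Fin n)), 100000 ≤ n → Ori E → Semi E →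
    3 * n < 16 * (r + 1) → (∃ R ⊆ E, Reg R r) → 1000 * (2 * r) ≤ 1000 * U.card + n →
    1000 * (2 * r) ≤ 1000 * Uᶜ.card + n →
    ∃ R ⊆ E, Reg R r ∧ n ^ 2 ≤ 40000 * eb R U Uᶜ

/-- the bipartite graph `H` (tails on one side, heads on the other side) has no four-cycle -/
def NoC4 {n : ℕ} (H : Finset (Fin n × Fin n)) : Prop :=
  ∀ a a' b b' : Fin n, a ≠ a' → b ≠ b' → (a, b) ∈ H → (a, b') ∈ H → (a', b) ∈ H → (a', b') ∉ H

/-- (about 100 lines) **Koevari, Sos, Turan for `C₄`.**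

Proof.  Count the triples `(a, a', b)` with `a ≠ a'`, `(a, b), (a', b) ∈ H`: for each ordered pair
`a ≠ a'` there is at most one `b`, so there are at most `n²` of them, and their number is
`∑_b d_b (d_b - 1)`, `d_b = idg H b`, `∑_b d_b = |H|`.  By Cauchy-Schwarz `|H|² ≤ n ∑ d_b² ≤
n (n² + |H|)`.  So `(|H| - n/2)² ≤ n³ + n²/4 ≤ (n √n + n/2)²`. -/
def S_KST : Prop :=
  ∀ (n : ℕ) (H : Finset (Fin n × Fin n)), NoC4 H → (H.card : ℝ) ≤ n * Real.sqrt n + n

/-- the four arcs of a four-cycle with tails `q.1`, `q.2.1` and heads `q.2.2.1`, `q.2.2.2`: first and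
second perfect matching -/
def qa {n : ℕ} (q : Fin n × Fin n × Fin n × Fin n) : Finset (Fin n × Fin n) :=
  {(q.1, q.2.2.1), (q.2.1, q.2.2.2)}

/-- second perfect matching -/
def qb {n : ℕ} (q : Fin n × Fin n × Fin n × Fin n) : Finset (Fin n × Fin n) :=
  {(q.1, q.2.2.2), (q.2.1, q.2.2.1)}

/-- (about 80 lines) **Greedy packing of four-cycles.**

Proof by strong induction on `|H|`: if `H` has no four-cycle take `k = 0`.  Otherwise remove the four
(distinct) arcs of a four-cycle, apply the induction hypothesis and add the four-cycle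
(`Fin.cons` / `Fin.snoc`). -/
def S_Cyc : Prop :=
  ∀ (n : ℕ) (H : Finset (Fin n × Fin n)), ∃ (k : ℕ) (q : Fin k → Fin n × Fin n × Fin n × Fin n)
    (H₀ : Finset (Fin n × Fin n)),
    (∀ i, (q i).1 ≠ (q i).2.1 ∧ (q i).2.2.1 ≠ (q i).2.2.2) ∧
    (∀ i, qa (q i) ∪ qb (q i) ⊆ H) ∧
    (∀ i j, i ≠ j → Disjoint (qa (q i) ∪ qb (q i)) (qa (q j) ∪ qb (q j))) ∧
    (∀ i, Disjoint H₀ (qa (q i) ∪ qb (q i))) ∧
    H = H₀ ∪ univ.biUnion (fun i => qa (q i) ∪ qb (q i)) ∧ NoC4 H₀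

/-- (about 120 lines) **Random signs (union bound over all sets `W`).**

Proof.  For `k = 0` trivial.  Let `L = 4 √(k (n+1))`, `λ = L/(4k)`, so `λL = L²/(4k) = 4(n+1)` and
`2λ²k = L²/(8k) = 2(n+1)`.  Suppose that for every sign vector `s : Fin k → {1, -1}` there is `W` with
`S_s(W) := ∑ s_i c_i(W) < -L`; then `∑_W exp(-λ S_s(W)) ≥ exp(λL)`.  Sum over the `2^k` sign vectors:
`2^k exp(λL) ≤ ∑_W ∑_s ∏_i exp(-λ s_i c_i(W)) = ∑_W ∏_i (exp(λ c_i(W)) + exp(-λ c_i(W)))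
≤ 2^n 2^k exp(2 λ² k)`, because `(e^x + e^{-x})/2 = cosh x ≤ exp(x²/2)`
(`Real.cosh_le_exp_half_sq`) and `|c_i(W)| ≤ 2`.  So `exp(4(n+1)) ≤ 2^n exp(2(n+1))`, i.e.
`exp(2(n+1)) ≤ 2^n`, contradiction. -/
def S_Rand : Prop :=
  ∀ (n k : ℕ) (c : Fin k → Finset (Fin n) → ℝ), (∀ i W, |c i W| ≤ 2) →
    ∃ s : Fin k → Bool, ∀ W, -(4 * Real.sqrt (k * (n + 1))) ≤
      ∑ i, (if s i then c i W else - c i W)

/-- (about 40 lines) **Halving an even bipartite graph.**  Proof (uses `S_Fac`): apply `S_Fac` with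
`f v = od H v / 2`, `g v = idg H v / 2` (exact).  Condition: twice the difference of the two sides is
`2 e_H(X, Y) + e_H(V, Y^c) - e_H(X, V) = 2 e_H(X,Y) + e_H(X^c, Y^c) - e_H(X, Y) ≥ 0`. -/
def S_HalfE : Prop :=
  ∀ (n : ℕ) (H : Finset (Fin n × Fin n)), (∀ v, Even (od H v) ∧ Even (idg H v)) →
    ∃ H₁ ⊆ H, ∀ v, 2 * od H₁ v = od H v ∧ 2 * idg H₁ v = idg H v

/-- (about 200 lines) **Halving with control of all cuts.**

Proof (uses `S_KST`, `S_Cyc`, `S_Rand`, `S_HalfE`).  Decompose `H` by `S_Cyc` into `H₀` and `k` four-cycles;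
`4k ≤ |H| ≤ n²`.  Each four-cycle has even degrees (0 or 2) everywhere, so `H₀` has even degrees;
`S_HalfE` gives `H₀₁ ⊆ H₀`.  For a sign vector `s` let `H₁ = H₀₁ ∪ ⋃ (qa (q i) if s i else qb (q i))`; `qa q`
and `qb q` both have degree exactly half of the four-cycle at every tail and head, so all degrees of
`H₁` are half of those of `H` (disjoint unions).  Put `c i W = e_{qa (q i)}(W, W^c) - e_{qb (q i)}(W, W^c)`,
`|c i W| ≤ 2`.  Then `2 e_{H₁}(W, W^c) ≥ ∑_i [e_{qa}(W,W^c) + e_{qb}(W,W^c)] + ∑_i ± c i W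
≥ e_H(W, W^c) - |H₀| - 4 √(k (n+1))` for the sign vector of `S_Rand`.  Finally
`|H₀| ≤ n√n + n ≤ 2 n √n` and `4 √(k(n+1)) ≤ 2n √(n+1) ≤ 3 n √n` (`n ≥ 1`; `n = 0` is trivial). -/
def S_Half : Prop :=
  ∀ (n : ℕ) (H : Finset (Fin n × Fin n)), (∀ v, Even (od H v) ∧ Even (idg H v)) →
    ∃ H₁ ⊆ H, (∀ v, 2 * od H₁ v = od H v ∧ 2 * idg H₁ v = idg H v) ∧
      ∀ W : Finset (Fin n), (eb H W Wᶜ : ℝ) ≤ 2 * eb H₁ W Wᶜ + 5 * (n * Real.sqrt n)

/-- (about 100 lines) **The average of two regular digraphs.**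

Proof (uses `S_Half`).  `K = R ∩ R'`, `H = (R - R') ∪ (R' - R)`: `od H v = (r - od K v) + (r - od K v)` is
even, likewise `idg`.  Let `H₁` be the half of `H` and `R'' = K ∪ H₁` (disjoint): `od R'' v = od K v +
(r - od K v) = r`.  `e_R + e_{R'} = 2 e_K + e_H ≤ 2 e_K + 2 e_{H₁} + 5 n √n` for the cut `(W, W^c)`. -/
def S_Avg : Prop :=
  ∀ (n r : ℕ) (R R' : Finset (Fin n × Fin n)), Reg R r → Reg R' r →
    ∃ R'' ⊆ R ∪ R', Reg R'' r ∧ ∀ W : Finset (Fin n),
      (eb R W Wᶜ : ℝ) + eb R' W Wᶜ ≤ 2 * eb R'' W Wᶜ + 5 * (n * Real.sqrt n)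

/-- (about 60 lines) **Submodularity of the cut function.**  Proof: every arc `(u, v)` is counted on the
left hand side at most as often as on the right hand side (check the cases `u, v ∈ U, W`). -/
def S_Sub : Prop :=
  ∀ (n : ℕ) (R : Finset (Fin n × Fin n)) (U W : Finset (Fin n)),
    eb R (U ∩ W) (U ∩ W)ᶜ + eb R (U ∪ W) (U ∪ W)ᶜ ≤ eb R U Uᶜ + eb R W Wᶜ

/-- (about 150 lines) **Sparse cuts are close to each other.**

Proof (uses `S_Small`, `S_Sub`).  Put `κ = 1/43200000`.  Let `C₁ = U ∩ W`, `C₂ = U - W`, `C₃ = W - U`,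
`C₄ = (U ∪ W)^c`.  By `S_Sub` for `(U, W)` and for `(U, W^c)` (with `Reg.bal`: the cut of a set and of its
complement have the same size) all four sets `C` satisfy `e(C, C^c) ≤ 2κn²`, and by `S_Small`
`|C| (2r - |C|) ≤ 4κn²`.  As `2r > 3n/8 - 2`, a set with `|C| ≤ 36n/100` has
`|C| · (14/1000) n ≤ 4κn²` (`n ≥ 100000`), so `|C| ≤ 300 κ n < n/100000`.  So each `C_j` is tiny
(`≤ 300κn`) or big (`> 36n/100`); at most two are big.  `U = C₁ ∪ C₂`, `U^c = C₃ ∪ C₄`, `W = C₁ ∪ C₃`,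
`W^c = C₂ ∪ C₄` have at least `36n/100` elements, so each of these four unions contains a big set.
Hence the big ones are exactly `C₁, C₄` or exactly `C₂, C₃`; in the first case
`|C₂| + |C₃| ≤ 600κn`, in the second case `|C₁| + |C₄| ≤ 600κn`.  (`600 κ = 1/72000`.) -/
def S_Near : Prop :=
  ∀ (n r : ℕ) (R : Finset (Fin n × Fin n)) (U W : Finset (Fin n)), 100000 ≤ n → Ori R → Reg R r →
    3 * n < 16 * (r + 1) → 43200000 * eb R U Uᶜ ≤ n ^ 2 → 43200000 * eb R W Wᶜ ≤ n ^ 2 →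
    36 * n ≤ 100 * U.card → 36 * n ≤ 100 * Uᶜ.card → 36 * n ≤ 100 * W.card →
    36 * n ≤ 100 * Wᶜ.card →
    72000 * ((U \ W).card + (W \ U).card) ≤ n ∨ 72000 * ((U ∩ W).card + (U ∪ W)ᶜ.card) ≤ n

/-- (about 60 lines) **Moving few vertices changes a cut only a little.**  Proof.  An arc from `U` to `U^c`
which does not go from `W` to `W^c` has its tail in `U - W` or its head in `W - U`; the number of
these arcs is at most `r |U - W| + r |W - U|`. -/
def S_Lip : Prop :=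
  ∀ (n r : ℕ) (R : Finset (Fin n × Fin n)) (U W : Finset (Fin n)), Reg R r →
    eb R U Uᶜ ≤ eb R W Wᶜ + r * ((U \ W).card + (W \ U).card)

/-- (about 150 lines) **Cut-dense regular subdigraphs.**

Proof (uses `S_Small`, `S_Aug`, `S_Avg`, `S_Near`, `S_Lip`).  `κ = 1/43200000`, `η = κ/8`.  Let `R` be an
`r`-regular subdigraph.  Sets `W` with `|W| < 36n/100` or `|W^c| < 36n/100`: by `S_Small` (applied to the
smaller one, and `Reg.bal`) `2 e(W, W^c) ≥ |W| (2r - |W|) ≥ |W| (14/1000) n` for every `r`-regular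
oriented graph, so `e(W, W^c) ≥ η |W||W^c|`.  Call the other sets middle sets; `|W||W^c| ≤ n²/4`.
If `e_R(W, W^c) > κn²` for all middle sets we are done.  Otherwise there is a middle set `U` with
`e_R(U, U^c) ≤ κn²`.  By `S_Small`, `|U| (2r - |U|) ≤ 2κn²`, so `2r - |U| ≤ 6κn ≤ n/1000`, the same for
`U^c`; `S_Aug` gives an `r`-regular `R'` with `e_{R'}(U, U^c) ≥ n²/40000`.  Let `R''` be the average of
`R` and `R'` (`S_Avg`).  Let `W` be a middle set.  If `e_R(W, W^c) ≥ κn²` then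
`2 e_{R''}(W, W^c) ≥ κn² - 5n√n ≥ κn²/2` (`n` large: `√n ≥ 10/κ`).  Otherwise `S_Near` applies: `W` or
`W^c` differs from `U` in at most `n/72000` vertices and by `S_Lip` (and `Reg.bal`),
`e_{R'}(W, W^c) ≥ n²/40000 - r n/72000 ≥ n²/40000 - n²/144000 ≥ n²/60000` (`2r ≤ n`), so
`2 e_{R''}(W, W^c) ≥ n²/60000 - 5n√n ≥ κn²/2`.  In all cases `e_{R''}(W, W^c) ≥ κn²/4 ≥ η|W||W^c|`. -/
def S_CutD : Prop :=
  ∃ η : ℝ, 0 < η ∧ ∃ N : ℕ, ∀ n : ℕ, N ≤ n → ∀ E : Finset (Fin n × Fin n), Ori E → Semi E →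
    ∀ r : ℕ, 3 * n < 16 * (r + 1) → (∃ R ⊆ E, Reg R r) →
      ∃ R ⊆ E, Reg R r ∧ ∀ W : Finset (Fin n), η * W.card * Wᶜ.card ≤ eb R W Wᶜ

/-- (about 60 lines) **The subdigraph is `r`-arc-connected.**

Proof (uses `S_Small`).  Let `R` be regular of degree `r` with the property of `S_CutD`, `n` large,
`w = |W| ≥ 1`, `|W^c| ≥ 1`; by `Reg.bal` we may assume `|W| ≤ n/2`.  If `w ≤ 2r`, `S_Small` gives
`2 e(W, W^c) ≥ w (2r + 1 - w) ≥ 2r` (concave in `w`, value `2r` at `w = 1` and at `w = 2r`).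
If `w > 2r ≥ 3n/8 - 2 ≥ n/4`, then `e(W, W^c) ≥ η (n/4)(n/2) ≥ n ≥ r` for `n ≥ 8/η`. -/
def S_Arc : Prop :=
  ∀ η : ℝ, 0 < η → ∃ N : ℕ, ∀ (n r : ℕ) (R : Finset (Fin n × Fin n)), N ≤ n → Ori R → Reg R r →
    3 * n < 16 * (r + 1) → (∀ W : Finset (Fin n), η * W.card * Wᶜ.card ≤ eb R W Wᶜ) →
    ∀ W : Finset (Fin n), W.Nonempty → Wᶜ.Nonempty → r ≤ eb R W Wᶜ

end Pool.Agent.MPd266db
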