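import Pool.Agent.Lib.MP_d266db_co.Spec

/-!
# MP_d266db_co: degree constrained subgraphs (Ore, Ryser) from Hall's theorem
-/

set_option autoImplicit false

namespace Pool.Agent.MPd266db

open Finset

section fac

variable {n : ℕ}

theorem fac_sub (H : Finset (Fin n × Fin n)) (p : Fin n × Fin n → Prop) [DecidablePred p] :
    (H.filter p).card = (univ.filter (fun e : {e // e ∈ H} => p e.1)).card := by
  rw [← Finset.card_map (Function.Embedding.subtype _)]
  congr 1
  ext e
  rw [mem_filter, mem_map]
  constructor
  · rintro ⟨h1, h2⟩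
    exact ⟨⟨e, h1⟩, mem_filter.mpr ⟨mem_univ _, h2⟩, rfl⟩
  · rintro ⟨a, ha, rfl⟩
    exact ⟨a.2, (mem_filter.mp ha).2⟩

/-- the elements available for an arc `(a, b)` -/
def fac_t (F G : Fin n → ℕ) (X Z : Finset (Fin n)) :
    Finset ((Σ _ : Fin n, ℕ) ⊕ (Σ _ : Fin n, ℕ)) :=
  (X.sigma fun a => range (F a)).disjSum (Z.sigma fun b => range (G b))

theorem fac_card (F G : Fin n → ℕ) (X Z : Finset (Fin n)) :
    (fac_t F G X Z).card = ∑ a ∈ X, F a + ∑ b ∈ Z, G b := by
  rw [fac_t, card_disjSum, card_sigma, card_sigma]
  simp only [card_range]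

theorem fac_inl (F G : Fin n → ℕ) (X Z : Finset (Fin n)) (y : Σ _ : Fin n, ℕ) :
    Sum.inl y ∈ fac_t F G X Z ↔ y.1 ∈ X ∧ y.2 < F y.1 := by
  rw [fac_t, inl_mem_disjSum, mem_sigma, mem_range]

theorem fac_inr (F G : Fin n → ℕ) (X Z : Finset (Fin n)) (y : Σ _ : Fin n, ℕ) :
    Sum.inr y ∈ fac_t F G X Z ↔ y.1 ∈ Z ∧ y.2 < G y.1 := by
  rw [fac_t, inr_mem_disjSum, mem_sigma, mem_range]

end fac

theorem tFac : S_Fac := by
  classical
  intro n H f g hfg hcut
  have hfod : ∀ a, f a ≤ od H a := by
    intro a
    have h := hcut {a} univ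
    rw [eb_univ_right, sum_singleton, sum_singleton, compl_univ, sum_empty] at h
    simpa using h
  obtain ⟨F, hF⟩ : ∃ F : Fin n → ℕ, ∀ a, F a = od H a - f a := ⟨_, fun _ => rfl⟩
  have hFsum : ∀ X : Finset (Fin n), ∑ a ∈ X, F a + ∑ a ∈ X, f a = ∑ a ∈ X, od H a := by
    intro X
    rw [← sum_add_distrib]
    refine sum_congr rfl fun a _ => ?_
    have := hfod a
    rw [hF]
    omega
  obtain ⟨t, ht⟩ : ∃ t : {e // e ∈ H} → Finset ((Σ _ : Fin n, ℕ) ⊕ (Σ _ : Fin n, ℕ)),
    ∀ e, t e = fac_t F g {e.1.1} {e.1.2} := ⟨_, fun _ => rfl⟩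
  have hhall : ∀ A : Finset {e // e ∈ H}, A.card ≤ (A.biUnion t).card := by
    intro A
    obtain ⟨X, hX⟩ : ∃ X : Finset (Fin n), X = A.image (fun e => e.1.1) := ⟨_, rfl⟩
    obtain ⟨Z, hZ⟩ : ∃ Z : Finset (Fin n), Z = A.image (fun e => e.1.2) := ⟨_, rfl⟩
    have h1 : A.card ≤ eb H X Z := by
      unfold eb
      rw [← Finset.card_map (Function.Embedding.subtype _)]
      apply card_le_card
      intro e he
      rw [mem_map] at he
      obtain ⟨a, ha, rfl⟩ := he
      rw [mem_filter]
      refine ⟨a.2, ?_, ?_⟩
      · rw [hX]; exact mem_image_of_mem (fun e : {e // e ∈ H} => e.1.1) ha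
      · rw [hZ]; exact mem_image_of_mem (fun e : {e // e ∈ H} => e.1.2) ha
    have h2 : (fac_t F g X Z).card ≤ (A.biUnion t).card := by
      apply card_le_card
      rintro (y | y) hy
      · rw [fac_inl, hX, mem_image] at hy
        obtain ⟨⟨e, he, hey⟩, hy2⟩ := hy
        rw [mem_biUnion]
        refine ⟨e, he, ?_⟩
        rw [ht, fac_inl]
        exact ⟨by rw [mem_singleton]; exact hey.symm, hy2⟩
      · rw [fac_inr, hZ, mem_image] at hy
        obtain ⟨⟨e, he, hey⟩, hy2⟩ := hy
        rw [mem_biUnion]
        refine ⟨e, he, ?_⟩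
        rw [ht, fac_inr]
        exact ⟨by rw [mem_singleton]; exact hey.symm, hy2⟩
    rw [fac_card] at h2
    have h3 := eb_compl_right H X Z
    have h4 := hcut X Zᶜ
    rw [compl_compl] at h4
    have h5 := hFsum X
    omega
  obtain ⟨c, hcinj, hct⟩ := (Finset.all_card_le_biUnion_card_iff_exists_injective t).mp hhall
  -- the image of `c`
  have hHcard : (univ : Finset {e // e ∈ H}).card = ∑ a, od H a := by
    rw [← eb_univ_right]
    unfold eb
    simp
  have himg : (univ : Finset {e // e ∈ H}).image c = fac_t F g univ univ := by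
    apply eq_of_subset_of_card_le
    · intro x hx
      rw [mem_image] at hx
      obtain ⟨e, _, rfl⟩ := hx
      have h := hct e
      rw [ht] at h
      rcases hce : c e with y | y
      · rw [hce, fac_inl] at h
        rw [fac_inl]
        exact ⟨mem_univ _, h.2⟩
      · rw [hce, fac_inr] at h
        rw [fac_inr]
        exact ⟨mem_univ _, h.2⟩
    · rw [card_image_of_injective _ hcinj, hHcard, fac_card, ← hfg]
      have := hFsum univ
      omega
  -- the arcs with tail `v` sent to the left
  have hleft : ∀ v, (univ.filter (fun e : {e // e ∈ H} => e.1.1 = v ∧ (c e).isLeft = true)).card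
      = F v := by
    intro v
    rw [← card_image_of_injective _ hcinj]
    have h0 : (fac_t F g {v} ∅).card = F v := by
      rw [fac_card]; simp
    rw [← h0]
    congr 1
    ext x
    rw [mem_image]
    constructor
    · rintro ⟨e, he, rfl⟩
      rw [mem_filter] at he
      have h := hct e
      rw [ht] at h
      rcases hce : c e with y | y
      · rw [hce, fac_inl] at h
        rw [fac_inl]
        rw [he.2.1] at h
        exact h
      · rw [hce] at he
        exact absurd he.2.2 (by simp)
    · intro hx
      rcases x with y | y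
      · rw [fac_inl] at hx
        have h1 : Sum.inl y ∈ (univ : Finset {e // e ∈ H}).image c := by
          rw [himg, fac_inl]
          exact ⟨mem_univ _, hx.2⟩
        rw [mem_image] at h1
        obtain ⟨e, _, he⟩ := h1
        refine ⟨e, ?_, he⟩
        have h := hct e
        rw [ht, he, fac_inl, mem_singleton] at h
        rw [mem_filter, he]
        exact ⟨mem_univ _, h.1.symm.trans (mem_singleton.mp hx.1), rfl⟩
      · rw [fac_inr] at hx
        exact absurd hx.1 (notMem_empty _)
  have hright : ∀ v, (univ.filter (fun e : {e // e ∈ H} => e.1.2 = v ∧ (c e).isRight = true)).card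
      = g v := by
    intro v
    rw [← card_image_of_injective _ hcinj]
    have h0 : (fac_t F g ∅ {v}).card = g v := by
      rw [fac_card]; simp
    rw [← h0]
    congr 1
    ext x
    rw [mem_image]
    constructor
    · rintro ⟨e, he, rfl⟩
      rw [mem_filter] at he
      have h := hct e
      rw [ht] at h
      rcases hce : c e with y | y
      · rw [hce] at he
        exact absurd he.2.2 (by simp)
      · rw [hce, fac_inr] at h
        rw [fac_inr]
        rw [he.2.1] at h
        exact h
    · intro hx
      rcases x with y | y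
      · rw [fac_inl] at hx
        exact absurd hx.1 (notMem_empty _)
      · rw [fac_inr] at hx
        have h1 : Sum.inr y ∈ (univ : Finset {e // e ∈ H}).image c := by
          rw [himg, fac_inr]
          exact ⟨mem_univ _, hx.2⟩
        rw [mem_image] at h1
        obtain ⟨e, _, he⟩ := h1
        refine ⟨e, ?_, he⟩
        have h := hct e
        rw [ht, he, fac_inr, mem_singleton] at h
        rw [mem_filter, he]
        exact ⟨mem_univ _, h.1.symm.trans (mem_singleton.mp hx.1), rfl⟩
  refine ⟨(univ.filter (fun e : {e // e ∈ H} => (c e).isRight = true)).map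
    (Function.Embedding.subtype _), ?_, ?_⟩
  · intro e he
    rw [mem_map] at he
    obtain ⟨a, _, rfl⟩ := he
    exact a.2
  · intro v
    constructor
    · have h1 : od H v = (univ.filter (fun e : {e // e ∈ H} => e.1.1 = v)).card := fac_sub H _
      have h2 := Finset.card_filter_add_card_filter_not
        (s := univ.filter (fun e : {e // e ∈ H} => e.1.1 = v)) (fun e => (c e).isLeft = true)
      rw [filter_filter, filter_filter, hleft, ← h1, hF] at h2
      unfold od
      rw [filter_map, card_map, filter_filter]
      have h3 : (univ.filter (fun e : {e // e ∈ H} => (c e).isRight = true ∧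
          ((fun e : Fin n × Fin n => e.1 = v) ∘ (Function.Embedding.subtype _)) e)) =
          univ.filter (fun e : {e // e ∈ H} => e.1.1 = v ∧ ¬ (c e).isLeft = true) := by
        ext e
        simp only [mem_filter, mem_univ, true_and, Function.comp,
          Function.Embedding.subtype_apply]
        rcases c e with y | y <;> simp
      rw [h3]
      have := hfod v
      unfold od at this h2
      omega
    · unfold idg
      rw [filter_map, card_map, filter_filter, ← hright v]
      congr 1
      ext e
      simp only [mem_filter, mem_univ, true_and, Function.comp,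
        Function.Embedding.subtype_apply]
      tauto

end Pool.Agent.MPd266db
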