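import Pool.Agent.Lib.MP_d266db_co.Spec

/-!
# MP_d266db_co, HalfE: halving an even bipartite graph
-/

set_option autoImplicit false

namespace Pool.Agent.MPd266db

open Finset

private theorem halfe_sum {n : ℕ} (X : Finset (Fin n)) (a : Fin n → ℕ) (ha : ∀ v, Even (a v)) :
    2 * ∑ v ∈ X, a v / 2 = ∑ v ∈ X, a v := by
  rw [Finset.mul_sum]
  exact Finset.sum_congr rfl fun v _ => Nat.two_mul_div_two_of_even (ha v)

theorem tHalfE (hFac : S_Fac) : S_HalfE := by
  intro n H hE
  have hod : ∀ v, Even (od H v) := fun v => (hE v).1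
  have hid : ∀ v, Even (idg H v) := fun v => (hE v).2
  have h1 : ∀ X, 2 * ∑ v ∈ X, od H v / 2 = ∑ v ∈ X, od H v := fun X => halfe_sum X _ hod
  have h2 : ∀ X, 2 * ∑ v ∈ X, idg H v / 2 = ∑ v ∈ X, idg H v := fun X => halfe_sum X _ hid
  obtain ⟨H₁, hH₁, hdeg⟩ := hFac n H (fun v => od H v / 2) (fun v => idg H v / 2)
    (by
      have e1 := h1 univ
      have e2 := h2 univ
      have e3 := eb_univ_right H univ
      have e4 := eb_univ_left H univ
      omega)
    (by
      intro X Y
      have e1 := h1 X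
      have e2 := h2 Yᶜ
      have e3 := eb_compl_right H X Y
      have e4 := eb_compl_left H X Yᶜ
      omega)
  refine ⟨H₁, hH₁, fun v => ?_⟩
  obtain ⟨g1, g2⟩ := hdeg v
  rw [g1, g2]
  exact ⟨Nat.two_mul_div_two_of_even (hod v), Nat.two_mul_div_two_of_even (hid v)⟩

end Pool.Agent.MPd266db
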