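import Pool.Agent.Lib.MP_d266db_co.Spec

/-!
# MP_d266db_co: the quadratic inequality of part A
-/

namespace Pool.Agent.MPd266db

private lemma inqa_V (N p s : ℝ) :
    0 ≤ N ^ 2 - 7 * s * N - 4 * (p - s) * N + 14 * s ^ 2 + 12 * s * (p - s) + 6 * (p - s) ^ 2 := by
  have h : N ^ 2 - 7 * s * N - 4 * (p - s) * N + 14 * s ^ 2 + 12 * s * (p - s) + 6 * (p - s) ^ 2 =
      6 * (p - s + s - N / 3) ^ 2 + 8 * (s - 3 * N / 16) ^ 2 + 5 / 96 * N ^ 2 := by ring
  rw [h]
  positivity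

/-- case 1 -/
private lemma inqa_one (N p q r s : ℝ) (hr : r ≤ q) (hs : 0 ≤ s) (hN : p + q + r + s = N)
    (ht : (q - r) / 2 ≤ s / 2) :
    3 * N / 16 * (p - s) ≤ r * (3 * N / 8 - s - r / 2) + p * (p - N / 4) / 2 := by
  obtain ⟨t, htd⟩ : ∃ t : ℝ, t = (q - r) / 2 := ⟨_, rfl⟩
  rw [← htd] at ht
  have ht0 : 0 ≤ t := by rw [htd]; linarith
  have hq : q = (N - p - s) / 2 + t := by rw [htd]; linarith
  have hr' : r = (N - p - s) / 2 - t := by rw [htd]; linarith
  have h16 : 16 * (r * (3 * N / 8 - s - r / 2) + p * (p - N / 4) / 2 - 3 * N / 16 * (p - s)) =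
      (N - 2 * (p + s)) ^ 2 + 2 * (p - s) ^ 2 + 2 * N * t - 8 * (p - s) * t - 8 * t ^ 2 := by
    rw [hr']
    ring
  have hV := inqa_V N p s
  by_cases hs0 : s = 0
  · have ht1 : t = 0 := by linarith
    rw [ht1] at h16
    have h2 : 0 ≤ (N - 2 * (p + s)) ^ 2 + 2 * (p - s) ^ 2 := by positivity
    nlinarith
  · have hs1 : 0 < s := lt_of_le_of_ne hs (Ne.symm hs0)
    have hid : s * (16 * (r * (3 * N / 8 - s - r / 2) + p * (p - N / 4) / 2 -
        3 * N / 16 * (p - s))) = (s - 2 * t) * ((N - 2 * (p + s)) ^ 2 + 2 * (p - s) ^ 2) +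
        2 * t * (N ^ 2 - 7 * s * N - 4 * (p - s) * N + 14 * s ^ 2 + 12 * s * (p - s) +
          6 * (p - s) ^ 2) + 8 * s * t * (s / 2 - t) := by
      rw [h16]
      ring
    have h3 : 0 ≤ s * (16 * (r * (3 * N / 8 - s - r / 2) + p * (p - N / 4) / 2 -
        3 * N / 16 * (p - s))) := by
      rw [hid]
      have a1 : 0 ≤ (s - 2 * t) * ((N - 2 * (p + s)) ^ 2 + 2 * (p - s) ^ 2) :=
        mul_nonneg (by linarith) (by positivity)
      have a2 := mul_nonneg (mul_nonneg (by norm_num : (0 : ℝ) ≤ 2) ht0) hV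
      have a3 : 0 ≤ 8 * s * t * (s / 2 - t) := mul_nonneg (by positivity) (by linarith)
      linarith
    have h4 := nonneg_of_mul_nonneg_right h3 hs1
    linarith

/-- case 2 -/
private lemma inqa_two (N p q r s : ℝ) (hr0 : 0 ≤ r) (hN : p + q + r + s = N)
    (ht : s / 2 < (q - r) / 2) (hps : p * s ≤ 3 * N / 16 * (p + s)) :
    3 * N / 16 * (p - s) ≤ r * (3 * N / 8 - s - r / 2) + p * (3 * N / 8 - r - s) := by
  obtain ⟨t, htd⟩ : ∃ t : ℝ, t = (q - r) / 2 := ⟨_, rfl⟩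
  rw [← htd] at ht
  have hr' : r = (N - p - s) / 2 - t := by rw [htd]; linarith
  have htm : t ≤ (N - p - s) / 2 := by rw [htd]; linarith
  have hV := inqa_V N p s
  have hid : ((N - p - s) / 2 - s / 2) * (16 * (r * (3 * N / 8 - s - r / 2) +
      p * (3 * N / 8 - r - s) - 3 * N / 16 * (p - s))) =
      ((N - p - s) / 2 - t) * (N ^ 2 - 7 * s * N - 4 * (p - s) * N + 14 * s ^ 2 +
        12 * s * (p - s) + 6 * (p - s) ^ 2) +
      (t - s / 2) * (16 * (3 * N / 16 * (p + s) - p * s)) +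
      8 * (t - s / 2) * ((N - p - s) / 2 - t) * ((N - p - s) / 2 - s / 2) := by
    rw [hr']
    ring
  have h3 : 0 ≤ ((N - p - s) / 2 - s / 2) * (16 * (r * (3 * N / 8 - s - r / 2) +
      p * (3 * N / 8 - r - s) - 3 * N / 16 * (p - s))) := by
    rw [hid]
    have a1 : 0 ≤ ((N - p - s) / 2 - t) * (N ^ 2 - 7 * s * N - 4 * (p - s) * N + 14 * s ^ 2 +
        12 * s * (p - s) + 6 * (p - s) ^ 2) := mul_nonneg (by linarith) hV
    have a2 : 0 ≤ (t - s / 2) * (16 * (3 * N / 16 * (p + s) - p * s)) :=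
      mul_nonneg (by linarith) (by linarith)
    have a3 : 0 ≤ 8 * (t - s / 2) * ((N - p - s) / 2 - t) * ((N - p - s) / 2 - s / 2) :=
      mul_nonneg (mul_nonneg (by linarith) (by linarith)) (by linarith)
    linarith
  have h4 := nonneg_of_mul_nonneg_right h3 (by linarith)
  linarith

/-- case 3 -/
private lemma inqa_three (N p q r s : ℝ) (hp : 0 ≤ p) (hq0 : 0 ≤ q) (hr0 : 0 ≤ r) (hs : 0 ≤ s)
    (hN : p + q + r + s = N) (hps : 3 * N / 16 * (p + s) < p * s) :
    3 * N / 16 * (p - s) ≤ p * (p - N / 4) / 2 := by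
  have hN0 : 0 ≤ N := by linarith
  have hs1 : 0 < s := by
    rcases hs.eq_or_lt with h | h
    · rw [← h] at hps
      have : 0 ≤ 3 * N / 16 * (p + 0) := mul_nonneg (by linarith) (by linarith)
      linarith
    · exact h
  have h1 : 3 * N * p < s * (16 * p - 3 * N) := by nlinarith
  have h2 : 0 < 16 * p - 3 * N := by
    have h3 : 0 < s * (16 * p - 3 * N) := lt_of_le_of_lt (by positivity) h1
    exact (pos_iff_pos_of_mul_pos h3).1 hs1
  have hid : (16 * p - 3 * N) * (16 * (p * (p - N / 4) / 2 - 3 * N / 16 * (p - s))) =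
      8 * p * (16 * (p - 13 * N / 32) ^ 2 + 23 / 64 * N ^ 2) +
      3 * N * (s * (16 * p - 3 * N) - 3 * N * p) := by ring
  have h3 : 0 ≤ (16 * p - 3 * N) * (16 * (p * (p - N / 4) / 2 - 3 * N / 16 * (p - s))) := by
    rw [hid]
    have a1 : 0 ≤ 8 * p * (16 * (p - 13 * N / 32) ^ 2 + 23 / 64 * N ^ 2) := by positivity
    have a2 : 0 ≤ 3 * N * (s * (16 * p - 3 * N) - 3 * N * p) :=
      mul_nonneg (by linarith) (by linarith)
    linarith
  have h4 := nonneg_of_mul_nonneg_right h3 h2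
  linarith

theorem tInqA : S_InqA := by
  intro N p q r s e hp hq hr hs hN _ hrq h1 h2 h3
  by_cases hps : p * s ≤ 3 * N / 16 * (p + s)
  · by_cases ht : (q - r) / 2 ≤ s / 2
    · exact (inqa_one N p q r s hrq hs hN ht).trans h1
    · exact (inqa_two N p q r s hr hN (not_le.1 ht) hps).trans h2
  · exact (inqa_three N p q r s hp hq hr hs hN (not_le.1 hps)).trans h3

end Pool.Agent.MPd266db
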