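import Pool.Agent.Lib.MP_d266db_co.Spec

/-!
# MP_d266db_co, module `InqB`: the numerical contradiction
-/

set_option autoImplicit false

namespace Pool.Agent.MPd266db

theorem inqb_one (d a D : ℝ) (hd1 : -(1 / 10000) ≤ d) (hd2 : d ≤ 635 / 10000)
    (ha1 : 1 / 1000 ≤ a) (ha2 : a ≤ 627 / 1000 - 2 * d) (hDa : D ≤ a / 2)
    (key : -(1 / 20000) ≤ a ^ 2 / 4 - 3 * a / 16 - D ^ 2 + 2 * d * D) : False := by
  rcases le_or_gt (2 * d) a with h5 | h5
  · have k0 := sq_nonneg (D - d)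
    have k1 : -(1 / 20000) ≤ a ^ 2 / 4 - 3 * a / 16 + d ^ 2 := by linarith only [k0, key]
    rcases le_or_gt (1 / 1000) (2 * d) with h6 | h6
    · have k2 : 0 ≤ (a - 2 * d) * (627 / 1000 - 2 * d - a) :=
        mul_nonneg (sub_nonneg.2 h5) (sub_nonneg.2 ha2)
      have k3 : 0 ≤ d * (635 / 10000 - d) :=
        mul_nonneg (by linarith only [h6]) (sub_nonneg.2 hd2)
      linarith only [k1, k2, k3, h6, ha1]
    · have k2 : 0 ≤ (a - 1 / 1000) * (627 / 1000 - 2 * d - a) :=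
        mul_nonneg (sub_nonneg.2 ha1) (sub_nonneg.2 ha2)
      have k3 : d ^ 2 ≤ (1 / 2000) ^ 2 :=
        sq_le_sq' (by linarith only [hd1]) (by linarith only [h6])
      have k4 : -(1 / 10000) * a ≤ d * a := mul_le_mul_of_nonneg_right hd1 (by linarith only [ha1])
      linarith only [k1, k2, k3, k4, h6, hd1, ha1]
  · have k2 : 0 ≤ (a / 2 - D) * (2 * d - a / 2 - D) :=
      mul_nonneg (sub_nonneg.2 hDa) (by linarith only [hDa, h5])
    have k3 : 1 / 1000 * (3 / 16 - d) ≤ a * (3 / 16 - d) :=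
      mul_le_mul_of_nonneg_right ha1 (by linarith only [hd2])
    linarith only [key, k2, k3, hd2]

theorem inqb_two (d v x y z : ℝ) (hd1 : -(1 / 10000) ≤ d) (hd2 : d ≤ 635 / 10000)
    (hv1 : 3 / 8 + 2 * d ≤ v) (hv2 : v ≤ 627 / 1000 - 2 * d)
    (hz3 : (x + y - v) ^ 2 ≤ z ^ 2)
    (hF : (3 / 16 - d) * x + (3 / 16 + d) * y ≤ x * y - z ^ 2 / 2 + 1 / 20000) : False := by
  have k1 : 0 ≤ (v - 3 / 8 - 2 * d) * (252 / 1000 - 2 * d - (v - 3 / 8)) :=
    mul_nonneg (by linarith only [hv1]) (by linarith only [hv2])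
  have k3 : 0 ≤ (d + 1 / 10000) * (635 / 10000 - d) :=
    mul_nonneg (by linarith only [hd1]) (sub_nonneg.2 hd2)
  have k4 : (v - 3 / 8) ^ 2 - 9 / 128 + 2 * d ^ 2 ≤ -(6 / 1000) := by
    linarith only [k1, k3, hv1, hv2, hd1, hd2]
  have k5 := sq_nonneg (x - (v - 3 / 16 + d))
  have k6 := sq_nonneg (y - (v - 3 / 16 - d))
  linarith only [k4, k5, k6, hz3, hF]

/-- **The numerical contradiction.** -/
theorem tInqB : S_InqB := by
  intro ρ u x y z h1 h2 h3 h4 hx hy hxy hz hz2 hF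
  obtain ⟨d, rfl⟩ : ∃ d, ρ = 3 / 16 + d := ⟨ρ - 3 / 16, by ring⟩
  have hd1 : -(1 / 10000) ≤ d := by linarith only [h1]
  have hd2 : d ≤ 635 / 10000 := by linarith only [h2]
  have hv1 : 3 / 8 + 2 * d ≤ u + 1 / 1000 := by linarith only [h3]
  have hv2 : u + 1 / 1000 ≤ 627 / 1000 - 2 * d := by linarith only [h4]
  rcases le_or_gt (x + y) (u + 1 / 1000) with hc | hc
  · have h0 := sq_nonneg z
    exact inqb_one d (x + y) ((x - y) / 2) hd1 hd2 hxy (hc.trans hv2)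
      (by linarith only [hy]) (by linarith only [hF, h0])
  · exact inqb_two d (u + 1 / 1000) x y z hd1 hd2 hv1 hv2
      (pow_le_pow_left₀ (by linarith only [hc]) (by linarith only [hz2]) 2)
      (by linarith only [hF])

end Pool.Agent.MPd266db
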