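import Pool.Agent.Lib.MP_d266db_co.Spec

/-!
# MP_d266db_co: Koevari, Sos, Turan for the four-cycle (`S_KST`)
-/

set_option autoImplicit false

namespace Pool.Agent.MPd266db

open Finset

/-- pairs of arcs with the same head -/
def kstT {n : ℕ} (H : Finset (Fin n × Fin n)) : Finset ((Fin n × Fin n) × (Fin n × Fin n)) :=
  (H ×ˢ H).filter (fun p => p.1.2 = p.2.2)

theorem kst_card_eq {n : ℕ} (H : Finset (Fin n × Fin n)) :
    (kstT H).card = ∑ b, idg H b ^ 2 := by
  classical
  rw [card_eq_sum_card_fiberwise (f := fun p => p.1.2) (t := univ) (fun _ _ => mem_univ _)]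
  refine sum_congr rfl fun b _ => ?_
  have h : (kstT H).filter (fun p => p.1.2 = b) =
      (H.filter (fun e => e.2 = b)) ×ˢ (H.filter (fun e => e.2 = b)) := by
    ext p
    simp only [kstT, mem_filter, mem_product]
    constructor
    · rintro ⟨⟨⟨h1, h2⟩, h3⟩, h4⟩
      exact ⟨⟨h1, h4⟩, h2, by rw [← h3, h4]⟩
    · rintro ⟨⟨h1, h2⟩, h3, h4⟩
      exact ⟨⟨⟨h1, h3⟩, by rw [h2, h4]⟩, h2⟩
  rw [h, card_product, pow_two]
  rfl

theorem kst_card_le {n : ℕ} (H : Finset (Fin n × Fin n)) (hH : NoC4 H) :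
    (kstT H).card ≤ n * n + H.card := by
  classical
  rw [← card_filter_add_card_filter_not (s := kstT H) (fun p => p.1 = p.2), add_comm]
  refine add_le_add ?_ ?_
  · have h : (univ : Finset (Fin n × Fin n)).card = n * n := by simp
    rw [← h]
    refine card_le_card_of_injOn (fun p => (p.1.1, p.2.1)) (fun _ _ => mem_univ _) ?_
    intro p hp p' hp' heq
    obtain ⟨⟨a, b⟩, ⟨a', b₁⟩⟩ := p
    obtain ⟨⟨c, d⟩, ⟨c', d₁⟩⟩ := p'
    simp only [kstT, coe_filter, mem_filter, mem_product, Set.mem_ofPred_eq] at hp hp'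
    simp only [Prod.mk.injEq] at heq
    obtain ⟨⟨⟨h1, h2⟩, h3⟩, h4⟩ := hp
    obtain ⟨⟨⟨h1', h2'⟩, h3'⟩, h4'⟩ := hp'
    obtain ⟨e1, e2⟩ := heq
    subst h3 h3' e1 e2
    by_cases hb : b = d
    · rw [hb]
    · exfalso
      have ha : a ≠ a' := by
        rintro rfl
        exact h4 rfl
      exact hH a a' b d ha hb h1 h1' h2 h2'
  · refine card_le_card_of_injOn (fun p => p.1) ?_ ?_
    · intro p hp
      simp only [kstT, coe_filter, mem_filter, mem_product, Set.mem_ofPred_eq] at hp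
      exact hp.1.1.1
    · intro p hp p' hp' heq
      simp only [coe_filter, Set.mem_ofPred_eq] at hp hp'
      simp only at heq
      exact Prod.ext heq (by rw [← hp.2, ← hp'.2]; exact heq)

/-- **KST.** -/
theorem tKST : S_KST := by
  intro n H hH
  have h1 := kst_card_eq H
  have h2 := kst_card_le H hH
  have h3 : ∑ b, idg H b = H.card := by
    rw [← eb_univ_left]
    unfold eb
    congr 1
    ext e
    simp
  have h4 : ((H.card : ℕ) : ℝ) ^ 2 ≤ n * (n * n + H.card) := by
    have h5 := sq_sum_le_card_mul_sum_sq (s := (univ : Finset (Fin n)))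
      (f := fun b => (idg H b : ℝ))
    have h6 : ∑ b, (idg H b : ℝ) = H.card := by exact_mod_cast h3
    have h7 : ∑ b, (idg H b : ℝ) ^ 2 ≤ n * n + H.card := by
      have : ∑ b, idg H b ^ 2 ≤ n * n + H.card := h1 ▸ h2
      exact_mod_cast this
    rw [h6, card_univ, Fintype.card_fin] at h5
    exact h5.trans (mul_le_mul_of_nonneg_left h7 (Nat.cast_nonneg _))
  set h : ℝ := (H.card : ℝ) with hh
  have hn : (0 : ℝ) ≤ n := Nat.cast_nonneg _
  have hs : 0 ≤ Real.sqrt n := Real.sqrt_nonneg _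
  have hss : Real.sqrt n * Real.sqrt n = n := Real.mul_self_sqrt hn
  by_contra hcon
  rw [not_le] at hcon
  have hns : 0 ≤ (n : ℝ) * Real.sqrt n := mul_nonneg hn hs
  have k1 : (n : ℝ) * Real.sqrt n < h := by linarith
  have k2 : (n : ℝ) * Real.sqrt n < h - n := by linarith
  have k3 := mul_lt_mul'' k1 k2 hns hns
  have k4 : (n : ℝ) * Real.sqrt n * (n * Real.sqrt n) = n * (n * n) := by
    calc (n : ℝ) * Real.sqrt n * (n * Real.sqrt n) = n * n * (Real.sqrt n * Real.sqrt n) := by ring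
      _ = n * (n * n) := by rw [hss]; ring
  rw [k4] at k3
  have k5 : h * (h - n) = h ^ 2 - n * h := by ring
  have k6 : (n : ℝ) * (n * n + h) = n * (n * n) + n * h := by ring
  rw [k6] at h4
  linarith

end Pool.Agent.MPd266db
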