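import Pool.Agent.Lib.MP_d266db_co.Spec

/-!
# MP_d266db_co: moving few vertices changes a cut only a little (`S_Lip`)
-/

set_option autoImplicit false

namespace Pool.Agent.MPd266db

open Finset

/-- **Lip.** -/
theorem tLip : S_Lip := by
  classical
  intro n r R U W hR
  have h1 : R.filter (fun e => e.1 ∈ U ∧ e.2 ∈ Uᶜ) ⊆
      (R.filter (fun e => e.1 ∈ W ∧ e.2 ∈ Wᶜ)) ∪
        ((R.filter (fun e => e.1 ∈ U \ W ∧ e.2 ∈ univ)) ∪
          (R.filter (fun e => e.1 ∈ univ ∧ e.2 ∈ W \ U))) := by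
    intro e he
    simp only [mem_union, mem_filter, mem_compl, mem_sdiff, mem_univ, and_true, true_and] at he ⊢
    tauto
  have h2 := (card_le_card h1).trans (card_union_le _ _)
  have h3 := card_union_le (R.filter (fun e => e.1 ∈ U \ W ∧ e.2 ∈ univ))
    (R.filter (fun e => e.1 ∈ univ ∧ e.2 ∈ W \ U))
  have h4 : (R.filter (fun e => e.1 ∈ U \ W ∧ e.2 ∈ univ)).card = r * (U \ W).card := by
    have := eb_univ_right R (U \ W)
    unfold eb at this
    rw [this, sum_congr rfl (fun v _ => (hR v).1), sum_const, smul_eq_mul, mul_comm]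
  have h5 : (R.filter (fun e => e.1 ∈ univ ∧ e.2 ∈ W \ U)).card = r * (W \ U).card := by
    have := eb_univ_left R (W \ U)
    unfold eb at this
    rw [this, sum_congr rfl (fun v _ => (hR v).2), sum_const, smul_eq_mul, mul_comm]
  unfold eb
  rw [mul_add]
  omega

end Pool.Agent.MPd266db
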