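import Pool.Agent.Lib.MP_d266db_co.Spec

/-!
# MP_d266db_co: a closed pair almost contained in one side (`S_Min`)
-/

set_option autoImplicit false

namespace Pool.Agent.MPd266db

open Finset

variable {n : ℕ} {E R : Finset (Fin n × Fin n)} {U : Finset (Fin n)}

theorem min_union {O I O' I' : Finset (Fin n)} (h : Clo E R U O I) (h' : Clo E R U O' I') :
    Clo E R U (O ∪ O') (I ∪ I') := by
  obtain ⟨h1, h2⟩ := h
  obtain ⟨h1', h2'⟩ := h'
  refine ⟨?_, ?_⟩
  · intro u v hE hR hu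
    rcases mem_union.mp hu with hu | hu
    · exact mem_union_left _ (h1 u v hE hR hu)
    · exact mem_union_right _ (h1' u v hE hR hu)
  · intro u v hR hU hv
    rcases mem_union.mp hv with hv | hv
    · exact mem_union_left _ (h2 u v hR hU hv)
    · exact mem_union_right _ (h2' u v hR hU hv)

theorem min_inter {O I O' I' : Finset (Fin n)} (h : Clo E R U O I) (h' : Clo E R U O' I') :
    Clo E R U (O ∩ O') (I ∩ I') := by
  obtain ⟨h1, h2⟩ := h
  obtain ⟨h1', h2'⟩ := h'
  refine ⟨?_, ?_⟩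
  · intro u v hE hR hu
    obtain ⟨hu1, hu2⟩ := mem_inter.mp hu
    exact mem_inter.mpr ⟨h1 u v hE hR hu1, h1' u v hE hR hu2⟩
  · intro u v hR hU hv
    obtain ⟨hv1, hv2⟩ := mem_inter.mp hv
    exact mem_inter.mpr ⟨h2 u v hR hU hv1, h2' u v hR hU hv2⟩

theorem min_univ : Clo E R U univ univ :=
  ⟨fun _ _ _ _ _ => mem_univ _, fun _ _ _ _ _ => mem_univ _⟩

theorem min_empty : Clo E R U ∅ ∅ :=
  ⟨fun _ _ _ _ h => absurd h (notMem_empty _), fun _ _ _ _ h => absurd h (notMem_empty _)⟩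

/-- a proper componentwise subpair has smaller size -/
theorem min_size_lt {O I O' I' : Finset (Fin n)} (hO : O' ⊆ O) (hI : I' ⊆ I)
    (h : ¬ (O ⊆ O' ∧ I ⊆ I')) : O'.card + I'.card < O.card + I.card := by
  by_contra hcon
  have h1 := card_le_card hO
  have h2 := card_le_card hI
  have h3 : O' = O := eq_of_subset_of_card_le hO (by omega)
  have h4 : I' = I := eq_of_subset_of_card_le hI (by omega)
  exact h ⟨h3 ▸ Subset.refl _, h4 ▸ Subset.refl _⟩

/-- **Min.** -/
theorem tMin : S_Min := by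
  classical
  intro n E R U hn hsep hgap
  -- the largest small pair
  set Sm : Finset (Finset (Fin n) × Finset (Fin n)) :=
    univ.filter (fun p => Clo E R U p.1 p.2 ∧ 1000 * (p.1.card + p.2.card) < n) with hSm
  have hSm0 : Sm.Nonempty := by
    refine ⟨(∅, ∅), ?_⟩
    rw [hSm, mem_filter]
    refine ⟨mem_univ _, min_empty, ?_⟩
    simp only [card_empty]
    omega
  obtain ⟨T, hT, hTmax⟩ := exists_max_image Sm (fun p => p.1.card + p.2.card) hSm0
  rw [hSm, mem_filter] at hT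
  obtain ⟨_, hTc, hTs⟩ := hT
  have hsub : ∀ O I : Finset (Fin n), Clo E R U O I → 1000 * (O.card + I.card) < n →
      O ⊆ T.1 ∧ I ⊆ T.2 := by
    intro O I hc hs
    have hc' := min_union hTc hc
    have k1 := card_union_le T.1 O
    have k2 := card_union_le T.2 I
    have hs' : 1000 * ((T.1 ∪ O).card + (T.2 ∪ I).card) < n := by
      by_contra hcon
      have := hgap _ _ hc' (not_lt.mp hcon)
      omega
    have hm : (T.1 ∪ O, T.2 ∪ I) ∈ Sm := by
      rw [hSm, mem_filter]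
      exact ⟨mem_univ _, hc', hs'⟩
    have hle := hTmax _ hm
    simp only at hle
    have hall : T.1 ∪ O ⊆ T.1 ∧ T.2 ∪ I ⊆ T.2 := by
      by_contra hcon
      have := min_size_lt (subset_union_left (s₁ := T.1) (s₂ := O))
        (subset_union_left (s₁ := T.2) (s₂ := I)) hcon
      omega
    exact ⟨subset_union_right.trans hall.1, subset_union_right.trans hall.2⟩
  -- the smallest large pair
  set La : Finset (Finset (Fin n) × Finset (Fin n)) :=
    univ.filter (fun p => Clo E R U p.1 p.2 ∧ n ≤ 1000 * (p.1.card + p.2.card)) with hLa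
  have hLa0 : La.Nonempty := by
    refine ⟨(univ, univ), ?_⟩
    rw [hLa, mem_filter]
    refine ⟨mem_univ _, min_univ, ?_⟩
    simp only [card_univ, Fintype.card_fin]
    omega
  obtain ⟨⟨O, I⟩, hOI, hmin⟩ := exists_min_image La (fun p => p.1.card + p.2.card) hLa0
  rw [hLa, mem_filter] at hOI
  obtain ⟨_, hc, hl⟩ := hOI
  simp only at hc hl hmin
  have hl2 := hgap O I hc hl
  -- closed subpairs are equal or small
  have hdich : ∀ O' I' : Finset (Fin n), Clo E R U O' I' → O' ⊆ O → I' ⊆ I →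
      (O ⊆ O' ∧ I ⊆ I') ∨ 1000 * (O'.card + I'.card) < n := by
    intro O' I' hc' hO' hI'
    by_contra hcon
    rw [not_or] at hcon
    obtain ⟨h1, h2⟩ := hcon
    have h3 := min_size_lt hO' hI' h1
    have hm : (O', I') ∈ La := by
      rw [hLa, mem_filter]
      exact ⟨mem_univ _, hc', not_lt.mp h2⟩
    have := hmin _ hm
    simp only at this
    omega
  -- crossing arcs
  have hcross : ∀ u v, (u, v) ∈ E → (u, v) ∉ R → ¬ (u ∈ U ↔ v ∈ U) → u ∈ O → v ∈ T.2 := by
    intro u v hE hR hU hu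
    obtain ⟨O', I', hc', hv', hu'⟩ := hsep u v hE hR hU
    have hvI : v ∈ I := hc.1 u v hE hR hu
    have hci := min_inter hc hc'
    rcases hdich _ _ hci inter_subset_left inter_subset_left with h | h
    · exact absurd (mem_inter.mp (h.1 hu)).2 hu'
    · exact (hsub _ _ hci h).2 (mem_inter.mpr ⟨hvI, hv'⟩)
  -- the pairs `P_Z`
  have hPZ : ∀ Z : Finset (Fin n), (∀ u v : Fin n, (u ∈ U ↔ v ∈ U) → (u ∈ Z ↔ v ∈ Z)) →
      Clo E R U ((O ∩ Z) ∪ (T.1 ∩ O)) ((I ∩ Z) ∪ (T.2 ∩ I)) := by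
    intro Z hZ
    refine ⟨?_, ?_⟩
    · intro u v hE hR hu
      rcases mem_union.mp hu with hu | hu
      · obtain ⟨hu1, hu2⟩ := mem_inter.mp hu
        have hvI : v ∈ I := hc.1 u v hE hR hu1
        by_cases hU : (u ∈ U ↔ v ∈ U)
        · exact mem_union_left _ (mem_inter.mpr ⟨hvI, (hZ u v hU).mp hu2⟩)
        · exact mem_union_right _ (mem_inter.mpr ⟨hcross u v hE hR hU hu1, hvI⟩)
      · obtain ⟨hu1, hu2⟩ := mem_inter.mp hu
        exact mem_union_right _ (mem_inter.mpr ⟨hTc.1 u v hE hR hu1, hc.1 u v hE hR hu2⟩)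
    · intro u v hR hU hv
      rcases mem_union.mp hv with hv | hv
      · obtain ⟨hv1, hv2⟩ := mem_inter.mp hv
        exact mem_union_left _ (mem_inter.mpr ⟨hc.2 u v hR hU hv1, (hZ u v hU).mpr hv2⟩)
      · obtain ⟨hv1, hv2⟩ := mem_inter.mp hv
        exact mem_union_right _ (mem_inter.mpr ⟨hTc.2 u v hR hU hv1, hc.2 u v hR hU hv2⟩)
  have hPU := hPZ U (fun _ _ h => h)
  have hPUc := hPZ Uᶜ (fun u v h => by rw [mem_compl, mem_compl, h])
  have hsubO : ∀ Z : Finset (Fin n), (O ∩ Z) ∪ (T.1 ∩ O) ⊆ O := fun Z =>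
    union_subset inter_subset_left inter_subset_right
  have hsubI : ∀ Z : Finset (Fin n), (I ∩ Z) ∪ (T.2 ∩ I) ⊆ I := fun Z =>
    union_subset inter_subset_left inter_subset_right
  refine ⟨O, I, hc, hl2, ?_⟩
  -- the case that `P_Z` is everything
  have hfin : ∀ Z : Finset (Fin n), (O ⊆ (O ∩ Z) ∪ (T.1 ∩ O) ∧ I ⊆ (I ∩ Z) ∪ (T.2 ∩ I)) →
      1000 * ((O \ Z).card + (I \ Z).card) < n := by
    intro Z hZ
    have k1 : O \ Z ⊆ T.1 := by
      intro v hv
      obtain ⟨hv1, hv2⟩ := mem_sdiff.mp hv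
      rcases mem_union.mp (hZ.1 hv1) with h | h
      · exact absurd (mem_inter.mp h).2 hv2
      · exact (mem_inter.mp h).1
    have k2 : I \ Z ⊆ T.2 := by
      intro v hv
      obtain ⟨hv1, hv2⟩ := mem_sdiff.mp hv
      rcases mem_union.mp (hZ.2 hv1) with h | h
      · exact absurd (mem_inter.mp h).2 hv2
      · exact (mem_inter.mp h).1
    have k3 := card_le_card k1
    have k4 := card_le_card k2
    omega
  rcases hdich _ _ hPU (hsubO U) (hsubI U) with h | h
  · exact Or.inl (hfin U h)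
  · rcases hdich _ _ hPUc (hsubO Uᶜ) (hsubI Uᶜ) with h' | h'
    · right
      have := hfin Uᶜ h'
      rwa [sdiff_compl, sdiff_compl] at this
    · exfalso
      have e1 : O ⊆ ((O ∩ U) ∪ (T.1 ∩ O)) ∪ ((O ∩ Uᶜ) ∪ (T.1 ∩ O)) := by
        intro v hv
        by_cases hvU : v ∈ U
        · exact mem_union_left _ (mem_union_left _ (mem_inter.mpr ⟨hv, hvU⟩))
        · exact mem_union_right _ (mem_union_left _ (mem_inter.mpr ⟨hv, mem_compl.mpr hvU⟩))
      have e2 : I ⊆ ((I ∩ U) ∪ (T.2 ∩ I)) ∪ ((I ∩ Uᶜ) ∪ (T.2 ∩ I)) := by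
        intro v hv
        by_cases hvU : v ∈ U
        · exact mem_union_left _ (mem_union_left _ (mem_inter.mpr ⟨hv, hvU⟩))
        · exact mem_union_right _ (mem_union_left _ (mem_inter.mpr ⟨hv, mem_compl.mpr hvU⟩))
      have e3 := (card_le_card e1).trans (card_union_le _ _)
      have e4 := (card_le_card e2).trans (card_union_le _ _)
      omega

end Pool.Agent.MPd266db
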