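import Pool.Agent.Lib.MP_d266db_co.Spec

/-!
# MP_d266db_co: sparse cuts are close to each other
-/

set_option autoImplicit false

namespace Pool.Agent.MPd266db

open Finset

theorem near_tiny (hSmall : S_Small) {n r : ℕ} {R : Finset (Fin n × Fin n)} (hn : 100000 ≤ n)
    (hO : Ori R) (hR : Reg R r) (hr : 3 * n < 16 * (r + 1)) (C : Finset (Fin n))
    (hC : 43200000 * eb R C Cᶜ ≤ 2 * n ^ 2) : 144000 * C.card ≤ n ∨ 36 * n < 100 * C.card := by
  by_contra hcon
  rw [not_or, not_le, not_lt] at hcon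
  obtain ⟨h1, h2⟩ := hcon
  have h3 := hSmall n r R hO hR C
  have hn' : (100000 : ℝ) ≤ n := by exact_mod_cast hn
  have hr' : (3 : ℝ) * n < 16 * (r + 1) := by exact_mod_cast hr
  have hC' : (43200000 : ℝ) * eb R C Cᶜ ≤ 2 * (n : ℝ) ^ 2 := by exact_mod_cast hC
  have h1' : (n : ℝ) < 144000 * C.card := by exact_mod_cast h1
  have h2' : (100 : ℝ) * C.card ≤ 36 * n := by exact_mod_cast h2
  have h3' : (2 : ℝ) * r * C.card + C.card ≤ 2 * eb R C Cᶜ + (C.card : ℝ) ^ 2 := by exact_mod_cast h3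
  generalize (n : ℝ) = N at *
  generalize (C.card : ℝ) = c at *
  generalize (r : ℝ) = q at *
  generalize (eb R C Cᶜ : ℝ) = e at *
  have hc0 : 0 < c := by linarith
  have h4 : 14 / 1000 * N ≤ 2 * q + 1 - c := by linarith
  have h5 : c * (14 / 1000 * N) ≤ c * (2 * q + 1 - c) := mul_le_mul_of_nonneg_left h4 hc0.le
  have h6 : N * N < 144000 * c * N := mul_lt_mul_of_pos_right h1' (by linarith)
  nlinarith

theorem tNear (hSmall : S_Small) (hSub : S_Sub) : S_Near := by
  classical
  intro n r R U W hn hO hR hr hU hW hU1 hU2 hW1 hW2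
  have hbU := hR.bal U
  have hbW := hR.bal W
  have hs1 := hSub n R U W
  have hs2 := hSub n R U Wᶜ
  rw [compl_compl] at hs2
  have hb4 := hR.bal (U ∪ W)
  have hb3 := hR.bal (U ∪ Wᶜ)
  have e3 : (U ∪ Wᶜ)ᶜ = W \ U := by
    ext x; simp only [mem_compl, mem_union, mem_sdiff]; tauto
  have e2 : U ∩ Wᶜ = U \ W := by
    ext x; simp only [mem_compl, mem_inter, mem_sdiff]
  have e3' : (W \ U)ᶜ = U ∪ Wᶜ := by rw [← e3, compl_compl]
  have t1 := near_tiny hSmall hn hO hR hr (U ∩ W) (by omega)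
  have t2 := near_tiny hSmall hn hO hR hr (U \ W) (by
    rw [← e2]
    omega)
  have t3 := near_tiny hSmall hn hO hR hr (W \ U) (by
    rw [e3', ← e3]
    omega)
  have t4 := near_tiny hSmall hn hO hR hr (U ∪ W)ᶜ (by
    rw [compl_compl]
    omega)
  have c1 : (U ∩ W).card + (U \ W).card = U.card := card_inter_add_card_sdiff U W
  have c2 : (U ∩ W).card + (W \ U).card = W.card := by
    rw [inter_comm]; exact card_inter_add_card_sdiff W U
  have c3 : U.card + Uᶜ.card = n := by rw [card_add_card_compl, Fintype.card_fin]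
  have c4 : W.card + Wᶜ.card = n := by rw [card_add_card_compl, Fintype.card_fin]
  have c5 : (U ∪ W).card + (U ∪ W)ᶜ.card = n := by rw [card_add_card_compl, Fintype.card_fin]
  have c6 : (U ∪ W).card + (U ∩ W).card = U.card + W.card := card_union_add_card_inter U W
  omega

end Pool.Agent.MPd266db
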