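import Pool.Agent.Lib.MP_d266db_co.Spec

/-!
# MP_d266db_co: random signs
-/

set_option autoImplicit false

namespace Pool.Agent.MPd266db

open Finset

theorem rand_prod_sum {k : ℕ} (f : Fin k → Bool → ℝ) :
    ∑ s : Fin k → Bool, ∏ i, f i (s i) = ∏ i, (f i true + f i false) := by
  have h := Finset.prod_univ_sum (fun _ : Fin k => (Finset.univ : Finset Bool)) f
  rw [Fintype.piFinset_univ] at h
  rw [← h]
  exact Finset.prod_congr rfl (fun i _ => by simp)

theorem rand_exp_pair (lam x : ℝ) (hx : |x| ≤ 2) :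
    Real.exp (-lam * x) + Real.exp (-lam * -x) ≤ 2 * Real.exp (2 * lam ^ 2) := by
  have h1 := Real.cosh_le_exp_half_sq (lam * x)
  rw [Real.cosh_eq] at h1
  have h2 : (lam * x) ^ 2 / 2 ≤ 2 * lam ^ 2 := by
    have h3 : x ^ 2 ≤ 4 := by
      have := abs_le.mp hx
      nlinarith [this.1, this.2]
    nlinarith [sq_nonneg lam]
  have h4 := Real.exp_le_exp.mpr h2
  have e1 : -lam * x = -(lam * x) := by ring
  have e2 : -lam * -x = lam * x := by ring
  rw [e1, e2]
  linarith

theorem tRand : S_Rand := by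
  intro n k c hc
  rcases Nat.eq_zero_or_pos k with hk | hk
  · subst hk
    exact ⟨fun _ => true, fun W => by simp⟩
  by_contra hcon
  push Not at hcon
  have hkR : (0 : ℝ) < k := by exact_mod_cast hk
  have hn1 : (0 : ℝ) < (n : ℝ) + 1 := by positivity
  set L : ℝ := 4 * Real.sqrt (k * (n + 1)) with hL
  have hL2 : L ^ 2 = 16 * (k * (n + 1)) := by
    rw [hL, mul_pow, Real.sq_sqrt (by positivity)]
    ring
  have hL0 : 0 ≤ L := by positivity
  set lam : ℝ := L / (4 * k) with hlam
  have hlam0 : 0 ≤ lam := by positivity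
  have h1 : lam * L = 4 * (n + 1) := by
    have : lam * L = L ^ 2 / (4 * k) := by rw [hlam]; ring
    rw [this, hL2]
    field_simp
    ring
  have h2 : 2 * lam ^ 2 * k = 2 * (n + 1) := by
    have : 2 * lam ^ 2 * k = L ^ 2 / (8 * k) := by
      rw [hlam]
      field_simp
      ring
    rw [this, hL2]
    field_simp
    ring
  have h3 : ∀ s : Fin k → Bool, Real.exp (lam * L) ≤
      ∑ W : Finset (Fin n), Real.exp (-lam * ∑ i, (if s i then c i W else - c i W)) := by
    intro s
    obtain ⟨W, hW⟩ := hcon s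
    refine le_trans ?_ (Finset.single_le_sum
      (f := fun W : Finset (Fin n) => Real.exp (-lam * ∑ i, (if s i then c i W else - c i W)))
      (fun W _ => (Real.exp_pos _).le) (Finset.mem_univ W))
    apply Real.exp_le_exp.mpr
    nlinarith
  have h4 : ∑ s : Fin k → Bool, Real.exp (lam * L) ≤ ∑ s : Fin k → Bool,
      ∑ W : Finset (Fin n), Real.exp (-lam * ∑ i, (if s i then c i W else - c i W)) :=
    Finset.sum_le_sum (fun s _ => h3 s)
  rw [Finset.sum_comm] at h4
  have h5 : ∀ W : Finset (Fin n),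
      ∑ s : Fin k → Bool, Real.exp (-lam * ∑ i, (if s i then c i W else - c i W)) ≤
        2 ^ k * Real.exp (2 * (n + 1)) := by
    intro W
    have h6 : ∀ s : Fin k → Bool, Real.exp (-lam * ∑ i, (if s i then c i W else - c i W)) =
        ∏ i, (fun (i : Fin k) (b : Bool) => Real.exp (-lam * (if b then c i W else - c i W))) i (s i) := by
      intro s
      rw [Finset.mul_sum, Real.exp_sum]
    rw [Finset.sum_congr rfl (fun s _ => h6 s), rand_prod_sum (fun (i : Fin k) (b : Bool) =>
        Real.exp (-lam * (if b then c i W else - c i W)))]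
    have h7 : ∏ i : Fin k, ((fun (i : Fin k) (b : Bool) =>
        Real.exp (-lam * (if b then c i W else - c i W))) i true +
        (fun (i : Fin k) (b : Bool) =>
        Real.exp (-lam * (if b then c i W else - c i W))) i false) ≤
        ∏ i : Fin k, (2 * Real.exp (2 * lam ^ 2)) := by
      apply Finset.prod_le_prod
      · intro i _
        positivity
      · intro i _
        simpa using rand_exp_pair lam (c i W) (hc i W)
    refine h7.trans (le_of_eq ?_)
    rw [Finset.prod_const, Finset.card_univ, Fintype.card_fin, mul_pow, ← Real.exp_nat_mul]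
    congr 2
    rw [← h2]
    ring
  have h8 : (2 : ℝ) ^ k * Real.exp (4 * (n + 1)) ≤ 2 ^ n * (2 ^ k * Real.exp (2 * (n + 1))) := by
    rw [← h1]
    calc (2 : ℝ) ^ k * Real.exp (lam * L) = ∑ s : Fin k → Bool, Real.exp (lam * L) := by
          rw [Finset.sum_const, Finset.card_univ, nsmul_eq_mul]
          simp
      _ ≤ _ := h4
      _ ≤ ∑ W : Finset (Fin n), (2 : ℝ) ^ k * Real.exp (2 * (n + 1)) :=
          Finset.sum_le_sum (fun W _ => h5 W)
      _ = _ := by
          rw [Finset.sum_const, Finset.card_univ, nsmul_eq_mul]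
          simp
  have h9 : Real.exp (4 * ((n : ℝ) + 1)) = Real.exp (2 * (n + 1)) * Real.exp (2 * (n + 1)) := by
    rw [← Real.exp_add]
    congr 1
    ring
  rw [h9] at h8
  have h10 : Real.exp (2 * ((n : ℝ) + 1)) ≤ 2 ^ n := by
    have hp : 0 < (2 : ℝ) ^ k * Real.exp (2 * (n + 1)) := by positivity
    refine le_of_mul_le_mul_right ?_ hp
    calc Real.exp (2 * ((n : ℝ) + 1)) * (2 ^ k * Real.exp (2 * (n + 1))) =
        2 ^ k * (Real.exp (2 * (n + 1)) * Real.exp (2 * (n + 1))) := by ring
      _ ≤ _ := h8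
  have h11 : (2 : ℝ) ≤ Real.exp 1 := by
    have := Real.add_one_le_exp (1 : ℝ)
    linarith
  have h12 : (2 : ℝ) ^ (2 * (n + 1)) ≤ Real.exp (2 * ((n : ℝ) + 1)) := by
    have : Real.exp (2 * ((n : ℝ) + 1)) = Real.exp 1 ^ (2 * (n + 1)) := by
      rw [← Real.exp_nat_mul]
      congr 1
      push_cast
      ring
    rw [this]
    exact pow_le_pow_left₀ (by norm_num) h11 _
  have h13 : (2 : ℝ) ^ n < 2 ^ (2 * (n + 1)) := by
    apply pow_lt_pow_right₀ (by norm_num)
    omega
  linarith

end Pool.Agent.MPd266db
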