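import Pool.Agent.Lib.MP_d266db_co.Spec

/-!
# MP_d266db_co: existence of the regular subdigraph
-/

namespace Pool.Agent.MPd266db

open Finset

private lemma rega_num (n r x y z e : ℕ) (hz : z + y = n) (hr : 16 * r ≤ 3 * n)
    (h : 3 * n * (x + y) ≤ 16 * e + 3 * n * n) : x * r ≤ e + z * r := by
  by_cases hxz : x ≤ z
  · exact (Nat.mul_le_mul_right r hxz).trans (Nat.le_add_left _ _)
  · push Not at hxz
    obtain ⟨k, hk⟩ := Nat.exists_eq_add_of_lt hxz
    obtain ⟨j, hj⟩ : ∃ j, j = k + 1 := ⟨_, rfl⟩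
    have hx : x = z + j := by omega
    have h1 : 3 * n * (x + y) = 3 * n * n + 3 * n * j := by
      rw [show x + y = n + j by omega]
      ring
    have h2 : 3 * n * j ≤ 16 * e := by omega
    have h3 : 16 * r * j ≤ 3 * n * j := Nat.mul_le_mul_right j hr
    have h4 : 16 * r * j = 16 * (j * r) := by ring
    have h5 : j * r ≤ e := by omega
    rw [hx, Nat.add_mul]
    omega

theorem tRegA (hFac : S_Fac) (hCut : S_Cut) : S_RegA := by
  intro n E hO hS r hr
  obtain ⟨H, hH, h⟩ := hFac n E (fun _ => r) (fun _ => r) rfl (by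
    intro X Y
    simp only [sum_const, smul_eq_mul]
    refine rega_num n r X.card Y.card Yᶜ.card (eb E X Y) ?_ hr (hCut n E hO hS X Y)
    have := Finset.card_compl_add_card Y
    rw [Fintype.card_fin] at this
    exact this)
  exact ⟨H, hH, h⟩

end Pool.Agent.MPd266db
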