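import Pool.Agent.Lib.MP_d266db_co.Spec

/-!
# MP_d266db_co: submodularity of the cut function (`S_Sub`)
-/

set_option autoImplicit false

namespace Pool.Agent.MPd266db

open Finset

theorem sub_eb_sum {n : ℕ} (R : Finset (Fin n × Fin n)) (X Y : Finset (Fin n)) :
    eb R X Y = ∑ e ∈ R, (if e.1 ∈ X ∧ e.2 ∈ Y then 1 else 0) := by
  unfold eb
  rw [card_filter]

/-- **Sub.** -/
theorem tSub : S_Sub := by
  classical
  intro n R U W
  rw [sub_eb_sum, sub_eb_sum, sub_eb_sum, sub_eb_sum, ← sum_add_distrib, ← sum_add_distrib]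
  refine sum_le_sum fun e _ => ?_
  simp only [mem_compl, mem_inter, mem_union]
  by_cases h1 : e.1 ∈ U <;> by_cases h2 : e.1 ∈ W <;> by_cases h3 : e.2 ∈ U <;>
    by_cases h4 : e.2 ∈ W <;> simp [h1, h2, h3, h4]

end Pool.Agent.MPd266db
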