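import Pool.Agent.Lib.MP_d266db_co.Spec

/-!
# MP_d266db_co: the small cut of the example
-/

set_option autoImplicit false

namespace Pool.Agent.MPd266db

open Finset

/-- embedding of the class `A` -/
def excut_A (l i : ℕ) : ZMod (2 * l) ↪ ExT l i := ⟨fun a => .inl (.inl a), fun a b h => by simpa using h⟩

/-- embedding of the class `C` -/
def excut_C (l i : ℕ) : ZMod (2 * l) ↪ ExT l i := ⟨fun a => .inr (.inl a), fun a b h => by simpa using h⟩

/-- embedding of the class `D` -/
def excut_D (l i : ℕ) : ZMod (2 * l + 2 * i) ↪ ExT l i :=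
  ⟨fun a => .inr (.inr a), fun a b h => by simpa using h⟩

theorem excut_add_val {M : ℕ} [NeZero M] (a c : ZMod M) : a + (((c - a).val : ℕ) : ZMod M) = c := by
  rw [ZMod.natCast_zmod_val]
  ring

theorem tExCut : S_ExCut := by
  intro l i hi hil _ _ _
  have : NeZero (2 * l) := ⟨by omega⟩
  have : NeZero (2 * l + 2 * i) := ⟨by omega⟩
  constructor
  · rw [← Nat.card_eq_fintype_card]
    change Nat.card ((ZMod (2 * l) ⊕ Fin (2 * l - 2 * i)) ⊕
      (ZMod (2 * l) ⊕ ZMod (2 * l + 2 * i))) = 8 * l
    rw [Nat.card_sum, Nat.card_sum, Nat.card_sum, Nat.card_zmod, Nat.card_zmod,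
      Nat.card_fin]
    omega
  refine ⟨(univ.map (excut_A l i)) ∪ (univ.map (excut_D l i)),
    (univ.map (excut_C l i)) ∪ (univ.map (excut_D l i)), ?_, ?_, ?_⟩
  · rw [Finset.card_union_of_disjoint, Finset.card_map, Finset.card_map, Finset.card_univ,
      Finset.card_univ, ZMod.card, ZMod.card]
    · omega
    · rw [Finset.disjoint_left]
      intro x hx hx'
      simp only [mem_map, mem_univ, true_and, excut_A, excut_D, Function.Embedding.coeFn_mk] at hx hx'
      obtain ⟨a, rfl⟩ := hx
      obtain ⟨b, hb⟩ := hx'
      cases hb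
  · rw [Finset.card_union_of_disjoint, Finset.card_map, Finset.card_map, Finset.card_univ,
      Finset.card_univ, ZMod.card, ZMod.card]
    · omega
    · rw [Finset.disjoint_left]
      intro x hx hx'
      simp only [mem_map, mem_univ, true_and, excut_C, excut_D, Function.Embedding.coeFn_mk] at hx hx'
      obtain ⟨a, rfl⟩ := hx
      obtain ⟨b, hb⟩ := hx'
      cases hb
  · have hsub : (univ.filter (fun p : ExT l i × ExT l i =>
        p.1 ∈ (univ.map (excut_A l i)) ∪ (univ.map (excut_D l i)) ∧
        p.2 ∈ (univ.map (excut_C l i)) ∪ (univ.map (excut_D l i)) ∧ ExA l i p.1 p.2)) ⊆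
        ((univ : Finset (ZMod (2 * l))) ×ˢ Finset.range (2 * i + 1)).image
          (fun q => ((.inl (.inl q.1), .inr (.inl (q.1 + ((q.2 : ℕ) : ZMod (2 * l))))) :
            ExT l i × ExT l i)) ∪
        ((univ : Finset (ZMod (2 * l + 2 * i))) ×ˢ Finset.range i).image
          (fun q => ((.inr (.inr q.1), .inr (.inr (q.1 + ((q.2 + 1 : ℕ) : ZMod (2 * l + 2 * i))))) :
            ExT l i × ExT l i)) := by
      rintro ⟨x, y⟩ hp
      simp only [mem_filter, mem_univ, true_and, mem_union, mem_map, excut_A, excut_C, excut_D,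
        Function.Embedding.coeFn_mk] at hp
      obtain ⟨hx, hy, hA⟩ := hp
      rw [mem_union]
      rcases hx with ⟨a, rfl⟩ | ⟨d, rfl⟩
      · rcases hy with ⟨c, rfl⟩ | ⟨d', rfl⟩
        · left
          rw [mem_image]
          have hA' : (c - a).val ≤ 2 * i := hA
          refine ⟨(a, (c - a).val), ?_, ?_⟩
          · rw [mem_product, Finset.mem_range]
            exact ⟨mem_univ _, by omega⟩
          · simp only [excut_add_val]
        · exact absurd hA (by simp [ExA])
      · rcases hy with ⟨c, rfl⟩ | ⟨d', rfl⟩
        · exact absurd hA (by simp [ExA])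
        · right
          rw [mem_image]
          have hA' : 1 ≤ (d' - d).val ∧ (d' - d).val ≤ i := hA
          refine ⟨(d, (d' - d).val - 1), ?_, ?_⟩
          · rw [mem_product, Finset.mem_range]
            exact ⟨mem_univ _, by omega⟩
          · have : (d' - d).val - 1 + 1 = (d' - d).val := by omega
            simp only [this, excut_add_val]
    refine (Finset.card_le_card hsub).trans ((Finset.card_union_le _ _).trans ?_)
    refine Nat.add_le_add (Finset.card_image_le.trans (le_of_eq ?_))
      (Finset.card_image_le.trans (le_of_eq ?_))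
    · rw [Finset.card_product, Finset.card_univ, ZMod.card, Finset.card_range]
    · rw [Finset.card_product, Finset.card_univ, ZMod.card, Finset.card_range]

end Pool.Agent.MPd266db
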