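import Pool.Agent.Lib.MP_d266db_co.Spec

/-!
# MP_d266db_co, module `ExDeg`: degrees of the extremal example
-/

set_option autoImplicit false

namespace Pool.Agent.MPd266db

open Finset

theorem exdeg_sum {α β : Type} [Fintype α] [Fintype β] (inst : Fintype (α ⊕ β)) (p : α ⊕ β → Prop)
    [DecidablePred p] :
    (@Finset.filter _ p _ (@Finset.univ _ inst)).card =
      (univ.filter (fun a => p (Sum.inl a))).card + (univ.filter (fun b => p (Sum.inr b))).card := by
  obtain rfl : inst = instFintypeSum α β := Subsingleton.elim _ _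
  rw [Finset.card_filter, Finset.card_filter, Finset.card_filter, Fintype.sum_sum_type]

theorem exdeg_sub {M : ℕ} [NeZero M] (x : ZMod M) (p : ZMod M → Prop) [DecidablePred p]
    (P : ℕ → Prop) [DecidablePred P] (hp : ∀ y, p y ↔ P (y - x).val) :
    (univ.filter p).card = ((range M).filter P).card := by
  refine Finset.card_nbij' (fun y => (y - x).val) (fun k => (k : ZMod M) + x) ?_ ?_ ?_ ?_
  · intro y hy
    simp only [coe_filter, mem_univ, true_and, Set.mem_ofPred_eq] at hy
    simp only [coe_filter, mem_range, Set.mem_ofPred_eq]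
    exact ⟨ZMod.val_lt _, (hp y).1 hy⟩
  · intro k hk
    simp only [coe_filter, mem_range, Set.mem_ofPred_eq] at hk
    simp only [coe_filter, mem_univ, true_and, Set.mem_ofPred_eq]
    rw [hp, add_sub_cancel_right, ZMod.val_natCast_of_lt hk.1]
    exact hk.2
  · intro y _
    simp only [ZMod.natCast_zmod_val, sub_add_cancel]
  · intro k hk
    simp only [coe_filter, mem_range, Set.mem_ofPred_eq] at hk
    simp only [add_sub_cancel_right]
    exact ZMod.val_natCast_of_lt hk.1

theorem exdeg_sub' {M : ℕ} [NeZero M] (x : ZMod M) (p : ZMod M → Prop) [DecidablePred p]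
    (P : ℕ → Prop) [DecidablePred P] (hp : ∀ y, p y ↔ P (x - y).val) :
    (univ.filter p).card = ((range M).filter P).card := by
  refine Finset.card_nbij' (fun y => (x - y).val) (fun k => x - (k : ZMod M)) ?_ ?_ ?_ ?_
  · intro y hy
    simp only [coe_filter, mem_univ, true_and, Set.mem_ofPred_eq] at hy
    simp only [coe_filter, mem_range, Set.mem_ofPred_eq]
    exact ⟨ZMod.val_lt _, (hp y).1 hy⟩
  · intro k hk
    simp only [coe_filter, mem_range, Set.mem_ofPred_eq] at hk
    simp only [coe_filter, mem_univ, true_and, Set.mem_ofPred_eq]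
    rw [hp, sub_sub_cancel, ZMod.val_natCast_of_lt hk.1]
    exact hk.2
  · intro y _
    simp only [ZMod.natCast_zmod_val, sub_sub_cancel]
  · intro k hk
    simp only [coe_filter, mem_range, Set.mem_ofPred_eq] at hk
    simp only [sub_sub_cancel]
    exact ZMod.val_natCast_of_lt hk.1

theorem exdeg_icc (M s : ℕ) (hs : s < M) :
    ((range M).filter (fun k => 1 ≤ k ∧ k ≤ s)).card = s := by
  have : (range M).filter (fun k => 1 ≤ k ∧ k ≤ s) = Finset.Icc 1 s := by
    ext k; simp only [mem_filter, mem_range, mem_Icc]; omega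
  rw [this]; simp

theorem exdeg_le (M s : ℕ) (hs : s < M) :
    ((range M).filter (fun k => k ≤ s)).card = s + 1 := by
  have : (range M).filter (fun k => k ≤ s) = Finset.range (s + 1) := by
    ext k; simp only [mem_filter, mem_range]; omega
  rw [this]; simp

theorem exdeg_par (N c r : ℕ) (hr : r < 2) :
    ((range (2 * N)).filter (fun k => (c + k) % 2 = r)).card = N := by
  induction N with
  | zero => simp
  | succ N ih =>
    rw [Finset.card_filter] at ih ⊢
    rw [show 2 * (N + 1) = 2 * N + 1 + 1 by ring, Finset.sum_range_succ, Finset.sum_range_succ, ih]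
    split_ifs <;> omega

theorem exdeg_zpar {M : ℕ} [NeZero M] (N : ℕ) (hM : M = 2 * N) (c r : ℕ) (hr : r < 2)
    (p : ZMod M → Prop) [DecidablePred p] (hp : ∀ y, p y ↔ (c + y.val) % 2 = r) :
    (univ.filter p).card = N := by
  rw [exdeg_sub 0 p (fun k => (c + k) % 2 = r) (fun y => by rw [hp, sub_zero]), hM]
  exact exdeg_par N c r hr

theorem exdeg_fpar {K : ℕ} (N : ℕ) (hM : K = 2 * N) (c r : ℕ) (hr : r < 2)
    (p : Fin K → Prop) [DecidablePred p] (hp : ∀ y, p y ↔ (y.val + c) % 2 = r) :
    (univ.filter p).card = N := by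
  rw [Finset.card_filter]
  have : ∀ y : Fin K, (if p y then 1 else 0) = (fun k : ℕ => if (c + k) % 2 = r then 1 else 0) y.val := by
    intro y
    have := hp y
    rw [add_comm] at this
    by_cases h : p y
    · simp only [h, if_true]; rw [if_pos (this.1 h)]
    · simp only [h, if_false]; rw [if_neg (fun h2 => h (this.2 h2))]
  rw [Finset.sum_congr rfl (fun y _ => this y), Fin.sum_univ_eq_sum_range (fun k : ℕ => if (c + k) % 2 = r then 1 else 0) K, hM,
    ← Finset.card_filter]
  exact exdeg_par N c r hr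

theorem exdeg_all {α : Type} [Fintype α] (p : α → Prop) [DecidablePred p] (hp : ∀ y, p y) :
    (univ.filter p).card = Fintype.card α := by
  rw [Finset.filter_true_of_mem (fun y _ => hp y)]; rfl

/-- **Degrees of the example.** -/
theorem tExDeg : S_ExDeg := by
  intro l i hi hil inst1 inst2 x
  have : NeZero (2 * l) := ⟨by omega⟩
  have : NeZero (2 * l + 2 * i) := ⟨by omega⟩
  rw [exdeg_sum, exdeg_sum, exdeg_sum, exdeg_sum, exdeg_sum, exdeg_sum]
  rcases x with (a | b) | (c | d)
  · refine ⟨?_, ?_⟩
    · have h1 := exdeg_sub a (fun y => ExA l i (.inl (.inl a)) (.inl (.inl y)))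
        (fun k => 1 ≤ k ∧ k ≤ l - 1) (fun y => Iff.rfl)
      have h2 := exdeg_all (fun y => ExA l i (.inl (.inl a)) (.inl (.inr y))) (fun y => trivial)
      have h3 := exdeg_sub a (fun y => ExA l i (.inl (.inl a)) (.inr (.inl y)))
        (fun k => k ≤ 2 * i) (fun y => Iff.rfl)
      rw [exdeg_icc _ _ (by omega)] at h1
      rw [exdeg_le _ _ (by omega)] at h3
      rw [Fintype.card_fin] at h2
      omega
    · have h1 := exdeg_sub' a (fun y => ExA l i (.inl (.inl y)) (.inl (.inl a)))
        (fun k => 1 ≤ k ∧ k ≤ l - 1) (fun y => Iff.rfl)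
      have h2 := exdeg_all (fun y => ExA l i (.inr (.inr y)) (.inl (.inl a))) (fun y => trivial)
      rw [exdeg_icc _ _ (by omega)] at h1
      rw [ZMod.card] at h2
      omega
  · refine ⟨?_, ?_⟩
    · have h1 := exdeg_all (fun y => ExA l i (.inl (.inr b)) (.inr (.inl y))) (fun y => trivial)
      have h2 := exdeg_zpar (l + i) (by ring) b.val 0 (by norm_num)
        (fun y => ExA l i (.inl (.inr b)) (.inr (.inr y))) (fun y => Iff.rfl)
      rw [ZMod.card] at h1
      omega
    · have h1 := exdeg_all (fun y => ExA l i (.inl (.inl y)) (.inl (.inr b))) (fun y => trivial)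
      have h2 := exdeg_zpar (l + i) (by ring) b.val 1 (by norm_num)
        (fun y => ExA l i (.inr (.inr y)) (.inl (.inr b))) (fun y => Iff.rfl)
      rw [ZMod.card] at h1
      omega
  · refine ⟨?_, ?_⟩
    · have h1 := exdeg_sub c (fun y => ExA l i (.inr (.inl c)) (.inr (.inl y)))
        (fun k => 1 ≤ k ∧ k ≤ l - 1) (fun y => Iff.rfl)
      have h2 := exdeg_all (fun y => ExA l i (.inr (.inl c)) (.inr (.inr y))) (fun y => trivial)
      rw [exdeg_icc _ _ (by omega)] at h1
      rw [ZMod.card] at h2
      omega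
    · have h1 := exdeg_sub' c (fun y => ExA l i (.inr (.inl y)) (.inr (.inl c)))
        (fun k => 1 ≤ k ∧ k ≤ l - 1) (fun y => Iff.rfl)
      have h2 := exdeg_all (fun y => ExA l i (.inl (.inr y)) (.inr (.inl c))) (fun y => trivial)
      have h3 := exdeg_sub' c (fun y => ExA l i (.inl (.inl y)) (.inr (.inl c)))
        (fun k => k ≤ 2 * i) (fun y => Iff.rfl)
      rw [exdeg_icc _ _ (by omega)] at h1
      rw [exdeg_le _ _ (by omega)] at h3
      rw [Fintype.card_fin] at h2
      omega
  · refine ⟨?_, ?_⟩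
    · have h1 := exdeg_all (fun y => ExA l i (.inr (.inr d)) (.inl (.inl y))) (fun y => trivial)
      have h2 := exdeg_fpar (l - i) (by omega) d.val 1 (by norm_num)
        (fun y => ExA l i (.inr (.inr d)) (.inl (.inr y))) (fun y => Iff.rfl)
      have h3 := exdeg_sub d (fun y => ExA l i (.inr (.inr d)) (.inr (.inr y)))
        (fun k => 1 ≤ k ∧ k ≤ i) (fun y => Iff.rfl)
      rw [exdeg_icc _ _ (by omega)] at h3
      rw [ZMod.card] at h1
      omega
    · have h1 := exdeg_all (fun y => ExA l i (.inr (.inl y)) (.inr (.inr d))) (fun y => trivial)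
      have h2 := exdeg_fpar (l - i) (by omega) d.val 0 (by norm_num)
        (fun y => ExA l i (.inl (.inr y)) (.inr (.inr d))) (fun y => Iff.rfl)
      have h3 := exdeg_sub' d (fun y => ExA l i (.inr (.inr y)) (.inr (.inr d)))
        (fun k => 1 ≤ k ∧ k ≤ i) (fun y => Iff.rfl)
      rw [exdeg_icc _ _ (by omega)] at h3
      rw [ZMod.card] at h1
      omega

end Pool.Agent.MPd266db
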