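import Pool.Agent.Lib.MP_d266db_co.Spec

/-!
# MP_d266db_co, ExOri: the extremal example is an oriented graph
-/

set_option autoImplicit false

namespace Pool.Agent.MPd266db

open Finset

theorem exori_circ (M s : ℕ) [NeZero M] (hs : 2 * s < M) (a b : ZMod M)
    (h1 : 1 ≤ (b - a).val ∧ (b - a).val ≤ s) (h2 : 1 ≤ (a - b).val ∧ (a - b).val ≤ s) : False := by
  have hne : b - a ≠ 0 := by
    intro h
    rw [h, ZMod.val_zero] at h1
    omega
  have h3 : (a - b).val = M - (b - a).val := by
    haveI : NeZero (b - a) := ⟨hne⟩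
    rw [← neg_sub b a, ZMod.val_neg_of_ne_zero]
  have h4 : (b - a).val < M := ZMod.val_lt _
  omega

theorem tExOri : S_ExOri := by
  intro l i hi hil x y hxy hyx
  haveI : NeZero (2 * l) := ⟨by omega⟩
  haveI : NeZero (2 * l + 2 * i) := ⟨by omega⟩
  rcases x with (a | b) | (c | d) <;> rcases y with (a' | b') | (c' | d') <;>
    simp only [ExA] at hxy hyx
  · exact exori_circ (2 * l) (l - 1) (by omega) a a' hxy hyx
  · omega
  · exact exori_circ (2 * l) (l - 1) (by omega) c c' hxy hyx
  · omega
  · exact exori_circ (2 * l + 2 * i) i (by omega) d d' hxy hyx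

end Pool.Agent.MPd266db
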