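import Pool.Agent.Lib.MP_d266db_co.Spec

/-!
# MP_d266db_co: no closed pair of medium size (`S_Gap`)
-/

set_option autoImplicit false

namespace Pool.Agent.MPd266db

open Finset

theorem gap_num (n r o i t : ℝ) (hn : 100000 ≤ n) (h1 : 3 * n < 16 * (r + 1))
    (h2 : 1000 * (4 * r) ≤ 1002 * n) (ht : 40000 * t < n ^ 2) (ho : 0 ≤ o) (hi : 0 ≤ i)
    (h : 3 * n * o + 8 * r * i ≤ 8 * (o * i) + 8 * r * o + 16 * t)
    (ha : n ≤ 1000 * (o + i)) (hb : 1000 * (o + i) ≤ 2 * n) : False := by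
  have hn0 : 0 < n := by linarith
  have k1 : 8 * n / 9 ≤ 3 * n - 8 * r := by linarith
  have k2 : 8 * n / 9 ≤ 8 * r := by linarith
  have k3 : 8 * n / 9 * o ≤ (3 * n - 8 * r) * o := mul_le_mul_of_nonneg_right k1 ho
  have k4 : 8 * n / 9 * i ≤ 8 * r * i := mul_le_mul_of_nonneg_right k2 hi
  have k5 : 8 * (o * i) ≤ 2 * (o + i) ^ 2 := by
    have := sq_nonneg (o - i)
    nlinarith
  have k6 : (o + i) ^ 2 ≤ (o + i) * (2 * n / 1000) := by
    rw [pow_two]
    refine mul_le_mul_of_nonneg_left ?_ (by linarith)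
    linarith
  have k7 : n * (n / 1000) ≤ n * (o + i) := by
    refine mul_le_mul_of_nonneg_left ?_ hn0.le
    linarith
  nlinarith

/-- **Gap.** -/
theorem tGap (hCloE : S_CloE) (hCap : S_Cap) : S_Gap := by
  have _ := hCap
  intro n r E R U O I hn hRE hReg hOri hSemi h1 h2 h3 hClo h4
  have h5 := hCloE n r E R U O I hRE hReg hSemi hClo
  have h6 := eb_le_card_mul E O I
  by_contra hcon
  rw [not_lt] at hcon
  have c1 : (100000 : ℝ) ≤ n := by exact_mod_cast hn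
  have c2 : 3 * (n : ℝ) < 16 * ((r : ℝ) + 1) := by exact_mod_cast h1
  have c3 : 1000 * (4 * (r : ℝ)) ≤ 1002 * n := by exact_mod_cast h2
  have c4 : 40000 * (eb R U Uᶜ : ℝ) < (n : ℝ) ^ 2 := by exact_mod_cast h3
  have c5 : 3 * (n : ℝ) * O.card + 8 * r * I.card ≤
      8 * ((O.card : ℝ) * I.card) + 8 * r * O.card + 16 * eb R U Uᶜ := by
    have : 3 * n * O.card + 8 * r * I.card ≤
      8 * (O.card * I.card) + 8 * r * O.card + 16 * eb R U Uᶜ := by omega
    exact_mod_cast this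
  have c6 : (n : ℝ) ≤ 1000 * ((O.card : ℝ) + I.card) := by exact_mod_cast h4
  have c7 : 1000 * ((O.card : ℝ) + I.card) ≤ 2 * n := by exact_mod_cast hcon
  exact gap_num n r O.card I.card (eb R U Uᶜ) c1 c2 c3 c4 (Nat.cast_nonneg _) (Nat.cast_nonneg _)
    c5 c6 c7

end Pool.Agent.MPd266db
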