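import Pool.Agent.Lib.MP_d266db_co.Spec

/-!
# MP_d266db_co, Ham: edge-disjoint Hamilton cycles give a regular subdigraph
-/

set_option autoImplicit false

namespace Pool.Agent.MPd266db

open Finset

theorem tHam : S_Ham := by
  classical
  intro n t E σ hE hσ
  refine ⟨(univ : Finset (Fin t × Fin n)).image (fun p => (p.2, σ p.1 p.2)), ?_, ?_⟩
  · intro e he
    rw [mem_image] at he
    obtain ⟨p, -, rfl⟩ := he
    exact hE p.1 p.2
  · intro v
    constructor
    · have h : ((univ : Finset (Fin t × Fin n)).image (fun p => (p.2, σ p.1 p.2))).filter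
          (fun e => e.1 = v) = (univ : Finset (Fin t)).image (fun i => (v, σ i v)) := by
        ext e
        simp only [mem_filter, mem_image, mem_univ, true_and]
        constructor
        · rintro ⟨⟨p, rfl⟩, h2⟩
          exact ⟨p.1, by rw [← h2]⟩
        · rintro ⟨i, rfl⟩
          exact ⟨⟨(i, v), rfl⟩, rfl⟩
      unfold od
      rw [h, card_image_of_injective, card_univ, Fintype.card_fin]
      intro i j hij
      by_contra hne
      exact hσ i j hne v (Prod.ext_iff.mp hij).2
    · have h : ((univ : Finset (Fin t × Fin n)).image (fun p => (p.2, σ p.1 p.2))).filter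
          (fun e => e.2 = v) = (univ : Finset (Fin t)).image (fun i => ((σ i).symm v, v)) := by
        ext e
        simp only [mem_filter, mem_image, mem_univ, true_and]
        constructor
        · rintro ⟨⟨p, rfl⟩, h2⟩
          refine ⟨p.1, ?_⟩
          rw [← h2]
          simp
        · rintro ⟨i, rfl⟩
          exact ⟨⟨(i, (σ i).symm v), by simp⟩, rfl⟩
      unfold idg
      rw [h, card_image_of_injective, card_univ, Fintype.card_fin]
      intro i j hij
      by_contra hne
      have h1 := (Prod.ext_iff.mp hij).1
      simp only at h1
      apply hσ i j hne ((σ i).symm v)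
      rw [Equiv.apply_symm_apply, h1, Equiv.apply_symm_apply]

end Pool.Agent.MPd266db
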