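import Pool.Agent.Lib.MP_d266db_co.Spec

/-!
# MP_d266db_co, Sharp: the constant `3/16` is best possible
-/

set_option autoImplicit false

namespace Pool.Agent.MPd266db

open Finset

theorem tSharp (hUps : S_Ups) (hTrn : S_Trn) (hExOri : S_ExOri) (hExDeg : S_ExDeg)
    (hExCut : S_ExCut) : S_Sharp := by
  classical
  intro ε hε N
  obtain ⟨i, hi⟩ : ∃ i : ℕ, i = ⌈1 / ε⌉₊ + 1 := ⟨_, rfl⟩
  obtain ⟨l, hl⟩ : ∃ l : ℕ, l = N + i * i + 1 := ⟨_, rfl⟩
  have hi1 : 1 ≤ i := by omega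
  have hii : i ≤ i * i := Nat.le_mul_of_pos_left i hi1
  have hil : i < l := by omega
  haveI : NeZero (2 * l) := ⟨by omega⟩
  haveI : NeZero (2 * l + 2 * i) := ⟨by omega⟩
  haveI : Fintype (ExT l i) := inferInstance
  have hcut := hExCut l i hi1 hil inferInstance inferInstance (Classical.decRel _)
  obtain ⟨hcard, X, Y, hX, hY, hXY⟩ := hcut
  have hdeg := hExDeg l i hi1 hil inferInstance (Classical.decRel _)
  have hsem : ∀ x : ExT l i, 3 * (8 * l) ≤
      8 * (univ.filter (fun y => ExA l i x y)).card ∧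
      3 * (8 * l) ≤ 8 * (univ.filter (fun y => ExA l i y x)).card := by
    intro x
    have := hdeg x
    constructor
    · omega
    · omega
  obtain ⟨E, hO, hS, X', Y', hX', hY', hE⟩ :=
    @hTrn (ExT l i) inferInstance inferInstance (ExA l i) (Classical.decRel _) (8 * l) hcard
      (hExOri l i hi1 hil) hsem X Y _ hXY
  refine ⟨8 * l, by omega, E, hO, hS, ?_⟩
  intro r H hH hr
  have h1 := hUps (8 * l) E H r hH hr X' Y'
  rw [hX', hY', hX, hY] at h1
  have h2 : r * (4 * l + 2 * i + (4 * l + 2 * i)) ≤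
      2 * l * (2 * i + 1) + (2 * l + 2 * i) * i + r * (8 * l) := by omega
  have h3 : (r : ℝ) * (4 * l + 2 * i + (4 * l + 2 * i)) ≤
      2 * l * (2 * i + 1) + (2 * l + 2 * i) * i + r * (8 * l) := by exact_mod_cast h2
  have hiε : (1 : ℝ) ≤ i * ε := by
    have h4 : 1 / ε ≤ (i : ℝ) := by
      rw [hi]
      push_cast
      linarith [Nat.le_ceil (1 / ε)]
    rwa [div_le_iff₀ hε] at h4
  have hl2 : (i : ℝ) * i ≤ l := by
    have : i * i ≤ l := by omega
    exact_mod_cast this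
  have hl0 : (0 : ℝ) ≤ l := Nat.cast_nonneg l
  have hi0 : (0 : ℝ) < i := by exact_mod_cast hi1
  have h5 : (l : ℝ) ≤ l * (i * ε) := le_mul_of_one_le_right hl0 hiε
  have h6 : (i : ℝ) * (4 * r) ≤ i * (4 * ((3 / 16 + ε) * (8 * l))) := by nlinarith
  have h7 := le_of_mul_le_mul_left h6 hi0
  push_cast
  linarith

end Pool.Agent.MPd266db
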