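import Pool.Agent.Lib.MP_d266db_co.Spec

/-!
# MP_d266db_co: transport to `Fin n`
-/

namespace Pool.Agent.MPd266db

open Finset

theorem tTrn : S_Trn := by
  intro T _ _ A _ n hT hA hdeg X Y b hb
  obtain ⟨e⟩ : Nonempty (T ≃ Fin n) := ⟨Fintype.equivFinOfCardEq hT⟩
  obtain ⟨E, hE⟩ : ∃ E : Finset (Fin n × Fin n), ∀ u v, (u, v) ∈ E ↔ A (e.symm u) (e.symm v) :=
    ⟨univ.filter (fun p => A (e.symm p.1) (e.symm p.2)), fun u v => by simp⟩
  refine ⟨E, ?_, ?_, X.map e.toEmbedding, Y.map e.toEmbedding, Finset.card_map _,
    Finset.card_map _, ?_⟩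
  · intro u v huv hvu
    exact hA _ _ ((hE u v).1 huv) ((hE v u).1 hvu)
  · intro v
    have h1 : od E v = (univ.filter (fun y => A (e.symm v) y)).card := by
      have : E.filter (fun p => p.1 = v) = (univ.filter (fun y => A (e.symm v) y)).map
          ⟨fun y => (v, e y), fun y y' h => e.injective (Prod.mk.inj h).2⟩ := by
        ext ⟨a, c⟩
        rw [mem_filter, hE, mem_map]
        constructor
        · rintro ⟨h, h'⟩
          have h'' : a = v := h'
          subst h''
          exact ⟨e.symm c, by simpa using h, by simp⟩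
        · rintro ⟨y, hy, hyy⟩
          have h2 : v = a := (Prod.mk.inj hyy).1
          have h3 : e y = c := (Prod.mk.inj hyy).2
          subst h2 h3
          refine ⟨?_, rfl⟩
          rw [e.symm_apply_apply]
          exact (mem_filter.1 hy).2
      unfold od
      rw [this, Finset.card_map]
    have h2 : idg E v = (univ.filter (fun y => A y (e.symm v))).card := by
      have : E.filter (fun p => p.2 = v) = (univ.filter (fun y => A y (e.symm v))).map
          ⟨fun y => (e y, v), fun y y' h => e.injective (Prod.mk.inj h).1⟩ := by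
        ext ⟨a, c⟩
        rw [mem_filter, hE, mem_map]
        constructor
        · rintro ⟨h, h'⟩
          have h'' : c = v := h'
          subst h''
          exact ⟨e.symm a, by simpa using h, by simp⟩
        · rintro ⟨y, hy, hyy⟩
          have h2 : e y = a := (Prod.mk.inj hyy).1
          have h3 : v = c := (Prod.mk.inj hyy).2
          subst h2 h3
          refine ⟨?_, rfl⟩
          rw [e.symm_apply_apply]
          exact (mem_filter.1 hy).2
      unfold idg
      rw [this, Finset.card_map]
    rw [h1, h2]
    exact hdeg _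
  · refine le_trans (le_of_eq ?_) hb
    have : E.filter (fun p => p.1 ∈ X.map e.toEmbedding ∧ p.2 ∈ Y.map e.toEmbedding) =
        (univ.filter (fun p : T × T => p.1 ∈ X ∧ p.2 ∈ Y ∧ A p.1 p.2)).map
          (Equiv.prodCongr e e).toEmbedding := by
      ext ⟨a, c⟩
      constructor
      · intro hh
        obtain ⟨h, h1, h2⟩ := mem_filter.1 hh
        rw [hE] at h
        obtain ⟨x, hx, hxa⟩ := mem_map.1 h1
        obtain ⟨y, hy, hyc⟩ := mem_map.1 h2
        have ha : e x = a := hxa
        have hc : e y = c := hyc
        refine mem_map.2 ⟨(x, y), ?_, ?_⟩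
        · rw [mem_filter]
          refine ⟨mem_univ _, hx, hy, ?_⟩
          rw [← ha, ← hc, e.symm_apply_apply, e.symm_apply_apply] at h
          exact h
        · show (e x, e y) = (a, c)
          rw [ha, hc]
      · intro hh
        obtain ⟨⟨x, y⟩, hxy, hxyy⟩ := mem_map.1 hh
        have h0 : (e x, e y) = (a, c) := hxyy
        have ha : e x = a := (Prod.mk.inj h0).1
        have hc : e y = c := (Prod.mk.inj h0).2
        obtain ⟨-, h1, h2, h3⟩ := mem_filter.1 hxy
        refine mem_filter.2 ⟨?_, mem_map.2 ⟨x, h1, ha⟩, mem_map.2 ⟨y, h2, hc⟩⟩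
        rw [hE, ← ha, ← hc, e.symm_apply_apply, e.symm_apply_apply]
        exact h3
    unfold eb
    rw [this, Finset.card_map]

end Pool.Agent.MPd266db
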