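import Pool.Agent.Lib.MP_d266db_co.Spec

/-!
# MP_d266db_co: the trivial upper bound
-/

namespace Pool.Agent.MPd266db

open Finset

theorem tUps : S_Ups := by
  intro n E H r hH hreg X Y
  have h1 := Reg.out (H := H) X Y hreg
  have h2 : eb H X Y ≤ eb E X Y := eb_mono hH (Finset.Subset.refl X) (Finset.Subset.refl Y)
  have h3 : eb H X Yᶜ ≤ eb H univ Yᶜ :=
    eb_mono (Finset.Subset.refl H) (Finset.subset_univ X) (Finset.Subset.refl _)
  have h4 : eb H univ Yᶜ = r * Yᶜ.card := by
    rw [eb_univ_left, Finset.sum_congr rfl (fun v _ => (hreg v).2), sum_const, smul_eq_mul, mul_comm]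
  have h5 : Yᶜ.card + Y.card = n := by
    have := Finset.card_compl_add_card Y
    rw [Fintype.card_fin] at this
    exact this
  have h6 : r * n = r * Yᶜ.card + r * Y.card := by rw [← Nat.mul_add, h5]
  rw [Nat.mul_add]
  omega

end Pool.Agent.MPd266db
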